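import Mathlib

set_option autoImplicit false

/-! The lemma of Kochen and Stone (copied from the library file `Pool.Agent.V11269.RK4` of a teammate). -/

namespace Pool.Agent.V1193.PE.KS

open MeasureTheory ProbabilityTheory Finset Filter

section KochenStone

variable {X : Type*} [MeasurableSpace X] (μ : Measure X) [IsProbabilityMeasure μ]

lemma KS_finite {E : ℕ → Set X} (hE : ∀ k, MeasurableSet (E k)) {C : ℝ} (hC : 0 < C)
    (hpair : ∀ k l, k < l → μ.real (E k ∩ E l) ≤ C * (μ.real (E k) * μ.real (E l)))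
    (I : Finset ℕ) (hV : 0 < ∑ k ∈ I, μ.real (E k)) :
    (∑ k ∈ I, μ.real (E k)) / (1 + C * ∑ k ∈ I, μ.real (E k)) ≤ μ.real (⋃ k ∈ I, E k) := by
  classical
  set V := ∑ k ∈ I, μ.real (E k) with hVdef
  set U : Set X := ⋃ k ∈ I, E k with hU
  have hUm : MeasurableSet U := Finset.measurableSet_biUnion _ (fun k _ => hE k)
  set f : X → ℝ := fun x => ∑ k ∈ I, (E k).indicator (fun _ => (1 : ℝ)) x with hf
  have hii : ∀ s : Set X, MeasurableSet s → Integrable (s.indicator (fun _ => (1 : ℝ))) μ :=
    fun s hs => (integrable_const _).indicator hs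
  have hiv : ∀ s : Set X, MeasurableSet s →
      ∫ x, s.indicator (fun _ => (1 : ℝ)) x ∂μ = μ.real s := by
    intro s hs
    rw [integral_indicator_const _ hs]; simp
  set S2 : ℝ := ∑ k ∈ I, ∑ l ∈ I, μ.real (E k ∩ E l) with hS2
  have hkl : ∀ k ∈ I, ∀ l ∈ I, k ≠ l → μ.real (E k ∩ E l) ≤ C * (μ.real (E k) * μ.real (E l)) := by
    intro k _ l _ h
    rcases lt_or_gt_of_ne h with h1 | h1
    · exact hpair k l h1
    · rw [Set.inter_comm, mul_comm (μ.real (E k))]; exact hpair l k h1
  have hS2le : S2 ≤ V + C * (V * V) := by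
    have h1 : ∀ k ∈ I, ∀ l ∈ I, μ.real (E k ∩ E l) ≤ (if l = k then μ.real (E k) else 0) +
        C * (μ.real (E k) * μ.real (E l)) := by
      intro k hk l hl
      split_ifs with h
      · rw [h, Set.inter_self]
        have : 0 ≤ C * (μ.real (E k) * μ.real (E k)) := by positivity
        linarith
      · rw [zero_add]; exact hkl k hk l hl (Ne.symm h)
    calc S2 ≤ ∑ k ∈ I, ∑ l ∈ I, ((if l = k then μ.real (E k) else 0) +
        C * (μ.real (E k) * μ.real (E l))) :=
          sum_le_sum (fun k hk => sum_le_sum (fun l hl => h1 k hk l hl))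
      _ = V + C * (V * V) := by
          simp only [sum_add_distrib, sum_ite_eq', ← mul_sum]
          rw [← sum_mul]
          congr 1
          apply sum_congr rfl
          intro k hk
          rw [if_pos hk]
  have hS2pos : V ≤ S2 := by
    rw [hS2, hVdef]
    apply sum_le_sum
    intro k hk
    have : μ.real (E k) = μ.real (E k ∩ E k) := by rw [Set.inter_self]
    rw [this]
    exact single_le_sum (f := fun l => μ.real (E k ∩ E l)) (fun l _ => measureReal_nonneg) hk
  -- the square
  have hsq : ∀ lam : ℝ, 0 ≤ S2 - 2 * lam * V + lam ^ 2 * μ.real U := by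
    intro lam
    have h1 : ∀ x, (f x - lam * U.indicator (fun _ => (1 : ℝ)) x) ^ 2 =
        (∑ k ∈ I, ∑ l ∈ I, (E k ∩ E l).indicator (fun _ => (1 : ℝ)) x) -
        2 * lam * (∑ k ∈ I, (E k).indicator (fun _ => (1 : ℝ)) x) +
        lam ^ 2 * U.indicator (fun _ => (1 : ℝ)) x := by
      intro x
      have h2 : f x * f x = ∑ k ∈ I, ∑ l ∈ I, (E k ∩ E l).indicator (fun _ => (1 : ℝ)) x := by
        rw [hf]
        dsimp only
        rw [sum_mul_sum]
        apply sum_congr rfl; intro k _
        apply sum_congr rfl; intro l _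
        by_cases ha : x ∈ E k <;> by_cases hb : x ∈ E l <;> simp [ha, hb]
      have h3 : f x * U.indicator (fun _ => (1 : ℝ)) x = f x := by
        by_cases hx : x ∈ U
        · rw [Set.indicator_of_mem hx, mul_one]
        · rw [Set.indicator_of_notMem hx, mul_zero]
          symm
          apply sum_eq_zero
          intro k hk
          apply Set.indicator_of_notMem
          intro h4
          exact hx (Set.mem_biUnion hk h4)
      have h4 : U.indicator (fun _ => (1 : ℝ)) x * U.indicator (fun _ => (1 : ℝ)) x =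
          U.indicator (fun _ => (1 : ℝ)) x := by
        by_cases hx : x ∈ U <;> simp [hx]
      rw [← h2]
      have h5 : (∑ k ∈ I, (E k).indicator (fun _ => (1 : ℝ)) x) = f x := rfl
      rw [h5]
      linear_combination (-2 * lam) * h3 + lam ^ 2 * h4
    have h2 : 0 ≤ ∫ x, (f x - lam * U.indicator (fun _ => (1 : ℝ)) x) ^ 2 ∂μ :=
      integral_nonneg (fun x => sq_nonneg _)
    have hi1 : Integrable (fun x => ∑ k ∈ I, ∑ l ∈ I,
        (E k ∩ E l).indicator (fun _ => (1 : ℝ)) x) μ :=
      integrable_finsetSum _ (fun k _ => integrable_finsetSum _ (fun l _ =>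
        hii _ ((hE k).inter (hE l))))
    have hi2 : Integrable (fun x => 2 * lam * (∑ k ∈ I,
        (E k).indicator (fun _ => (1 : ℝ)) x)) μ :=
      (integrable_finsetSum _ (fun k _ => hii _ (hE k))).const_mul _
    have hi3 : Integrable (fun x => lam ^ 2 * U.indicator (fun _ => (1 : ℝ)) x) μ :=
      (hii _ hUm).const_mul _
    simp only [h1] at h2
    have hi12 : Integrable (fun x => (∑ k ∈ I, ∑ l ∈ I,
        (E k ∩ E l).indicator (fun _ => (1 : ℝ)) x) - 2 * lam * (∑ k ∈ I,
        (E k).indicator (fun _ => (1 : ℝ)) x)) μ := hi1.sub hi2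
    rw [integral_add hi12 hi3, integral_sub hi1 hi2, integral_const_mul,
      integral_const_mul, hiv _ hUm, integral_finsetSum _ (fun k _ => hii _ (hE k)),
      integral_finsetSum _ (fun k _ => integrable_finsetSum _ (fun l _ =>
        hii _ ((hE k).inter (hE l))))] at h2
    have h3 : ∀ k ∈ I, ∫ x, ∑ l ∈ I, (E k ∩ E l).indicator (fun _ => (1 : ℝ)) x ∂μ =
        ∑ l ∈ I, μ.real (E k ∩ E l) := by
      intro k _
      rw [integral_finsetSum _ (fun l _ => hii _ ((hE k).inter (hE l)))]
      exact sum_congr rfl (fun l _ => hiv _ ((hE k).inter (hE l)))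
    rw [sum_congr rfl h3, sum_congr rfl (fun k _ => hiv _ (hE k))] at h2
    exact h2
  have hS20 : 0 < S2 := lt_of_lt_of_le hV hS2pos
  have h1 := hsq (S2 / V)
  have h2 : S2 - 2 * (S2 / V) * V + (S2 / V) ^ 2 * μ.real U =
      S2 * (S2 * μ.real U / V ^ 2 - 1) := by field_simp; ring
  rw [h2] at h1
  have h3 : 0 ≤ S2 * μ.real U / V ^ 2 - 1 := by
    by_contra h
    exact absurd h1 (not_le.2 (mul_neg_of_pos_of_neg hS20 (not_le.1 h)))
  have h4 : V ^ 2 ≤ S2 * μ.real U := by
    have : 1 ≤ S2 * μ.real U / V ^ 2 := by linarith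
    rwa [one_le_div (by positivity)] at this
  rw [div_le_iff₀ (by positivity)]
  have h5 : V * V ≤ V * (μ.real U * (1 + C * V)) := by
    have h6 : S2 * μ.real U ≤ (V + C * (V * V)) * μ.real U :=
      mul_le_mul_of_nonneg_right hS2le measureReal_nonneg
    nlinarith
  exact le_of_mul_le_mul_left h5 hV

lemma KS {E : ℕ → Set X} (hE : ∀ k, MeasurableSet (E k)) {C : ℝ} (hC : 0 < C)
    (hpair : ∀ k l, k < l → μ.real (E k ∩ E l) ≤ C * (μ.real (E k) * μ.real (E l)))
    (hdiv : ¬ Summable (fun k => μ.real (E k))) :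
    1 / C ≤ μ.real (⋂ m : ℕ, ⋃ k ∈ Set.Ici m, E k) := by
  have hmeas : ∀ m : ℕ, MeasurableSet (⋃ k ∈ Set.Ici m, E k) :=
    fun m => MeasurableSet.biUnion (Set.to_countable _) (fun k _ => hE k)
  have hanti : Antitone (fun m : ℕ => ⋃ k ∈ Set.Ici m, E k) := by
    intro m m' h
    apply Set.biUnion_subset_biUnion_left
    exact Set.Ici_subset_Ici.2 h
  have hm : ∀ m : ℕ, 1 / C ≤ μ.real (⋃ k ∈ Set.Ici m, E k) := by
    intro m
    have hdiv2 : ¬ Summable (fun k => μ.real (E (k + m))) := by
      intro h; exact hdiv ((summable_nat_add_iff m).1 h)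
    have htend := (not_summable_iff_tendsto_nat_atTop_of_nonneg
      (fun k => measureReal_nonneg)).1 hdiv2
    have hlim : Tendsto (fun N : ℕ => (∑ k ∈ range N, μ.real (E (k + m))) /
        (1 + C * ∑ k ∈ range N, μ.real (E (k + m)))) atTop (nhds (1 / C)) := by
      have h1 : Tendsto (fun V : ℝ => V / (1 + C * V)) atTop (nhds (1 / C)) := by
        have h2 : Tendsto (fun V : ℝ => (V⁻¹ + C)⁻¹) atTop (nhds ((0 + C)⁻¹)) :=
          ((tendsto_inv_atTop_zero).add tendsto_const_nhds).inv₀ (by simpa using hC.ne')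
        rw [zero_add, ← one_div] at h2
        apply h2.congr'
        filter_upwards [eventually_gt_atTop 0] with V hV
        field_simp
      exact h1.comp htend
    apply le_of_tendsto hlim
    filter_upwards [htend.eventually_gt_atTop 0] with N hN
    have h1 : ∑ k ∈ range N, μ.real (E (k + m)) = ∑ k ∈ Finset.Ico m (m + N), μ.real (E k) := by
      rw [Finset.sum_Ico_eq_sum_range, Nat.add_sub_cancel_left]
      exact sum_congr rfl (fun k _ => by rw [add_comm])
    rw [h1] at hN ⊢
    refine (KS_finite μ hE hC hpair _ hN).trans ?_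
    apply measureReal_mono _ (measure_ne_top _ _)
    apply Set.biUnion_subset_biUnion_left
    intro k hk
    exact (Finset.mem_Ico.1 hk).1
  have ht := tendsto_measure_iInter_atTop (μ := μ) (fun m => (hmeas m).nullMeasurableSet) hanti
    ⟨0, measure_ne_top _ _⟩
  have ht2 : Tendsto (fun m : ℕ => μ.real (⋃ k ∈ Set.Ici m, E k)) atTop
      (nhds (μ.real (⋂ m : ℕ, ⋃ k ∈ Set.Ici m, E k))) :=
    (ENNReal.tendsto_toReal (measure_ne_top _ _)).comp ht
  exact ge_of_tendsto' ht2 hm

end KochenStone

end Pool.Agent.V1193.PE.KS
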