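import Pool.Agent.V1193.PE.I
import Pool.Agent.V1193.PE.K

set_option autoImplicit false

/-! Pairs of indices in short windows, and the dichotomy. -/

namespace Pool.Agent.V1193.PE

open Finset MeasureTheory Filter Topology
open Pool.Agent.W66 (NN_bounds)
open Pool.Agent.W66X (ysh measurable_ysh)
open Pool.Agent.H305R2 (NN measurable_NN mem_Ioc_log)
open Pool.Agent.V1193.GR (real01 real01_le empty_of full_of real_win)

/-- two indices in one short window -/
theorem pair_l (d : ℕ) {c : ℝ} (hc : 0 < c) :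
    ∃ K : ℝ, 0 < K ∧ ∀ l : ℝ, 0 < l → l ≤ 1 → ∀ᶠ p : ℕ in atTop, ∀ q : ℕ, p < q →
    ∀ C : ℝ, c * q ≤ C → ∀ u : ℝ, c * p ≤ u →
    ∫ t in Set.Ioc u (u + l), Pd (d + 1) t * Pd (d + 1) (t + C) ≤
      K * l * ((1 / (p : ℝ)) * (1 / (q : ℝ))) := by
  obtain ⟨K1, hK1, hev1⟩ := cellP (d + 1) hc
  obtain ⟨P1, hP1⟩ := eventually_atTop.1 hev1
  refine ⟨K1 * (6 / c), by positivity, fun l hl hl1 => ?_⟩
  -- facts on large `u`
  have hX : Tendsto (fun u : ℝ => Real.log ((NN u + 0 : ℕ) : ℝ) - u) atTop (𝓝 0) := log_NN 0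
  have hY : Tendsto (fun u : ℝ => Real.log ((NN (u + l) + 1 : ℕ) : ℝ) - u) atTop (𝓝 l) := by
    have h := ((log_NN 1).comp (tendsto_atTop_add_const_right atTop l tendsto_id)).add_const l
    rw [zero_add] at h
    refine h.congr fun u => ?_
    simp only [Function.comp, id]
    ring
  have hXt : Tendsto (fun u : ℝ => Real.log ((NN u + 0 : ℕ) : ℝ)) atTop atTop := by
    have h1 := tendsto_id.atTop_add hX
    refine h1.congr fun u => ?_
    simp
  have hm := (mean_all d (show 0 < 2 * l by linarith)).comp hXt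
  have hU : ∀ᶠ u : ℝ in atTop, 4 ≤ u ∧
      Real.log ((NN (u + l) + 1 : ℕ) : ℝ) - Real.log ((NN u + 0 : ℕ) : ℝ) ≤ 2 * l ∧
      u / 2 ≤ Real.log ((NN u + 0 : ℕ) : ℝ) ∧
      Real.log ((NN u + 0 : ℕ) : ℝ) * (∫ t in Set.Ioc (Real.log ((NN u + 0 : ℕ) : ℝ))
        (Real.log ((NN u + 0 : ℕ) : ℝ) + 2 * l), Pd (d + 1) t) ≤ 3 * l := by
    have h1 := (hY.sub hX).eventually_lt_const (show l - 0 < 2 * l by linarith)
    have h2 := hX.eventually_const_lt (show (-1 : ℝ) < 0 by norm_num)
    have h3 := hm.eventually_lt_const (show 2 * l < 3 * l by linarith)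
    filter_upwards [h1, h2, h3, eventually_ge_atTop (4 : ℝ)] with u a1 a2 a3 a4
    refine ⟨a4, by linarith, by linarith, a3.le⟩
  obtain ⟨U0, hU0⟩ := eventually_atTop.1 hU
  have hlarge : ∀ᶠ q : ℕ in atTop, |U0| / c < (q : ℝ) :=
    tendsto_natCast_atTop_atTop.eventually_gt_atTop _
  filter_upwards [hlarge, eventually_ge_atTop (max P1 3)] with p hp10 hpm q hpq C hC u hu
  have hp3 : 3 ≤ p := le_trans (le_max_right _ _) hpm
  have hp3' : (3 : ℝ) ≤ p := by exact_mod_cast hp3
  have hp0 : (0 : ℝ) < p := by linarith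
  have hq := hP1 q (by have := le_max_left P1 3; omega) C hC
  have hq3' : (3 : ℝ) ≤ q := by exact_mod_cast (by omega : 3 ≤ q)
  have hlq : 0 ≤ 1 / (q : ℝ) := by positivity
  have hcp : U0 ≤ u := by
    rw [div_lt_iff₀ hc] at hp10
    have := le_abs_self U0
    linarith
  obtain ⟨b4, b1, b2, b3⟩ := hU0 u hcp
  rw [add_zero] at b1 b2 b3
  set v := u + l with hv
  obtain ⟨n1, n2⟩ := NN_bounds u
  obtain ⟨n3, n4⟩ := NN_bounds v
  set N0 := NN u with hN0
  set N1 := NN v with hN1
  have heu : 5 ≤ Real.exp u := by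
    have := Real.add_one_le_exp u
    linarith
  have hN0r : (1 : ℝ) ≤ N0 := by linarith
  have hN0p : 1 ≤ N0 := by exact_mod_cast hN0r
  have hN01 : N0 ≤ N1 := NN_mono (by linarith)
  have hN1r : (1 : ℝ) ≤ N1 := by exact_mod_cast hN0p.trans hN01
  have hl0 : Real.log N0 ≤ u := by
    rw [Real.log_le_iff_le_exp (by linarith)]
    exact n1.le
  have hl1' : v ≤ Real.log ((N1 + 1 : ℕ) : ℝ) := by
    rw [Real.le_log_iff_exp_le (by positivity)]
    push_cast
    exact n4
  have hbig : ∫ t in Set.Ioc u v, Pd (d + 1) t * Pd (d + 1) (t + C) ≤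
      ∫ t in Set.Ioc (Real.log N0) (Real.log ((N1 + 1 : ℕ) : ℝ)),
        Pd (d + 1) t * Pd (d + 1) (t + C) := by
    refine setIntegral_mono_set (Pd_int3 (d + 1) C _ _) ?_ ?_
    · exact Eventually.of_forall fun x => mul_nonneg (Pd_nonneg _ _) (Pd_nonneg _ _)
    · exact (Set.Ioc_subset_Ioc hl0 hl1').eventuallyLE
  have hmon : ∀ N : ℕ, N0 ≤ N → Real.log (N : ℝ) ≤ Real.log ((N + 1 : ℕ) : ℝ) := by
    intro N hN
    have : (N0 : ℝ) ≤ N := by exact_mod_cast hN
    exact Real.log_le_log (by linarith) (by push_cast; linarith)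
  have hiiG : ∀ N ∈ Set.Ico N0 (N1 + 1), IntervalIntegrable
      (fun t => Pd (d + 1) t * Pd (d + 1) (t + C)) volume
      (Real.log (N : ℝ)) (Real.log ((N + 1 : ℕ) : ℝ)) := by
    intro N hN
    rw [intervalIntegrable_iff_integrableOn_Ioc_of_le (hmon N hN.1)]
    exact Pd_int3 (d + 1) C _ _
  have hiiF : ∀ N ∈ Set.Ico N0 (N1 + 1), IntervalIntegrable (fun t => Pd (d + 1) t) volume
      (Real.log (N : ℝ)) (Real.log ((N + 1 : ℕ) : ℝ)) := by
    intro N hN
    rw [intervalIntegrable_iff_integrableOn_Ioc_of_le (hmon N hN.1)]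
    exact Pd_int (d + 1) _ _
  have hsumG := intervalIntegral.sum_integral_adjacent_intervals_Ico
    (a := fun N : ℕ => Real.log (N : ℝ)) (m := N0) (n := N1 + 1) (by omega) hiiG
  have hsumF := intervalIntegral.sum_integral_adjacent_intervals_Ico
    (a := fun N : ℕ => Real.log (N : ℝ)) (m := N0) (n := N1 + 1) (by omega) hiiF
  have h01 : Real.log (N0 : ℝ) ≤ Real.log ((N1 + 1 : ℕ) : ℝ) := by linarith
  rw [intervalIntegral.integral_of_le h01] at hsumG hsumF
  have hcell : ∀ N ∈ Finset.Ico N0 (N1 + 1),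
      ∫ t in (Real.log (N : ℝ))..(Real.log ((N + 1 : ℕ) : ℝ)), Pd (d + 1) t * Pd (d + 1) (t + C) ≤
      K1 * (1 / (q : ℝ)) *
        ∫ t in (Real.log (N : ℝ))..(Real.log ((N + 1 : ℕ) : ℝ)), Pd (d + 1) t := by
    intro N hN
    rw [Finset.mem_Ico] at hN
    have hNp : 1 ≤ N := hN0p.trans hN.1
    rw [intervalIntegral.integral_of_le (hmon N hN.1), intervalIntegral.integral_of_le (hmon N hN.1)]
    set s : ℝ := if (N + (d + 1)).Prime then 1 else 0 with hs
    have hs0 : 0 ≤ s := by rw [hs]; split_ifs <;> norm_num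
    have e3 : ∫ t in Set.Ioc (Real.log (N : ℝ)) (Real.log ((N + 1 : ℕ) : ℝ)),
        Pd (d + 1) t * Pd (d + 1) (t + C) =
        s * ∫ t in Set.Ioc (Real.log (N : ℝ)) (Real.log ((N + 1 : ℕ) : ℝ)),
        Pd (d + 1) (t + C) := by
      rw [← integral_const_mul]
      exact setIntegral_congr_fun measurableSet_Ioc fun t ht => by
        simp only [val (d + 1) hNp ht, hs]
    have e4 : ∫ t in Set.Ioc (Real.log (N : ℝ)) (Real.log ((N + 1 : ℕ) : ℝ)), Pd (d + 1) t =
        s * (Real.log ((N + 1 : ℕ) : ℝ) - Real.log N) := by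
      have : ∫ t in Set.Ioc (Real.log (N : ℝ)) (Real.log ((N + 1 : ℕ) : ℝ)), Pd (d + 1) t =
          ∫ t in Set.Ioc (Real.log (N : ℝ)) (Real.log ((N + 1 : ℕ) : ℝ)), s :=
        setIntegral_congr_fun measurableSet_Ioc fun t ht => val (d + 1) hNp ht
      rw [this, setIntegral_const, smul_eq_mul, Real.volume_real_Ioc_of_le (hmon N hN.1)]
      ring
    rw [e3, e4]
    calc s * ∫ t in Set.Ioc (Real.log (N : ℝ)) (Real.log ((N + 1 : ℕ) : ℝ)), Pd (d + 1) (t + C) ≤
        s * (K1 * (1 / (q : ℝ)) * (Real.log ((N + 1 : ℕ) : ℝ) - Real.log N)) :=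
          mul_le_mul_of_nonneg_left (hq N hNp) hs0
      _ = _ := by ring
  have hall : ∫ t in Set.Ioc (Real.log N0) (Real.log ((N1 + 1 : ℕ) : ℝ)),
      Pd (d + 1) t * Pd (d + 1) (t + C) ≤
      K1 * (1 / (q : ℝ)) *
        ∫ t in Set.Ioc (Real.log N0) (Real.log ((N1 + 1 : ℕ) : ℝ)), Pd (d + 1) t := by
    rw [← hsumG, ← hsumF, Finset.mul_sum]
    exact Finset.sum_le_sum hcell
  have hone' : ∫ t in Set.Ioc (Real.log N0) (Real.log ((N1 + 1 : ℕ) : ℝ)), Pd (d + 1) t ≤
      6 / c * l * (1 / (p : ℝ)) := by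
    have h1 : ∫ t in Set.Ioc (Real.log N0) (Real.log ((N1 + 1 : ℕ) : ℝ)), Pd (d + 1) t ≤
        ∫ t in Set.Ioc (Real.log N0) (Real.log N0 + 2 * l), Pd (d + 1) t :=
      setIntegral_mono_set (Pd_int _ _ _) (Eventually.of_forall fun t => Pd_nonneg _ t)
        (LE.le.eventuallyLE (Set.Ioc_subset_Ioc le_rfl (by linarith)))
    refine h1.trans ?_
    have h2 : c * p / 2 ≤ Real.log N0 := by linarith
    have h3 : 0 < c * p / 2 := by positivity
    have h4 : 0 ≤ ∫ t in Set.Ioc (Real.log (N0 : ℝ)) (Real.log N0 + 2 * l), Pd (d + 1) t :=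
      integral_nonneg fun t => Pd_nonneg _ t
    have h5 : (c * p / 2) * (∫ t in Set.Ioc (Real.log (N0 : ℝ)) (Real.log N0 + 2 * l),
        Pd (d + 1) t) ≤ 3 * l := (mul_le_mul_of_nonneg_right h2 h4).trans b3
    have e : 6 / c * l * (1 / (p : ℝ)) = 3 * l / (c * p / 2) := by field_simp; norm_num
    rw [e, le_div_iff₀ h3, mul_comm]
    exact h5
  calc _ ≤ K1 * (1 / (q : ℝ)) * (6 / c * l * (1 / (p : ℝ))) :=
        (hbig.trans hall).trans (mul_le_mul_of_nonneg_left hone' (mul_nonneg hK1.le hlq))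
    _ = _ := by ring

/-- all pairs for one base, short windows -/
theorem pairs_l {α : ℝ} (hα : 1 < α) (hdio : Dio α) (d : ℕ) :
    ∃ K : ℝ, 0 < K ∧ ∀ u v : ℝ, u < v → v - u ≤ 1 → ∃ N : ℕ, ∀ p ≥ N, ∀ q : ℕ, p < q →
      ∫ t in Set.Ioc u v, Pd (d + 1) (p * Real.log α + t) * Pd (d + 1) (q * Real.log α + t) ≤
        K * (v - u) * ((1 / (p : ℝ)) * (1 / (q : ℝ))) := by
  have hα0 : 0 < α := by linarith
  set x := Real.log α with hx
  have hx0 : 0 < x := Real.log_pos hα
  obtain ⟨K1, hK1, hnear⟩ := near_prime_l (κ := 1) (C := ((d + 1 : ℕ) : ℝ)) (A := 1) hα zero_le_one hα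
    (g := fun _ => ((d + 1 : ℕ) : ℝ)) (fun p => by
      rw [one_pow, mul_one, abs_of_nonneg (Nat.cast_nonneg _)]) le_rfl hα hdio
  obtain ⟨K2, hK2, hfar⟩ := pair_l d (c := x / 4) (by positivity)
  refine ⟨2 * K1 + K2, by positivity, fun u v huv hv1 => ?_⟩
  have hl : 0 < v - u := by linarith
  obtain ⟨P1, h1⟩ := hnear u (v - u) hl hv1
  have hs : ∀ᶠ p : ℕ in atTop, (2 + |u|) / (x / 4) < p :=
    tendsto_natCast_atTop_atTop.eventually_gt_atTop _
  obtain ⟨P2, h2⟩ := eventually_atTop.1 ((hfar (v - u) hl hv1).and hs)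
  refine ⟨max (max P1 P2) 3, fun p hp q hpq => ?_⟩
  have hp1 : P1 ≤ p := ((le_max_left _ _).trans (le_max_left _ _)).trans hp
  have hp2 : P2 ≤ p := ((le_max_right _ _).trans (le_max_left _ _)).trans hp
  have hp3 : 3 ≤ p := (le_max_right _ _).trans hp
  have hp3' : (3 : ℝ) ≤ p := by exact_mod_cast hp3
  have hpq' : (p : ℝ) < q := by exact_mod_cast hpq
  have hp0 : (0 : ℝ) < p := by linarith
  have hq0 : (0 : ℝ) < q := by linarith
  have h5 : 0 ≤ (v - u) * ((1 / (p : ℝ)) * (1 / (q : ℝ))) := by positivity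
  rcases le_or_gt q (2 * p) with h3 | h3
  · have h6 := h1 p hp1 q hpq h3
    simp only [pf_ysh hα0, ← hx] at h6
    rw [show u + (v - u) = v by ring] at h6
    refine h6.trans ?_
    have h7 : (q : ℝ) ≤ 2 * p := by exact_mod_cast h3
    have h8 : 1 / (p : ℝ) ≤ 2 * (1 / q) := by
      rw [mul_one_div, div_le_div_iff₀ hp0 hq0]
      linarith
    calc K1 * (v - u) * (1 / (p : ℝ)) ^ 2 = K1 * (v - u) * ((1 / (p : ℝ)) * (1 / p)) := by ring
      _ ≤ K1 * (v - u) * ((1 / (p : ℝ)) * (2 * (1 / q))) := by gcongr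
      _ ≤ _ := by nlinarith
  · obtain ⟨h9, h10⟩ := h2 p hp2
    rw [div_lt_iff₀ (by positivity)] at h10
    have hq2 : 2 * (p : ℝ) ≤ q := by exact_mod_cast h3.le
    have hxp : 0 < (p : ℝ) * x := by positivity
    have c1 := neg_abs_le u
    have c3 := abs_nonneg u
    have hqx : 2 * ((p : ℝ) * x) ≤ q * x := by nlinarith
    have e : ∫ t in Set.Ioc u v, Pd (d + 1) (p * x + t) * Pd (d + 1) (q * x + t) =
        ∫ t in Set.Ioc (p * x + u) (p * x + u + (v - u)),
          Pd (d + 1) t * Pd (d + 1) (t + ((q : ℝ) * x - p * x)) := by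
      rw [show (p : ℝ) * x + u + (v - u) = p * x + v by ring, ← Pool.Agent.V1193.BP.shift_int
        (fun t => Pd (d + 1) t * Pd (d + 1) (t + ((q : ℝ) * x - p * x))) huv.le]
      refine integral_congr_ae (Eventually.of_forall fun t => ?_)
      simp only
      congr 2
      ring
    rw [e]
    have h11 := h9 q (by omega) ((q : ℝ) * x - p * x) (by nlinarith) (p * x + u) (by linarith)
    refine h11.trans ?_
    nlinarith

/-- the amplitudes with infinitely many indices in `S` -/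
def Good (S : Set ℕ) (c : ℕ) (α : ℝ) : Set ℝ := {y | (S ∩ NP c α (Real.exp y)).Infinite}

lemma meas_Good {α : ℝ} (hα : 0 < α) (S : Set ℕ) (c : ℕ) : MeasurableSet (Good S c α) := by
  have e : Good S c α = ⋂ m : ℕ, ⋃ k ∈ Set.Ici m, PEv S c (Real.log α) k := by
    ext y
    simp only [Good, Set.mem_ofPred_eq, Set.mem_iInter, Set.mem_iUnion, Set.mem_Ici, exists_prop]
    constructor
    · intro h m
      obtain ⟨n, hn, hmn⟩ := h.exists_gt m
      exact ⟨n, hmn.le, (mem_PEv hα S c y n).2 hn⟩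
    · intro h
      refine Set.infinite_of_forall_exists_gt fun m => ?_
      obtain ⟨k, hk, hy⟩ := h (m + 1)
      exact ⟨k, (mem_PEv hα S c y k).1 hy, by omega⟩
  rw [e]
  exact MeasurableSet.iInter fun m => MeasurableSet.biUnion (Set.to_countable _)
    fun k _ => meas_PEv S c _ k

/-- a positive proportion of every short window is good -/
theorem proportion {α : ℝ} (hα : 1 < α) (hdio : Dio α) (c : ℕ) :
    ∃ κ : ℝ, 0 < κ ∧ ∀ S : Set ℕ, ¬ Summable (w1 S) → ∀ u v : ℝ, u < v → v - u ≤ 1 →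
      κ * (v - u) ≤ volume.real (Set.Ioc u v ∩ Good S c α) := by
  have hα0 : 0 < α := by linarith
  set x := Real.log α with hx
  have hx0 : 0 < x := Real.log_pos hα
  obtain ⟨K, hK, hpairs⟩ := pairs_l hα hdio c
  set C : ℝ := K * (2 * x) ^ 2 with hC
  have hC0 : 0 < C := by positivity
  refine ⟨1 / C, by positivity, fun S hS u v huv hv1 => ?_⟩
  have hl : 0 < v - u := by linarith
  have hvol : volume (Set.Ioc u v) = ENNReal.ofReal (v - u) := Real.volume_Ioc
  have hne0 : volume (Set.Ioc u v) ≠ 0 := by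
    rw [hvol]
    simp [huv]
  have hnet : volume (Set.Ioc u v) ≠ ⊤ := by rw [hvol]; simp
  set μ := ProbabilityTheory.cond volume (Set.Ioc u v) with hμ
  have : IsProbabilityMeasure μ := ProbabilityTheory.cond_isProbabilityMeasure_of_finite hne0 hnet
  have hμr : ∀ A : Set ℝ, μ.real A = (v - u)⁻¹ * (volume.restrict (Set.Ioc u v)).real A := by
    intro A
    rw [hμ, ProbabilityTheory.cond, measureReal_ennreal_smul_apply, ENNReal.toReal_inv, hvol,
      ENNReal.toReal_ofReal hl.le]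
  obtain ⟨N, hN⟩ := hpairs u v huv hv1
  obtain ⟨N', hN'⟩ := eventually_atTop.1 (mass_E (x := x) c hx0 huv S ((v - u) / (2 * x))
    (by positivity))
  set M := max N N' with hM
  set F : ℕ → Set ℝ := fun k => PEv S c x (k + M) with hF
  have hlow : ∀ k, 1 / (2 * x) * w1 S (k + M) ≤ μ.real (F k) := by
    intro k
    have h1 := (abs_le.1 (hN' (k + M) (by have := le_max_right N N'; omega))).1
    rw [hμr]
    have h2 := w1_nonneg S (k + M)
    have h3 : (v - u) / (2 * x) * w1 S (k + M) ≤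
        (volume.restrict (Set.Ioc u v)).real (PEv S c x (k + M)) := by
      have e : (v - u) / x = 2 * ((v - u) / (2 * x)) := by field_simp
      rw [e] at h1
      linarith
    rw [inv_mul_eq_div, le_div_iff₀ hl]
    refine le_trans (le_of_eq ?_) h3
    field_simp
  have hpair : ∀ k l, k < l → μ.real (F k ∩ F l) ≤ C * (μ.real (F k) * μ.real (F l)) := by
    intro k l hkl
    have a1 := hlow k
    have a2 := hlow l
    have b1 := w1_nonneg S (k + M)
    have b2 := w1_nonneg S (l + M)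
    have h1 : μ.real (F k ∩ F l) ≤ K * (w1 S (k + M) * w1 S (l + M)) := by
      rw [hμr]
      by_cases h2 : k + M ∈ S
      · by_cases h3 : l + M ∈ S
        · rw [w1_mem h2, w1_mem h3]
          have h4 := hN (k + M) (by have := le_max_left N N'; omega) (l + M) (by omega)
          have h5 := (real01_le (a := fun t => Pd (c + 1) (((k + M : ℕ) : ℝ) * x + t))
            (b := fun t => Pd (c + 1) (((l + M : ℕ) : ℝ) * x + t))
            ((measurable_Pd _).comp (by fun_prop)) ((measurable_Pd _).comp (by fun_prop))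
            (fun _ => Pd01 _ _) (fun _ => Pd01 _ _) u v (A := F k) (B := F l)
            (fun _ h => h.2) (fun _ h => h.2)).trans h4
          rw [inv_mul_eq_div, div_le_iff₀ hl]
          refine h5.trans (le_of_eq ?_)
          ring
        · have : F l = ∅ := empty_of h3
          rw [this]
          simp only [Set.inter_empty, measureReal_empty, mul_zero]
          positivity
      · have : F k = ∅ := empty_of h2
        rw [this]
        simp only [Set.empty_inter, measureReal_empty, mul_zero]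
        positivity
    refine h1.trans ?_
    have h2 : (1 / (2 * x) * w1 S (k + M)) * (1 / (2 * x) * w1 S (l + M)) ≤
        μ.real (F k) * μ.real (F l) :=
      mul_le_mul a1 a2 (by positivity) measureReal_nonneg
    have h3 := mul_le_mul_of_nonneg_left h2 hC0.le
    refine le_trans (le_of_eq ?_) h3
    rw [hC]
    field_simp
  have hdiv : ¬ Summable (fun k => μ.real (F k)) := by
    intro h
    apply hS
    have h1 : Summable fun k => 1 / (2 * x) * w1 S (k + M) :=
      Summable.of_nonneg_of_le (fun k => mul_nonneg (by positivity) (w1_nonneg S _)) hlow h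
    have h2 : Summable fun k => w1 S (k + M) := by
      have h3 := h1.mul_left (2 * x)
      refine h3.congr fun k => ?_
      field_simp
    exact (summable_nat_add_iff M).1 h2
  have hks := KS.KS μ (E := F) (fun k => meas_PEv S c x _) hC0 hpair hdiv
  have hsub : (⋂ m : ℕ, ⋃ k ∈ Set.Ici m, F k) ⊆ Good S c α := by
    intro y hy
    simp only [Set.mem_iInter, Set.mem_iUnion, Set.mem_Ici, exists_prop] at hy
    refine Set.infinite_of_forall_exists_gt fun m => ?_
    obtain ⟨k, hk, h⟩ := hy (m + 1)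
    exact ⟨k + M, (mem_PEv hα0 S c y (k + M)).1 h, by omega⟩
  have h1 := hks.trans (measureReal_mono (μ := μ) hsub)
  rw [hμr, measureReal_restrict_apply' measurableSet_Ioc, inv_mul_eq_div, le_div_iff₀ hl,
    Set.inter_comm] at h1
  exact h1

/-- sets that fill a positive proportion of every short window -/
lemma full {A : Set ℝ} (hA : MeasurableSet A) {κ : ℝ} (hκ : 0 < κ)
    (h : ∀ u v : ℝ, u < v → v - u ≤ 1 → κ * (v - u) ≤ volume.real (Set.Ioc u v ∩ A)) :
    ∀ᵐ y : ℝ, y ∈ A := by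
  have hd := Besicovitch.ae_tendsto_measure_inter_div_of_measurableSet (volume : Measure ℝ) hA.compl
  filter_upwards [hd] with y hy
  by_contra hc
  have hmem : y ∈ Aᶜ := hc
  rw [Set.indicator_of_mem hmem, Pi.one_apply] at hy
  have hlt : ENNReal.ofReal (1 - κ) < 1 := by
    rw [← ENNReal.ofReal_one]
    exact (ENNReal.ofReal_lt_ofReal_iff one_pos).2 (by linarith)
  have hev := hy.eventually_const_lt hlt
  have hev2 : ∀ᶠ r : ℝ in 𝓝[>] 0, r ∈ Set.Ioo (0 : ℝ) (1 / 2) :=
    Ioo_mem_nhdsGT (by norm_num)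
  obtain ⟨r, h1, hr0, hr1⟩ := (hev.and hev2).exists
  have hvol : volume (Metric.closedBall y r) = ENNReal.ofReal (2 * r) := Real.volume_closedBall y r
  have hIoc : volume (Aᶜ ∩ Metric.closedBall y r) = volume (Set.Ioc (y - r) (y + r) ∩ Aᶜ) := by
    rw [Real.closedBall_eq_Icc, Set.inter_comm]
    refine measure_congr ?_
    exact (Ioc_ae_eq_Icc (μ := volume)).symm.inter (ae_eq_refl _)
  have h2 := h (y - r) (y + r) (by linarith) (by linarith)
  have h3 : volume.real (Set.Ioc (y - r) (y + r) ∩ Aᶜ) = 2 * r -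
      volume.real (Set.Ioc (y - r) (y + r) ∩ A) := by
    have h4 := measureReal_inter_add_sdiff (μ := volume) (s := Set.Ioc (y - r) (y + r)) hA
      (by simp)
    rw [Real.volume_real_Ioc_of_le (by linarith)] at h4
    rw [← Set.sdiff_eq]
    linarith
  have h4 : volume (Set.Ioc (y - r) (y + r) ∩ Aᶜ) ≤ ENNReal.ofReal ((1 - κ) * (2 * r)) := by
    have h5 : volume (Set.Ioc (y - r) (y + r) ∩ Aᶜ) ≠ ⊤ :=
      ne_top_of_le_ne_top (by simp) (measure_mono Set.inter_subset_left)
    rw [← ENNReal.ofReal_toReal h5]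
    refine ENNReal.ofReal_le_ofReal ?_
    change volume.real _ ≤ _
    rw [h3]
    nlinarith
  rw [hIoc, hvol] at h1
  have h6 : volume (Set.Ioc (y - r) (y + r) ∩ Aᶜ) / ENNReal.ofReal (2 * r) ≤
      ENNReal.ofReal (1 - κ) := by
    refine ENNReal.div_le_of_le_mul ?_
    rw [← ENNReal.ofReal_mul' (by linarith)]
    exact h4
  exact absurd h1 (not_lt.2 h6)

/-- **The dichotomy.** -/
theorem dichotomy {α : ℝ} (hα : 1 < α) (hdio : Dio α) (c : ℕ) (S : Set ℕ) :
    ∀ᵐ b : ℝ, 0 < b → ((S ∩ NP c α b).Infinite ↔ ¬ Summable (w1 S)) := by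
  have hα0 : 0 < α := by linarith
  refine Pool.Agent.V1193.FM.ae_exp' (Q := fun b => (S ∩ NP c α b).Infinite ↔ ¬ Summable (w1 S)) ?_
  by_cases hS : Summable (w1 S)
  · have hwin : ∀ u v : ℝ, u < v → ∀ᵐ y ∂(volume.restrict (Set.Ioc u v)),
        (S ∩ NP c α (Real.exp y)).Finite := by
      intro u v huv
      have hsum : Summable fun p => (volume.restrict (Set.Ioc u v)).real
          (PEv S c (Real.log α) p) := by
        refine Summable.of_norm_bounded_eventually_nat
          (g := fun p => ((v - u) / Real.log α + 1) * w1 S p) (hS.mul_left _) ?_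
        filter_upwards [mass_E c (Real.log_pos hα) huv S 1 one_pos] with p hp
        rw [Real.norm_of_nonneg measureReal_nonneg]
        have h1 := (abs_le.1 hp).2
        linarith
      filter_upwards [Pool.Agent.V1193.LE.fin hsum] with y hy
      refine hy.subset fun n hn => (mem_PEv hα0 S c y n).2 hn
    have h1 : ∀ k : ℕ, ∀ᵐ y : ℝ, y ∈ Set.Ioc (-((k : ℝ) + 1)) (k + 1) →
        (S ∩ NP c α (Real.exp y)).Finite := by
      intro k
      refine (ae_restrict_iff' measurableSet_Ioc).1 (hwin _ _ ?_)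
      have : (0 : ℝ) ≤ k := Nat.cast_nonneg k
      linarith
    rw [← ae_all_iff] at h1
    filter_upwards [h1] with y hy
    obtain ⟨k, hk⟩ := exists_nat_gt |y|
    have h2 := abs_lt.1 hk
    have h3 := hy k ⟨by linarith [h2.1], by linarith [h2.2]⟩
    constructor
    · intro h4
      exact absurd h3 h4
    · intro h4
      exact absurd hS h4
  · obtain ⟨κ, hκ, h⟩ := proportion hα hdio c
    filter_upwards [full (meas_Good hα0 S c) hκ (h S hS)] with y hy
    exact ⟨fun _ => hS, fun _ => hy⟩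

end Pool.Agent.V1193.PE
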