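import Pool.Agent.V1193.PE.E

set_option autoImplicit false

/-! The Pell equation `d ^ 2 - 8 b ^ 2 = 1`. -/

namespace Pool.Agent.V1193.PE

open Finset Filter Topology MeasureTheory

/-- The solutions `(d, b)` of `d ^ 2 - 8 b ^ 2 = 1`: `d + b √8 = (3 + √8) ^ m`. -/
def sol : ℕ → ℕ × ℕ
  | 0 => (1, 0)
  | (m + 1) => (3 * (sol m).1 + 8 * (sol m).2, (sol m).1 + 3 * (sol m).2)

/-- `17 + 12 √2`, the square of `3 + √8` -/
noncomputable def α0 : ℝ := (3 + Real.sqrt 8) ^ 2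

lemma s_sq : Real.sqrt 8 ^ 2 = 8 := Real.sq_sqrt (by norm_num)

lemma s_pos : 0 < Real.sqrt 8 := Real.sqrt_pos.2 (by norm_num)

lemma s_lt : 2 < Real.sqrt 8 ∧ Real.sqrt 8 < 3 := by
  constructor
  · rw [Real.lt_sqrt] <;> norm_num
  · rw [Real.sqrt_lt'] <;> norm_num

lemma α0_gt : 1 < α0 := by
  unfold α0
  nlinarith [s_lt.1]

lemma sol_pow (m : ℕ) : ((sol m).1 : ℝ) + (sol m).2 * Real.sqrt 8 = (3 + Real.sqrt 8) ^ m ∧
    ((sol m).1 : ℝ) - (sol m).2 * Real.sqrt 8 = (3 - Real.sqrt 8) ^ m := by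
  induction m with
  | zero => simp [sol]
  | succ m ih =>
    obtain ⟨h1, h2⟩ := ih
    have hs := s_sq
    rw [pow_succ, pow_succ, ← h1, ← h2]
    constructor
    · show ((3 * (sol m).1 + 8 * (sol m).2 : ℕ) : ℝ) + (((sol m).1 + 3 * (sol m).2 : ℕ) : ℝ) * _ = _
      push_cast
      linear_combination (-((sol m).2 : ℝ)) * hs
    · show ((3 * (sol m).1 + 8 * (sol m).2 : ℕ) : ℝ) - (((sol m).1 + 3 * (sol m).2 : ℕ) : ℝ) * _ = _
      push_cast
      linear_combination (-((sol m).2 : ℝ)) * hs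

lemma sol_eq (m : ℕ) : (sol m).1 ^ 2 = 8 * (sol m).2 ^ 2 + 1 := by
  induction m with
  | zero => simp [sol]
  | succ m ih =>
    show (3 * (sol m).1 + 8 * (sol m).2) ^ 2 = 8 * ((sol m).1 + 3 * (sol m).2) ^ 2 + 1
    nlinarith

lemma sol_pos (m : ℕ) : 1 ≤ (sol m).1 := by
  induction m with
  | zero => simp [sol]
  | succ m ih =>
    show 1 ≤ 3 * (sol m).1 + 8 * (sol m).2
    omega

lemma sol_strict : StrictMono fun m => (sol m).1 := by
  refine strictMono_nat_of_lt_succ fun m => ?_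
  show (sol m).1 < 3 * (sol m).1 + 8 * (sol m).2
  have := sol_pos m
  omega

lemma sol_snd_pos (m : ℕ) (hm : 1 ≤ m) : 1 ≤ (sol m).2 := by
  obtain ⟨k, rfl⟩ : ∃ k, m = k + 1 := ⟨m - 1, by omega⟩
  show 1 ≤ (sol k).1 + 3 * (sol k).2
  have := sol_pos k
  omega

/-- all solutions -/
lemma classify : ∀ b d : ℕ, d ^ 2 = 8 * b ^ 2 + 1 → ∃ m, sol m = (d, b) := by
  intro b
  induction b using Nat.strong_induction_on with
  | _ b ih =>
    intro d h
    rcases Nat.eq_zero_or_pos b with rfl | hb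
    · refine ⟨0, ?_⟩
      have : d = 1 := by nlinarith
      rw [this]
      rfl
    · have h1 : 8 * b < 3 * d := by
        by_contra hc
        rw [not_lt] at hc
        have : (3 * d) ^ 2 ≤ (8 * b) ^ 2 := Nat.pow_le_pow_left hc 2
        nlinarith
      have h2 : d ≤ 3 * b := by
        by_contra hc
        rw [not_le] at hc
        have : (3 * b) ^ 2 < d ^ 2 := Nat.pow_lt_pow_left hc (by norm_num)
        nlinarith
      have h3 : 2 * b < d := by
        by_contra hc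
        rw [not_lt] at hc
        have : d ^ 2 ≤ (2 * b) ^ 2 := Nat.pow_le_pow_left hc 2
        nlinarith
      obtain ⟨e, he⟩ : ∃ e, 3 * d = 8 * b + e := ⟨3 * d - 8 * b, by omega⟩
      obtain ⟨f, hf⟩ : ∃ f, 3 * b = d + f := ⟨3 * b - d, by omega⟩
      have hfb : f < b := by omega
      have hef : e ^ 2 = 8 * f ^ 2 + 1 := by
        zify at he hf h ⊢
        have e1 : (e : ℤ) = 3 * d - 8 * b := by linarith
        have f1 : (f : ℤ) = 3 * b - d := by linarith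
        rw [e1, f1]
        nlinarith
      obtain ⟨m, hm⟩ := ih f hfb e hef
      refine ⟨m + 1, ?_⟩
      show (3 * (sol m).1 + 8 * (sol m).2, (sol m).1 + 3 * (sol m).2) = (d, b)
      rw [hm]
      simp only [Prod.mk.injEq]
      constructor <;> omega

lemma α0_pow (m : ℕ) : α0 ^ m = (((sol m).1 : ℝ) + (sol m).2 * Real.sqrt 8) ^ 2 := by
  unfold α0
  rw [(sol_pow m).1, ← pow_mul, ← pow_mul, mul_comm]

/-- the value at `β = 2` -/
lemma value (m : ℕ) (hm : 1 ≤ m) : Nn 5 α0 2 m = 8 * (sol m).1 ^ 2 + 1 := by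
  obtain ⟨h1, h2⟩ := sol_pow m
  have hs := s_sq
  have hE : ((sol m).1 : ℝ) ^ 2 = 8 * (sol m).2 ^ 2 + 1 := by exact_mod_cast sol_eq m
  have hd1 := sol_pos m
  have hd1' : (1 : ℝ) ≤ (sol m).1 := by exact_mod_cast hd1
  have hy0 : 0 < ((sol m).1 : ℝ) - (sol m).2 * Real.sqrt 8 := by
    rw [h2]
    exact pow_pos (by linarith [s_lt.2]) m
  have hy1 : ((sol m).1 : ℝ) - (sol m).2 * Real.sqrt 8 ≤ 1 / 3 := by
    rw [h2]
    have h3 : 3 - Real.sqrt 8 ≤ 1 / 3 := by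
      have h4 : 8 / 3 ≤ Real.sqrt 8 := by
        refine Real.le_sqrt_of_sq_le ?_
        norm_num
      linarith
    have h5 : 0 < 3 - Real.sqrt 8 := by linarith [s_lt.2]
    calc (3 - Real.sqrt 8) ^ m ≤ (3 - Real.sqrt 8) ^ 1 :=
          pow_le_pow_of_le_one h5.le (by linarith) hm
      _ ≤ 1 / 3 := by rw [pow_one]; exact h3
  set D : ℝ := ((sol m).1 : ℝ) with hD
  set B : ℝ := ((sol m).2 : ℝ) with hB
  have hval : 2 * α0 ^ m = 8 * D ^ 2 - 4 - 2 * (D - B * Real.sqrt 8) ^ 2 := by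
    rw [α0_pow]
    linear_combination (4 * B ^ 2) * hs + (-4) * hE
  have hsmall : 0 < 2 * (D - B * Real.sqrt 8) ^ 2 ∧ 2 * (D - B * Real.sqrt 8) ^ 2 < 1 := by
    constructor
    · positivity
    · nlinarith
  have h4 : 4 ≤ 8 * (sol m).1 ^ 2 := by nlinarith
  have hc : ⌈2 * α0 ^ m⌉₊ = 8 * (sol m).1 ^ 2 - 4 := by
    have hne : 8 * (sol m).1 ^ 2 - 4 ≠ 0 := by
      have : 8 ≤ 8 * (sol m).1 ^ 2 := by nlinarith
      omega
    rw [Nat.ceil_eq_iff hne]
    have hcast : ((8 * (sol m).1 ^ 2 - 4 : ℕ) : ℝ) = 8 * D ^ 2 - 4 := by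
      rw [Nat.cast_sub h4]
      push_cast
      rfl
    have hcast2 : ((8 * (sol m).1 ^ 2 - 4 - 1 : ℕ) : ℝ) = 8 * D ^ 2 - 5 := by
      rw [Nat.cast_sub (by omega), hcast]
      push_cast
      ring
    rw [hcast, hcast2, hval]
    constructor
    · linarith [hsmall.2]
    · linarith [hsmall.1]
  unfold Nn
  rw [hc]
  omega

/-- the question -/
theorem question : {p : ℕ | p.Prime ∧ ∃ b d : ℤ, (p : ℤ) = 64 * b ^ 2 + 9 ∧ (p : ℤ) = 8 * d ^ 2 + 1}.Infinite ↔
    (NP 5 α0 2).Infinite := by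
  have key : ∀ p : ℕ, (p.Prime ∧ ∃ b d : ℤ, (p : ℤ) = 64 * b ^ 2 + 9 ∧ (p : ℤ) = 8 * d ^ 2 + 1) ↔
      ∃ m, 1 ≤ m ∧ m ∈ NP 5 α0 2 ∧ p = 8 * (sol m).1 ^ 2 + 1 := by
    intro p
    constructor
    · rintro ⟨hp, b, d, h1, h2⟩
      have h3 : d.natAbs ^ 2 = 8 * b.natAbs ^ 2 + 1 := by
        zify
        rw [sq_abs, sq_abs]
        linarith
      obtain ⟨m, hm⟩ := classify _ _ h3
      have h4 : (sol m).1 = d.natAbs := by rw [hm]
      have h5 : p = 8 * (sol m).1 ^ 2 + 1 := by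
        rw [h4]
        zify
        rw [sq_abs]
        exact h2
      have hm1 : 1 ≤ m := by
        by_contra h0
        have : m = 0 := by omega
        subst this
        rw [h5] at hp
        exact absurd hp (by norm_num [sol])
      refine ⟨m, hm1, ?_, h5⟩
      show (Nn 5 α0 2 m).Prime
      rw [value m hm1, ← h5]
      exact hp
    · rintro ⟨m, hm1, hm, h5⟩
      have h6 : (Nn 5 α0 2 m).Prime := hm
      rw [value m hm1, ← h5] at h6
      refine ⟨h6, (sol m).2, (sol m).1, ?_, ?_⟩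
      · have h7 := sol_eq m
        rw [h5]
        push_cast
        have h8 : ((sol m).1 : ℤ) ^ 2 = 8 * (sol m).2 ^ 2 + 1 := by exact_mod_cast h7
        linarith
      · rw [h5]
        push_cast
        ring
  have hset : {p : ℕ | p.Prime ∧ ∃ b d : ℤ, (p : ℤ) = 64 * b ^ 2 + 9 ∧ (p : ℤ) = 8 * d ^ 2 + 1} =
      (fun m => 8 * (sol m).1 ^ 2 + 1) '' (NP 5 α0 2 ∩ Set.Ici 1) := by
    ext p
    rw [Set.mem_setOf_eq, key p]
    constructor
    · rintro ⟨m, h1, h2, h3⟩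
      exact ⟨m, ⟨h2, h1⟩, h3.symm⟩
    · rintro ⟨m, ⟨h2, h1⟩, h3⟩
      exact ⟨m, h1, h2, h3.symm⟩
  have hinj : Function.Injective fun m => 8 * (sol m).1 ^ 2 + 1 := by
    intro m n h
    simp only at h
    have h1 : (sol m).1 ^ 2 = (sol n).1 ^ 2 := by omega
    have h2 : (sol m).1 = (sol n).1 := by
      exact Nat.pow_left_injective (n := 2) (by norm_num) h1
    exact sol_strict.injective h2
  rw [hset, Set.infinite_image_iff hinj.injOn]
  constructor
  · intro h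
    exact h.mono Set.inter_subset_left
  · intro h hf
    refine h ((hf.union (Set.finite_singleton 0)).subset ?_)
    intro m hm
    rcases Nat.eq_zero_or_pos m with h0 | h0
    · exact Or.inr h0
    · exact Or.inl ⟨hm, h0⟩

/-- the Diophantine condition -/
theorem dio0 : Dio α0 := by
  intro h a b hh ha hb
  rw [one_pow, one_mul]
  have hs := s_sq
  have ha' : (1 : ℝ) ≤ a := by exact_mod_cast ha
  have hb' : (1 : ℝ) ≤ b := by exact_mod_cast hb
  set X : ℕ := (sol h).1 ^ 2 + 8 * (sol h).2 ^ 2 with hX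
  set Y : ℕ := 2 * (sol h).1 * (sol h).2 with hY
  have hY1 : 1 ≤ Y := by
    have h1 := sol_pos h
    have h2 := sol_snd_pos h hh
    rw [hY]
    nlinarith
  have hXY : (X : ℝ) ^ 2 - 8 * Y ^ 2 = 1 := by
    have hE : ((sol h).1 : ℝ) ^ 2 = 8 * (sol h).2 ^ 2 + 1 := by exact_mod_cast sol_eq h
    rw [hX, hY]
    push_cast
    have e : (((sol h).1 : ℝ) ^ 2 + 8 * (sol h).2 ^ 2) ^ 2 - 8 * (2 * (sol h).1 * (sol h).2) ^ 2 =
        (((sol h).1 : ℝ) ^ 2 - 8 * (sol h).2 ^ 2) ^ 2 := by ring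
    rw [e, hE]
    ring
  have hp : α0 ^ h = X + Y * Real.sqrt 8 := by
    rw [α0_pow, hX, hY]
    push_cast
    linear_combination ((sol h).2 : ℝ) ^ 2 * hs
  set Z : ℝ := X - Y * Real.sqrt 8 with hZ
  have hYr : (1 : ℝ) ≤ Y := by exact_mod_cast hY1
  have hXr : (0 : ℝ) ≤ X := Nat.cast_nonneg X
  have hWZ : ((X : ℝ) + Y * Real.sqrt 8) * Z = 1 := by
    rw [hZ]
    linear_combination hXY - (Y : ℝ) ^ 2 * hs
  have hW : 1 < (X : ℝ) + Y * Real.sqrt 8 := by
    nlinarith [s_lt.1]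
  have hZ0 : 0 < Z := by
    by_contra hc
    rw [not_lt] at hc
    nlinarith
  have hZ1 : Z < 1 := by nlinarith
  -- the integer
  have hirr : Irrational (Real.sqrt 8) := by
    have h1 : Irrational (Real.sqrt ((8 : ℕ) : ℝ)) := by
      rw [irrational_sqrt_natCast_iff]
      rintro ⟨r, hr⟩
      have : r ≤ 2 ∨ 3 ≤ r := by omega
      rcases this with h2 | h2
      · interval_cases r <;> omega
      · nlinarith
    simpa using h1
  have hn1 : (a : ℝ) - b * ((X : ℝ) + Y * Real.sqrt 8) ≠ 0 := by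
    intro hc
    apply hirr
    refine ⟨((a : ℚ) - b * X) / (b * Y), ?_⟩
    push_cast
    have : (b : ℝ) * Y ≠ 0 := by positivity
    rw [div_eq_iff this]
    linarith
  have hn2 : (a : ℝ) - b * Z ≠ 0 := by
    intro hc
    apply hirr
    refine ⟨((b : ℚ) * X - a) / (b * Y), ?_⟩
    push_cast
    have : (b : ℝ) * Y ≠ 0 := by positivity
    rw [div_eq_iff this]
    rw [hZ] at hc
    linarith
  have hprod : ((a : ℝ) - b * ((X : ℝ) + Y * Real.sqrt 8)) * (a - b * Z) =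
      (((a : ℤ) ^ 2 - 2 * a * b * X + b ^ 2 : ℤ) : ℝ) := by
    push_cast
    have e1 : ((a : ℝ) - b * ((X : ℝ) + Y * Real.sqrt 8)) * (a - b * Z) =
        a ^ 2 - a * b * (((X : ℝ) + Y * Real.sqrt 8) + Z) +
          b ^ 2 * (((X : ℝ) + Y * Real.sqrt 8) * Z) := by ring
    rw [e1, hWZ, hZ]
    ring
  have hne : ((a : ℤ) ^ 2 - 2 * a * b * X + b ^ 2 : ℤ) ≠ 0 := by
    intro hc
    rw [hc] at hprod
    push_cast at hprod
    rcases mul_eq_zero.1 hprod with h1 | h1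
    · exact hn1 h1
    · exact hn2 h1
  have hge : (1 : ℝ) ≤ |((((a : ℤ) ^ 2 - 2 * a * b * X + b ^ 2 : ℤ)) : ℝ)| := by
    exact_mod_cast Int.one_le_abs hne
  rw [← hprod, abs_mul] at hge
  rw [hp]
  have h2 : |(a : ℝ) - b * Z| ≤ a + b := by
    rw [abs_le]
    constructor <;> nlinarith
  calc (1 : ℝ) ≤ |(a : ℝ) - b * ((X : ℝ) + Y * Real.sqrt 8)| * |(a : ℝ) - b * Z| := hge
    _ ≤ _ := mul_le_mul_of_nonneg_left h2 (abs_nonneg _)

end Pool.Agent.V1193.PE
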