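import Pool.Agent.V1193.PE.F

set_option autoImplicit false

/-! Gaps and given pairs. -/

namespace Pool.Agent.V1193.PE

open Finset Filter Topology MeasureTheory

lemma series {δ : ℝ} (hδ : 0 < δ) :
    Summable fun n : ℕ => 1 / ((n : ℝ) * Real.log (n + 1) ^ (1 + δ)) := by
  have hlog : ∀ n : ℕ, 0 ≤ Real.log ((n : ℝ) + 1) := fun n =>
    Real.log_nonneg (by linarith [Nat.cast_nonneg (α := ℝ) n])
  rw [← summable_condensed_iff_of_nonneg]
  · have hs : Summable fun k : ℕ => (1 / Real.log 2 ^ (1 + δ)) * (1 / (k : ℝ) ^ (1 + δ)) :=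
      (Real.summable_one_div_nat_rpow.2 (by linarith)).mul_left _
    refine Summable.of_norm_bounded_eventually_nat hs ?_
    filter_upwards [eventually_ge_atTop 1] with k hk
    have hk' : (0 : ℝ) < k := by exact_mod_cast hk
    have h2 : (0 : ℝ) < 2 ^ k := by positivity
    have hl2 : 0 < Real.log 2 := Real.log_pos (by norm_num)
    have h3 : k * Real.log 2 ≤ Real.log ((2 : ℝ) ^ k + 1) := by
      rw [← Real.log_pow]
      exact Real.log_le_log h2 (by linarith)
    have h4 : 0 < Real.log ((2 : ℝ) ^ k + 1) := lt_of_lt_of_le (by positivity) h3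
    push_cast
    rw [Real.norm_of_nonneg (by positivity)]
    have e : (2 : ℝ) ^ k * (1 / (2 ^ k * Real.log (2 ^ k + 1) ^ (1 + δ))) =
        1 / Real.log ((2 : ℝ) ^ k + 1) ^ (1 + δ) := by
      have : Real.log ((2 : ℝ) ^ k + 1) ^ (1 + δ) ≠ 0 := (Real.rpow_pos_of_pos h4 _).ne'
      field_simp
    rw [e, one_div_mul_one_div, ← Real.mul_rpow hl2.le hk'.le, mul_comm (Real.log 2) (k : ℝ)]
    exact one_div_le_one_div_of_le (Real.rpow_pos_of_pos (by positivity) _)
      (Real.rpow_le_rpow (by positivity) h3 (by linarith))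
  · intro n
    have := hlog n
    positivity
  · intro m n hm hmn
    have hm' : (0 : ℝ) < m := by exact_mod_cast hm
    have hmn' : (m : ℝ) ≤ n := by exact_mod_cast hmn
    have h1 : 0 < Real.log ((m : ℝ) + 1) := Real.log_pos (by linarith)
    have h2 : Real.log ((m : ℝ) + 1) ≤ Real.log ((n : ℝ) + 1) :=
      Real.log_le_log (by linarith) (by linarith)
    refine one_div_le_one_div_of_le (mul_pos hm' (Real.rpow_pos_of_pos h1 _)) ?_
    exact mul_le_mul hmn' (Real.rpow_le_rpow h1.le h2 (by linarith))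
      (Real.rpow_nonneg h1.le _) (by linarith)

/-- the close pairs -/
def gapD (δ : ℝ) : Set (ℕ × ℕ) :=
  {z | 1 ≤ z.1 ∧ z.1 < z.2 ∧ (z.2 : ℝ) - z.1 < z.1 / Real.log (z.1 + 1) ^ (1 + δ)}

lemma gap_sum {δ : ℝ} (hδ : 0 < δ) :
    Summable ((gapD δ).indicator fun z : ℕ × ℕ => 1 / ((z.1 : ℝ) * z.2)) := by
  classical
  set x : ℕ → ℝ := fun m => m / Real.log (m + 1) ^ (1 + δ) with hx
  have hx0 : ∀ m, 0 ≤ x m := fun m => by
    have : 0 ≤ Real.log ((m : ℝ) + 1) :=
      Real.log_nonneg (by linarith [Nat.cast_nonneg (α := ℝ) m])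
    simp only [hx]
    positivity
  set g : ℕ × ℕ → ℝ := fun z => if z.2 ∈ Ioc z.1 (z.1 + ⌊x z.1⌋₊) then 1 / (z.1 : ℝ) ^ 2 else 0
    with hg
  have hg0 : ∀ z, 0 ≤ g z := fun z => by simp only [hg]; split_ifs <;> positivity
  have hle : ∀ z, (gapD δ).indicator (fun z : ℕ × ℕ => 1 / ((z.1 : ℝ) * z.2)) z ≤ g z := by
    intro z
    by_cases hz : z ∈ gapD δ
    · rw [Set.indicator_of_mem hz]
      obtain ⟨h1, h2, h3⟩ := hz
      have h1' : (0 : ℝ) < z.1 := by exact_mod_cast h1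
      have h2' : (z.1 : ℝ) < z.2 := by exact_mod_cast h2
      have hmem : z.2 ∈ Ioc z.1 (z.1 + ⌊x z.1⌋₊) := by
        rw [mem_Ioc]
        refine ⟨h2, ?_⟩
        have h4 : z.2 - z.1 ≤ ⌊x z.1⌋₊ := by
          refine Nat.le_floor ?_
          rw [Nat.cast_sub h2.le]
          exact h3.le
        omega
      simp only [hg]
      rw [if_pos hmem]
      refine one_div_le_one_div_of_le (by positivity) ?_
      nlinarith
    · rw [Set.indicator_of_notMem hz]
      exact hg0 z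
  refine Summable.of_nonneg_of_le (fun z => Set.indicator_nonneg (fun _ _ => by positivity) z) hle ?_
  have hrow : ∀ m : ℕ, ∀ n ∉ Ioc m (m + ⌊x m⌋₊), g (m, n) = 0 := by
    intro m n hn
    simp only [hg]
    rw [if_neg hn]
  rw [summable_prod_of_nonneg hg0]
  constructor
  · intro m
    exact summable_of_ne_finset_zero (s := Ioc m (m + ⌊x m⌋₊)) (hrow m)
  · refine Summable.of_nonneg_of_le (fun m => tsum_nonneg fun n => hg0 _) (fun m => ?_)
      (series hδ)
    rw [tsum_eq_sum (s := Ioc m (m + ⌊x m⌋₊)) (hrow m)]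
    have e : ∑ n ∈ Ioc m (m + ⌊x m⌋₊), g (m, n) = ⌊x m⌋₊ * (1 / (m : ℝ) ^ 2) := by
      rw [Finset.sum_congr rfl (g := fun _ => 1 / (m : ℝ) ^ 2) (fun n hn => by
        simp only [hg]
        rw [if_pos hn]), Finset.sum_const, Nat.card_Ioc, nsmul_eq_mul, Nat.add_sub_cancel_left]
    rw [e]
    have h1 : (⌊x m⌋₊ : ℝ) ≤ x m := Nat.floor_le (hx0 m)
    refine (mul_le_mul_of_nonneg_right h1 (by positivity)).trans (le_of_eq ?_)
    simp only [hx]
    rcases Nat.eq_zero_or_pos m with rfl | hm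
    · simp
    · have hm' : (m : ℝ) ≠ 0 := by positivity
      field_simp

/-- **Gaps.** -/
theorem gaps {α : ℝ} (hα : 1 < α) (hdio : Dio α) (c : ℕ) {δ : ℝ} (hδ : 0 < δ) :
    ∀ᵐ b : ℝ, 0 < b → ∃ M : ℕ, ∀ m ∈ NP c α b, ∀ n ∈ NP c α b, M ≤ m → m < n →
      (m : ℝ) / Real.log (m + 1) ^ (1 + δ) ≤ n - m := by
  filter_upwards [sparse hα hdio c (D := gapD δ) (fun z hz => ⟨hz.1, hz.2.1⟩) (gap_sum hδ)]
    with b hb hb0
  have hf := (hb hb0).image Prod.fst
  obtain ⟨M, hM⟩ := hf.bddAbove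
  refine ⟨M + 1, fun m hm n hn hMm hmn => ?_⟩
  by_contra hc
  rw [not_le] at hc
  have h1 : m ∈ Prod.fst '' {z | z ∈ gapD δ ∧ z.1 ∈ NP c α b ∧ z.2 ∈ NP c α b} :=
    ⟨(m, n), ⟨⟨by simp only; omega, hmn, hc⟩, hm, hn⟩, rfl⟩
  have := hM h1
  omega

/-- **Given pairs.** -/
theorem images {α : ℝ} (hα : 1 < α) (hdio : Dio α) (c : ℕ) {f : ℕ → ℕ} (hf : ∀ m, m < f m) :
    ∀ᵐ b : ℝ, 0 < b → {m | m ∈ NP c α b ∧ f m ∈ NP c α b}.Finite := by
  set D : Set (ℕ × ℕ) := {z | 1 ≤ z.1 ∧ z.2 = f z.1} with hD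
  have hs : Summable (D.indicator fun z : ℕ × ℕ => 1 / ((z.1 : ℝ) * z.2)) := by
    have hinj : Function.Injective fun m : ℕ => (m, f m) := fun a b h => (Prod.mk.inj h).1
    rw [← hinj.summable_iff]
    · refine Summable.of_nonneg_of_le (fun m => Set.indicator_nonneg (fun _ _ => by positivity) _)
        (fun m => ?_) (Real.summable_one_div_nat_pow.2 (le_refl 2))
      simp only [Function.comp]
      by_cases hm : (m, f m) ∈ D
      · rw [Set.indicator_of_mem hm]
        have h1 : (0 : ℝ) < m := by exact_mod_cast hm.1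
        have h2 : (m : ℝ) < f m := by exact_mod_cast hf m
        simp only
        refine one_div_le_one_div_of_le (by positivity) ?_
        nlinarith
      · rw [Set.indicator_of_notMem hm]
        positivity
    · intro z hz
      refine Set.indicator_of_notMem (fun h => hz ?_) _
      exact ⟨z.1, Prod.ext rfl h.2.symm⟩
  filter_upwards [sparse hα hdio c (D := D) (fun z hz => ⟨hz.1, by rw [hz.2]; exact hf _⟩) hs]
    with b hb hb0
  refine (((hb hb0).image Prod.fst).union (Set.finite_singleton 0)).subset ?_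
  rintro m ⟨h1, h2⟩
  rcases Nat.eq_zero_or_pos m with h0 | h0
  · exact Or.inr h0
  · exact Or.inl ⟨(m, f m), ⟨⟨h0, rfl⟩, h1, h2⟩, rfl⟩

end Pool.Agent.V1193.PE
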