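import Pool.Agent.V1193.PE.A

set_option autoImplicit false

/-! Prime values: short intervals. -/

namespace Pool.Agent.V1193.PE

open Finset MeasureTheory Filter Topology
open Pool.Agent.H305R2 (NN measurable_NN mem_Ioc_log integral_ind integral_ind_le)
open Pool.Agent.W66 (NN_bounds)

/-- indicator of a prime value, with a shift -/
noncomputable def Pd (d : ℕ) (t : ℝ) : ℝ := if (NN t + d).Prime then 1 else 0

lemma measurable_Pd (d : ℕ) : Measurable (Pd d) :=
  (measurable_from_nat (f := fun n : ℕ => if (n + d).Prime then (1 : ℝ) else 0)).comp measurable_NN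

lemma Pd_nonneg (d : ℕ) (t : ℝ) : 0 ≤ Pd d t := by unfold Pd; split_ifs <;> norm_num

lemma Pd_le_one (d : ℕ) (t : ℝ) : Pd d t ≤ 1 := by unfold Pd; split_ifs <;> norm_num

lemma Pd01 (d : ℕ) (t : ℝ) : Pd d t = 0 ∨ Pd d t = 1 := by
  unfold Pd; split_ifs
  · exact Or.inr rfl
  · exact Or.inl rfl

lemma Pd_int (d : ℕ) (u v : ℝ) : IntegrableOn (Pd d) (Set.Ioc u v) := by
  refine Measure.integrableOn_of_bounded (M := 1) (by simp) (measurable_Pd d).aestronglyMeasurable ?_
  refine Eventually.of_forall fun t => ?_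
  rw [Real.norm_of_nonneg (Pd_nonneg d t)]
  exact Pd_le_one d t

lemma NN_mono {s t : ℝ} (h : s ≤ t) : NN s ≤ NN t := by
  unfold NN
  exact Nat.sub_le_sub_right (Nat.ceil_mono (Real.exp_le_exp.2 h)) 1

/-- the integral is at most the sum of the reciprocals -/
lemma int_le_sum (d : ℕ) {u v : ℝ} (hu : 1 ≤ NN u) :
    ∫ t in Set.Ioc u v, Pd d t ≤
      ∑ m ∈ (Icc (NN u) (NN v)).filter (fun m => (m + d).Prime), 1 / (m : ℝ) := by
  set F := (Icc (NN u) (NN v)).filter (fun m => (m + d).Prime) with hF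
  have hF1 : ∀ m ∈ F, 1 ≤ m := by
    intro m hm
    rw [hF, mem_filter, mem_Icc] at hm
    omega
  have e : ∫ t in Set.Ioc u v, Pd d t =
      ∫ t in Set.Ioc u v, (if NN t ∈ F then (1 : ℝ) else 0) := by
    refine setIntegral_congr_fun measurableSet_Ioc fun t ht => ?_
    have h1 := NN_mono ht.1.le
    have h2 := NN_mono ht.2
    unfold Pd
    simp only [hF, mem_filter, mem_Icc]
    by_cases h : (NN t + d).Prime
    · rw [if_pos h, if_pos ⟨⟨h1, h2⟩, h⟩]
    · rw [if_neg h, if_neg (fun h' => h h'.2)]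
  rw [e, integral_ind F hF1]
  exact Finset.sum_le_sum fun m hm => integral_ind_le (hF1 m hm) _ _

/-- Brun–Titchmarsh in logarithmic scale -/
theorem short (d : ℕ) : ∃ K : ℝ, 0 < K ∧ ∀ u h : ℝ, 0 < h → h ≤ 1 → 4 ≤ u + Real.log h →
    ∫ t in Set.Ioc u (u + h), Pd d t ≤ K * h / (u + Real.log h) := by
  obtain ⟨C0, hC0, hBT⟩ := Pool.Agent.Helper601.brun_titchmarsh
  refine ⟨8 * C0, by linarith, fun u h hh hh1 hU => ?_⟩
  have hlh : Real.log h ≤ 0 := Real.log_nonpos hh.le hh1
  have hu4 : 4 ≤ u := by linarith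
  have heu : 5 ≤ Real.exp u := by
    have := Real.add_one_le_exp u
    linarith
  have hX0 : 0 < Real.exp u := Real.exp_pos u
  have hhX : Real.exp (u + Real.log h) = h * Real.exp u := by
    rw [Real.exp_add, Real.exp_log hh, mul_comm]
  have hhX5 : 5 ≤ h * Real.exp u := by
    rw [← hhX]
    have := Real.add_one_le_exp (u + Real.log h)
    linarith
  obtain ⟨n1, n2⟩ := NN_bounds u
  obtain ⟨n3, n4⟩ := NN_bounds (u + h)
  have hN1 : 1 ≤ NN u := by
    have : (0 : ℝ) < NN u := by linarith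
    exact_mod_cast this
  refine (int_le_sum d hN1).trans ?_
  set F := (Icc (NN u) (NN (u + h))).filter (fun m => (m + d).Prime) with hF
  set M := ⌈3 * (h * Real.exp u)⌉₊ with hM
  have hM1 : 3 * (h * Real.exp u) ≤ M := Nat.le_ceil _
  have hM2 : (M : ℝ) < 3 * (h * Real.exp u) + 1 := Nat.ceil_lt_add_one (by positivity)
  have hMr : (2 : ℝ) ≤ M := by linarith
  have hM2' : 2 ≤ M := by exact_mod_cast hMr
  have heh : Real.exp h ≤ 1 + 2 * h := by
    have h1 := Real.abs_exp_sub_one_le (x := h) (by rw [abs_of_pos hh]; exact hh1)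
    rw [abs_of_pos hh] at h1
    linarith [(abs_le.1 h1).2]
  have hlen : (NN (u + h) : ℝ) < NN u + M := by
    have h1 : Real.exp (u + h) ≤ Real.exp u + 2 * (h * Real.exp u) := by
      rw [Real.exp_add]; nlinarith
    linarith
  have hlen' : NN (u + h) < NN u + M := by exact_mod_cast hlen
  have hcard : (F.card : ℝ) ≤ C0 * M / Real.log M := by
    have h1 := hBT (NN u + d) 1 M hM2' (Or.inl rfl)
    refine le_trans ?_ h1
    have h2 : F.card ≤ ((Finset.range M).filter (fun k => (NN u + d + k * 1).Prime)).card := by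
      refine Finset.card_le_card_of_injOn (fun m => m - NN u) ?_ ?_
      · intro m hm
        rw [hF] at hm
        simp only [coe_filter, mem_Icc, Set.mem_setOf_eq] at hm
        simp only [coe_filter, mem_range, Set.mem_setOf_eq]
        refine ⟨by omega, ?_⟩
        rw [show NN u + d + (m - NN u) * 1 = m + d by omega]
        exact hm.2
      · intro m hm n hn hmn
        rw [hF] at hm hn
        simp only [coe_filter, mem_Icc, Set.mem_setOf_eq] at hm hn
        simp only at hmn
        omega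
    exact_mod_cast h2
  have hlogM : u + Real.log h ≤ Real.log M := by
    rw [Real.le_log_iff_exp_le (by linarith), hhX]
    linarith
  have hUpos : 0 < u + Real.log h := by linarith
  have hcard2 : (F.card : ℝ) ≤ 4 * C0 * (h * Real.exp u) / (u + Real.log h) := by
    refine hcard.trans ?_
    have h3 : C0 * (M : ℝ) ≤ 4 * C0 * (h * Real.exp u) := by
      have : (M : ℝ) ≤ 4 * (h * Real.exp u) := by linarith
      nlinarith
    exact div_le_div₀ (by positivity) h3 hUpos hlogM
  have hterm : ∀ m ∈ F, 1 / (m : ℝ) ≤ 2 / Real.exp u := by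
    intro m hm
    rw [hF, mem_filter, mem_Icc] at hm
    have h1 : (NN u : ℝ) ≤ m := by exact_mod_cast hm.1.1
    have h2 : Real.exp u / 2 ≤ m := by linarith
    have h3 : 0 < Real.exp u / 2 := by positivity
    calc 1 / (m : ℝ) ≤ 1 / (Real.exp u / 2) := one_div_le_one_div_of_le h3 h2
      _ = _ := by field_simp
  calc ∑ m ∈ F, 1 / (m : ℝ) ≤ ∑ m ∈ F, 2 / Real.exp u := Finset.sum_le_sum hterm
    _ = F.card * (2 / Real.exp u) := by rw [Finset.sum_const, nsmul_eq_mul]
    _ ≤ (4 * C0 * (h * Real.exp u) / (u + Real.log h)) * (2 / Real.exp u) :=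
        mul_le_mul_of_nonneg_right hcard2 (by positivity)
    _ = _ := by field_simp; ring

/-- long windows -/
theorem long (d : ℕ) : ∃ K : ℝ, 0 < K ∧ ∀ u v : ℝ, 4 ≤ u → u ≤ v →
    ∫ t in Set.Ioc u v, Pd d t ≤ K * ((v - u) + 1) / u := by
  obtain ⟨K, hK, h⟩ := short d
  refine ⟨K, hK, fun u v hu huv => ?_⟩
  have key : ∀ n : ℕ, ∫ t in Set.Ioc u (u + n), Pd d t ≤ n * (K / u) := by
    intro n
    induction n with
    | zero => simp
    | succ n ih =>
      have hn : (0 : ℝ) ≤ n := Nat.cast_nonneg n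
      have e : Set.Ioc u (u + ((n + 1 : ℕ) : ℝ)) = Set.Ioc u (u + n) ∪ Set.Ioc (u + n) (u + n + 1) := by
        rw [Set.Ioc_union_Ioc_eq_Ioc (by linarith) (by linarith)]
        congr 1
        push_cast; ring
      rw [e, setIntegral_union (Set.Ioc_disjoint_Ioc_of_le le_rfl) measurableSet_Ioc (Pd_int _ _ _)
        (Pd_int _ _ _)]
      have h1 := h (u + n) 1 one_pos le_rfl (by rw [Real.log_one]; linarith)
      rw [Real.log_one, add_zero, mul_one] at h1
      have h2 : K / (u + n) ≤ K / u := div_le_div_of_nonneg_left hK.le (by linarith) (by linarith)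
      push_cast
      linarith
  set n := ⌈v - u⌉₊ with hn
  have h1 : v - u ≤ n := Nat.le_ceil _
  have h2 : (n : ℝ) < v - u + 1 := Nat.ceil_lt_add_one (by linarith)
  calc ∫ t in Set.Ioc u v, Pd d t ≤ ∫ t in Set.Ioc u (u + n), Pd d t :=
        setIntegral_mono_set (Pd_int _ _ _) (Eventually.of_forall fun t => Pd_nonneg d t)
          (LE.le.eventuallyLE (Set.Ioc_subset_Ioc le_rfl (by linarith)))
    _ ≤ n * (K / u) := key n
    _ ≤ (v - u + 1) * (K / u) := mul_le_mul_of_nonneg_right h2.le (by positivity)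
    _ = _ := by ring

end Pool.Agent.V1193.PE
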