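import Pool.Agent.V1193.PE.B
import Pool.Agent.H376R2.MR.Pntc

set_option autoImplicit false

/-! Prime values: the mean, from the prime number theorem. -/

namespace Pool.Agent.V1193.PE

open Finset MeasureTheory Filter Topology
open Pool.Agent.H305R2 (NN measurable_NN mem_Ioc_log integral_ind integral_ind_le integral_ind_ge)
open Pool.Agent.W66 (NN_bounds)

lemma log_NN (e : ℕ) : Tendsto (fun u : ℝ => Real.log ((NN u + e : ℕ) : ℝ) - u) atTop (𝓝 0) := by
  have hexp : Tendsto (fun u : ℝ => (Real.exp u)⁻¹) atTop (𝓝 0) :=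
    tendsto_inv_atTop_zero.comp Real.tendsto_exp_atTop
  have h1 : Tendsto (fun u : ℝ => ((NN u + e : ℕ) : ℝ) / Real.exp u) atTop (𝓝 1) := by
    have hlo : Tendsto (fun u : ℝ => 1 + ((e : ℝ) - 1) * (Real.exp u)⁻¹) atTop (𝓝 1) := by
      have := (hexp.const_mul ((e : ℝ) - 1)).const_add 1
      simpa using this
    have hhi : Tendsto (fun u : ℝ => 1 + (e : ℝ) * (Real.exp u)⁻¹) atTop (𝓝 1) := by
      have := (hexp.const_mul (e : ℝ)).const_add 1
      simpa using this
    refine tendsto_of_tendsto_of_tendsto_of_le_of_le hlo hhi (fun u => ?_) (fun u => ?_)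
    · obtain ⟨n1, n2⟩ := NN_bounds u
      have h0 := Real.exp_pos u
      show 1 + ((e : ℝ) - 1) * (Real.exp u)⁻¹ ≤ ((NN u + e : ℕ) : ℝ) / Real.exp u
      rw [le_div_iff₀ h0, add_mul, mul_assoc, inv_mul_cancel₀ h0.ne']
      push_cast
      linarith
    · obtain ⟨n1, n2⟩ := NN_bounds u
      have h0 := Real.exp_pos u
      show ((NN u + e : ℕ) : ℝ) / Real.exp u ≤ 1 + (e : ℝ) * (Real.exp u)⁻¹
      rw [div_le_iff₀ h0, add_mul, mul_assoc, inv_mul_cancel₀ h0.ne']
      push_cast
      linarith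
  have h2 := (Real.continuousAt_log one_ne_zero).tendsto.comp h1
  rw [Real.log_one] at h2
  refine h2.congr' ?_
  filter_upwards [eventually_gt_atTop (Real.log 2)] with u hu
  obtain ⟨n1, n2⟩ := NN_bounds u
  have h3 : 2 < Real.exp u := by
    rw [← Real.log_lt_iff_lt_exp (by norm_num)]; exact hu
  have h4 : (0 : ℝ) < ((NN u + e : ℕ) : ℝ) := by
    push_cast
    have : (0 : ℝ) ≤ e := Nat.cast_nonneg e
    linarith
  simp only [Function.comp]
  rw [Real.log_div h4.ne' (Real.exp_pos u).ne', Real.log_exp]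

lemma NN_top (e : ℕ) : Tendsto (fun u : ℝ => ((NN u + e : ℕ) : ℝ)) atTop atTop := by
  refine tendsto_atTop_mono (f := fun u : ℝ => u) (fun u => ?_) tendsto_id
  obtain ⟨n1, n2⟩ := NN_bounds u
  have := Real.add_one_le_exp u
  have h0 : (0 : ℝ) ≤ e := Nat.cast_nonneg e
  push_cast
  linarith

/-- two functions close to the identity -/
lemma loglog {X Y : ℝ → ℝ} {l : ℝ} (hX : Tendsto (fun u => X u - u) atTop (𝓝 0))
    (hY : Tendsto (fun u => Y u - u) atTop (𝓝 l)) :
    Tendsto (fun u => u * (Real.log (Y u) - Real.log (X u))) atTop (𝓝 l) ∧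
    ∀ C : ℝ, Tendsto (fun u => u * ((1 / X u - 1 / Y u) + C / X u ^ 2)) atTop (𝓝 0) := by
  have hinv : Tendsto (fun u : ℝ => u⁻¹) atTop (𝓝 0) := tendsto_inv_atTop_zero
  have hr : ∀ {Z : ℝ → ℝ} {m : ℝ}, Tendsto (fun u => Z u - u) atTop (𝓝 m) →
      Tendsto (fun u => Z u / u) atTop (𝓝 1) := by
    intro Z m hZ
    have h1 := (hZ.mul hinv).const_add 1
    rw [mul_zero, add_zero] at h1
    refine h1.congr' ?_
    filter_upwards [eventually_gt_atTop 0] with u hu
    field_simp
    ring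
  have ht : ∀ {Z : ℝ → ℝ} {m : ℝ}, Tendsto (fun u => Z u - u) atTop (𝓝 m) →
      Tendsto Z atTop atTop := by
    intro Z m hZ
    have h1 := tendsto_id.atTop_add hZ
    refine h1.congr fun u => ?_
    simp
  have hX1 := hr hX
  have hY1 := hr hY
  have hXt := ht hX
  have hYt := ht hY
  have hd : Tendsto (fun u => Y u - X u) atTop (𝓝 l) := by
    have := hY.sub hX
    rw [sub_zero] at this
    refine this.congr fun u => ?_
    ring
  constructor
  · have h1 : Tendsto (fun u => (Y u - X u) / (Y u / u)) atTop (𝓝 l) := by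
      have := hd.div hY1 one_ne_zero
      rwa [div_one] at this
    have h2 : Tendsto (fun u => (Y u - X u) / (X u / u)) atTop (𝓝 l) := by
      have := hd.div hX1 one_ne_zero
      rwa [div_one] at this
    refine tendsto_of_tendsto_of_tendsto_of_le_of_le' h1 h2 ?_ ?_
    · filter_upwards [eventually_gt_atTop 0, hXt.eventually_gt_atTop 0, hYt.eventually_gt_atTop 0]
        with u hu hx hy
      rw [← Real.log_div hy.ne' hx.ne']
      have h3 := Real.one_sub_inv_le_log_of_pos (show 0 < Y u / X u by positivity)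
      have h4 : (Y u - X u) / (Y u / u) = u * (1 - (Y u / X u)⁻¹) := by field_simp
      rw [h4]
      exact mul_le_mul_of_nonneg_left h3 hu.le
    · filter_upwards [eventually_gt_atTop 0, hXt.eventually_gt_atTop 0, hYt.eventually_gt_atTop 0]
        with u hu hx hy
      rw [← Real.log_div hy.ne' hx.ne']
      have h3 := Real.log_le_sub_one_of_pos (show 0 < Y u / X u by positivity)
      have h4 : (Y u - X u) / (X u / u) = u * (Y u / X u - 1) := by field_simp
      rw [h4]
      exact mul_le_mul_of_nonneg_left h3 hu.le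
  · intro C
    have hYi : Tendsto (fun u => (Y u)⁻¹) atTop (𝓝 0) := tendsto_inv_atTop_zero.comp hYt
    have hXi : Tendsto (fun u => (X u)⁻¹) atTop (𝓝 0) := tendsto_inv_atTop_zero.comp hXt
    have h1 : Tendsto (fun u => ((Y u - X u) * (Y u)⁻¹ + C * (X u)⁻¹) / (X u / u)) atTop (𝓝 0) := by
      have := ((hd.mul hYi).add (hXi.const_mul C)).div hX1 one_ne_zero
      rw [show (l * 0 + C * 0) / 1 = (0 : ℝ) by ring] at this
      exact this
    refine h1.congr' ?_
    filter_upwards [eventually_gt_atTop 0, hXt.eventually_gt_atTop 0, hYt.eventually_gt_atTop 0]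
      with u hu hx hy
    field_simp

/-- sums of reciprocals of primes -/
theorem pnt_sum (e1 e2 : ℕ) {l : ℝ} (hl : 0 < l) (hl1 : l ≤ 1) :
    Tendsto (fun u : ℝ => u * ∑ p ∈ (Ioc (NN u + e1) (NN (u + l) + e2)).filter Nat.Prime, 1 / (p : ℝ))
      atTop (𝓝 l) := by
  obtain ⟨C, hC, hP⟩ := Pool.Agent.H381R2.HR.A2 Pool.Agent.H381R2.HR.A1
  have hX := log_NN e1
  have hY : Tendsto (fun u : ℝ => Real.log ((NN (u + l) + e2 : ℕ) : ℝ) - u) atTop (𝓝 l) := by
    have h := ((log_NN e2).comp (tendsto_atTop_add_const_right atTop l tendsto_id)).add_const l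
    rw [zero_add] at h
    refine h.congr fun u => ?_
    simp only [Function.comp, id]
    ring
  obtain ⟨hmain, herr⟩ := loglog hX hY
  have he := herr (4 * C)
  have hdiff : Tendsto (fun u : ℝ => u * (∑ p ∈ (Ioc (NN u + e1) (NN (u + l) + e2)).filter Nat.Prime,
      1 / (p : ℝ)) - u * (Real.log (Real.log ((NN (u + l) + e2 : ℕ) : ℝ)) -
        Real.log (Real.log ((NN u + e1 : ℕ) : ℝ)))) atTop (𝓝 0) := by
    refine squeeze_zero_norm' ?_ he
    filter_upwards [eventually_gt_atTop 0, (NN_top e1).eventually_ge_atTop (2 : ℝ),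
      (NN_top 0).eventually_ge_atTop (100 * ((e1 : ℝ) + e2 + 1)),
      (hX.add_const 1 |>.sub hY).eventually_const_lt (show -1 < (0 : ℝ) + 1 - l by linarith),
      (hY.sub hX).eventually_const_lt (show 0 < l - 0 by linarith)]
      with u hu h2 hbig _ hxy
    obtain ⟨n1, n2⟩ := NN_bounds u
    obtain ⟨n3, n4⟩ := NN_bounds (u + l)
    have he1 : (0 : ℝ) ≤ e1 := Nat.cast_nonneg _
    have he2 : (0 : ℝ) ≤ e2 := Nat.cast_nonneg _
    rw [add_zero] at hbig
    have hy0 : (0 : ℝ) < ((NN (u + l) + e2 : ℕ) : ℝ) := by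
      push_cast
      have h3 : Real.exp u ≤ Real.exp (u + l) := Real.exp_le_exp.2 (by linarith)
      linarith
    have hxy' : ((NN u + e1 : ℕ) : ℝ) ≤ ((NN (u + l) + e2 : ℕ) : ℝ) := by
      have h3 : Real.log ((NN u + e1 : ℕ) : ℝ) ≤ Real.log ((NN (u + l) + e2 : ℕ) : ℝ) := by linarith
      exact (Real.log_le_log_iff (by linarith) hy0).1 h3
    have hy3 : ((NN (u + l) + e2 : ℕ) : ℝ) ≤ 3 * ((NN u + e1 : ℕ) : ℝ) := by
      push_cast
      have h3 : Real.exp (u + l) ≤ 2.7182818286 * Real.exp u := by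
        rw [Real.exp_add, mul_comm]
        refine mul_le_mul_of_nonneg_right ?_ (Real.exp_pos u).le
        exact (Real.exp_le_exp.2 hl1).trans (by linarith [Real.exp_one_lt_d9])
      linarith
    have h4 := Pool.Agent.H376R2.MR.pntc_main C hC hP _ _ h2 hxy' hy3
    rw [Nat.floor_natCast, Nat.floor_natCast] at h4
    rw [← mul_sub, Real.norm_eq_abs, abs_mul, abs_of_pos hu]
    exact mul_le_mul_of_nonneg_left h4 hu.le
  have h5 := hdiff.add hmain
  rw [zero_add] at h5
  refine h5.congr fun u => ?_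
  ring

/-- the lower bound for a window -/
lemma sum_le_int (d : ℕ) {u v : ℝ} (hv : 1 ≤ NN v) :
    ∑ p ∈ (Ioc (NN u + (d + 1)) (NN v + d)).filter Nat.Prime, 1 / (p : ℝ) ≤
      ∫ t in Set.Ioc u v, Pd (d + 1) t := by
  set F := (Ioc (NN u) (NN v - 1)).filter (fun m => (m + (d + 1)).Prime) with hF
  have hF1 : ∀ m ∈ F, 1 ≤ m := by
    intro m hm
    rw [hF, mem_filter, mem_Ioc] at hm
    omega
  have h1 : ∫ t in Set.Ioc u v, (if NN t ∈ F then (1 : ℝ) else 0) ≤
      ∫ t in Set.Ioc u v, Pd (d + 1) t := by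
    refine integral_mono_of_nonneg ?_ (Pd_int _ _ _) ?_
    · exact Eventually.of_forall fun t => by simp only [Pi.zero_apply]; split_ifs <;> norm_num
    · refine Eventually.of_forall fun t => ?_
      simp only
      unfold Pd
      by_cases h : NN t ∈ F
      · rw [if_pos h]
        rw [hF, mem_filter] at h
        rw [if_pos h.2]
      · rw [if_neg h]
        split_ifs <;> norm_num
  refine le_trans ?_ h1
  rw [integral_ind F hF1]
  have h2 : ∑ p ∈ (Ioc (NN u + (d + 1)) (NN v + d)).filter Nat.Prime, 1 / (p : ℝ) =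
      ∑ m ∈ F, 1 / ((m + (d + 1) : ℕ) : ℝ) := by
    symm
    refine Finset.sum_bij (fun m _ => m + (d + 1)) ?_ ?_ ?_ ?_
    · intro m hm
      rw [hF, mem_filter, mem_Ioc] at hm
      rw [mem_filter, mem_Ioc]
      exact ⟨⟨by omega, by omega⟩, hm.2⟩
    · intro a _ b _ hab
      omega
    · intro p hp
      rw [mem_filter, mem_Ioc] at hp
      refine ⟨p - (d + 1), ?_, by omega⟩
      rw [hF, mem_filter, mem_Ioc]
      refine ⟨⟨by omega, by omega⟩, ?_⟩
      rw [show p - (d + 1) + (d + 1) = p by omega]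
      exact hp.2
    · intro m _
      rfl
  rw [h2]
  refine Finset.sum_le_sum fun m hm => ?_
  have hm1 := hF1 m hm
  rw [hF, mem_filter, mem_Ioc] at hm
  obtain ⟨n1, n2⟩ := NN_bounds u
  obtain ⟨n3, n4⟩ := NN_bounds v
  have hm0 : (0 : ℝ) < m := by exact_mod_cast hm1
  have h3 : u ≤ Real.log m := by
    rw [Real.le_log_iff_exp_le hm0]
    have : ((NN u + 1 : ℕ) : ℝ) ≤ m := by exact_mod_cast hm.1.1
    push_cast at this
    linarith
  have h4 : Real.log ((m + 1 : ℕ) : ℝ) ≤ v := by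
    rw [Real.log_le_iff_le_exp (by positivity)]
    have : ((m + 1 : ℕ) : ℝ) ≤ NN v := by exact_mod_cast (by omega : m + 1 ≤ NN v)
    linarith
  refine le_trans ?_ (integral_ind_ge hm1 h3 h4)
  have hd : (0 : ℝ) ≤ d := Nat.cast_nonneg d
  refine one_div_le_one_div_of_le (by linarith) ?_
  push_cast
  linarith

/-- the upper bound for a window -/
lemma int_le_sum' (d : ℕ) {u l : ℝ} (hu : Real.log 4 ≤ u) (hl : 0 < l) (hl1 : l ≤ 1) :
    ∫ t in Set.Ioc u (u + l), Pd (d + 1) t ≤
      (∑ p ∈ (Ioc (NN u + d) (NN (u + l) + (d + 1))).filter Nat.Prime, 1 / (p : ℝ)) +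
        16 * (d + 1) * Real.exp (-u) := by
  obtain ⟨n1, n2⟩ := NN_bounds u
  obtain ⟨n3, n4⟩ := NN_bounds (u + l)
  have hd : (0 : ℝ) ≤ d := Nat.cast_nonneg d
  have he0 := Real.exp_pos u
  have h4 : 4 ≤ Real.exp u := by
    rw [← Real.log_le_iff_le_exp (by norm_num)]; exact hu
  have hN : Real.exp u / 2 ≤ NN u := by linarith
  have hN0 : (0 : ℝ) < NN u := by linarith
  have hN1 : 1 ≤ NN u := by exact_mod_cast hN0
  refine (int_le_sum (d + 1) hN1).trans ?_
  set F := (Icc (NN u) (NN (u + l))).filter (fun m => (m + (d + 1)).Prime) with hF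
  have h2 : ∑ p ∈ (Ioc (NN u + d) (NN (u + l) + (d + 1))).filter Nat.Prime, 1 / (p : ℝ) =
      ∑ m ∈ F, 1 / ((m + (d + 1) : ℕ) : ℝ) := by
    symm
    refine Finset.sum_bij (fun m _ => m + (d + 1)) ?_ ?_ ?_ ?_
    · intro m hm
      rw [hF, mem_filter, mem_Icc] at hm
      rw [mem_filter, mem_Ioc]
      exact ⟨⟨by omega, by omega⟩, hm.2⟩
    · intro a _ b _ hab
      omega
    · intro p hp
      rw [mem_filter, mem_Ioc] at hp
      refine ⟨p - (d + 1), ?_, by omega⟩
      rw [hF, mem_filter, mem_Icc]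
      refine ⟨⟨by omega, by omega⟩, ?_⟩
      rw [show p - (d + 1) + (d + 1) = p by omega]
      exact hp.2
    · intro m _
      rfl
  rw [h2]
  have hterm : ∀ m ∈ F, 1 / (m : ℝ) ≤ 1 / ((m + (d + 1) : ℕ) : ℝ) +
      (d + 1) * (4 * Real.exp (-u) * Real.exp (-u)) := by
    intro m hm
    rw [hF, mem_filter, mem_Icc] at hm
    have h5 : (NN u : ℝ) ≤ m := by exact_mod_cast hm.1.1
    have hm0 : (0 : ℝ) < m := by linarith
    have h6 : 1 / (m : ℝ) - 1 / ((m + (d + 1) : ℕ) : ℝ) ≤ (d + 1) * (1 / m) * (1 / m) := by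
      push_cast
      have e : 1 / (m : ℝ) - 1 / (m + (d + 1)) = (d + 1) * (1 / m) * (1 / (m + (d + 1))) := by
        field_simp
        ring
      rw [e]
      refine mul_le_mul_of_nonneg_left ?_ (by positivity)
      exact one_div_le_one_div_of_le hm0 (by linarith)
    have h7 : 1 / (m : ℝ) ≤ 2 * Real.exp (-u) := by
      have h8 : 1 / (m : ℝ) ≤ 1 / (Real.exp u / 2) :=
        one_div_le_one_div_of_le (by positivity) (by linarith)
      rw [Real.exp_neg]
      refine h8.trans (le_of_eq ?_)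
      field_simp
    have h9 : (0 : ℝ) ≤ 1 / m := by positivity
    have h10 : (d + 1) * (1 / (m : ℝ)) * (1 / m) ≤ (d + 1) * (4 * Real.exp (-u) * Real.exp (-u)) := by
      have h11 : (1 / (m : ℝ)) * (1 / m) ≤ (2 * Real.exp (-u)) * (2 * Real.exp (-u)) :=
        mul_le_mul h7 h7 h9 (by positivity)
      have h12 := mul_le_mul_of_nonneg_left h11 (show (0 : ℝ) ≤ d + 1 by linarith)
      linarith
    linarith
  have hcard : (F.card : ℝ) ≤ 4 * Real.exp u := by
    have h5 : F.card ≤ NN (u + l) + 1 := by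
      refine (Finset.card_filter_le _ _).trans ?_
      rw [Nat.card_Icc]
      omega
    have h6 : (F.card : ℝ) ≤ NN (u + l) + 1 := by exact_mod_cast h5
    have h7 : Real.exp (u + l) ≤ 3 * Real.exp u := by
      rw [Real.exp_add, mul_comm]
      refine mul_le_mul_of_nonneg_right ?_ he0.le
      exact (Real.exp_le_exp.2 hl1).trans (by linarith [Real.exp_one_lt_d9])
    linarith
  calc ∑ m ∈ F, 1 / (m : ℝ) ≤ ∑ m ∈ F, (1 / ((m + (d + 1) : ℕ) : ℝ) +
        (d + 1) * (4 * Real.exp (-u) * Real.exp (-u))) := Finset.sum_le_sum hterm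
    _ = (∑ m ∈ F, 1 / ((m + (d + 1) : ℕ) : ℝ)) +
        F.card * ((d + 1) * (4 * Real.exp (-u) * Real.exp (-u))) := by
        rw [Finset.sum_add_distrib, Finset.sum_const, nsmul_eq_mul]
    _ ≤ (∑ m ∈ F, 1 / ((m + (d + 1) : ℕ) : ℝ)) +
        (4 * Real.exp u) * ((d + 1) * (4 * Real.exp (-u) * Real.exp (-u))) := by
        have := mul_le_mul_of_nonneg_right hcard
          (show (0 : ℝ) ≤ (d + 1) * (4 * Real.exp (-u) * Real.exp (-u)) by positivity)
        linarith
    _ = _ := by
        have e : Real.exp u * Real.exp (-u) = 1 := by rw [← Real.exp_add]; simp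
        have e2 : (4 * Real.exp u) * (((d : ℝ) + 1) * (4 * Real.exp (-u) * Real.exp (-u))) =
          16 * (d + 1) * Real.exp (-u) * (Real.exp u * Real.exp (-u)) := by ring
        rw [e2, e, mul_one]

/-- the mean in short windows -/
theorem mean_short (d : ℕ) {l : ℝ} (hl : 0 < l) (hl1 : l ≤ 1) :
    Tendsto (fun u : ℝ => u * ∫ t in Set.Ioc u (u + l), Pd (d + 1) t) atTop (𝓝 l) := by
  have hlo := pnt_sum (d + 1) d hl hl1
  have hhi : Tendsto (fun u : ℝ => u * ((∑ p ∈ (Ioc (NN u + d) (NN (u + l) + (d + 1))).filter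
      Nat.Prime, 1 / (p : ℝ)) + 16 * (d + 1) * Real.exp (-u))) atTop (𝓝 l) := by
    have h1 : Tendsto (fun u : ℝ => 16 * ((d : ℝ) + 1) * (u ^ 1 * Real.exp (-u))) atTop (𝓝 0) := by
      have := (Real.tendsto_pow_mul_exp_neg_atTop_nhds_zero 1).const_mul (16 * ((d : ℝ) + 1))
      rwa [mul_zero] at this
    have h2 := (pnt_sum d (d + 1) hl hl1).add h1
    rw [add_zero] at h2
    refine h2.congr fun u => ?_
    ring
  refine tendsto_of_tendsto_of_tendsto_of_le_of_le' hlo hhi ?_ ?_
  · filter_upwards [eventually_gt_atTop 0, eventually_ge_atTop (Real.log 4)] with u hu hu4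
    refine mul_le_mul_of_nonneg_left (sum_le_int d ?_) hu.le
    obtain ⟨n1, n2⟩ := NN_bounds (u + l)
    have h4 : 4 ≤ Real.exp (u + l) := by
      rw [← Real.log_le_iff_le_exp (by norm_num)]; linarith
    have : (0 : ℝ) < NN (u + l) := by linarith
    exact_mod_cast this
  · filter_upwards [eventually_gt_atTop 0, eventually_ge_atTop (Real.log 4)] with u hu hu4
    exact mul_le_mul_of_nonneg_left (int_le_sum' d hu4 hl hl1) hu.le

/-- the mean in all windows -/
theorem mean_all (d : ℕ) {l : ℝ} (hl : 0 < l) :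
    Tendsto (fun u : ℝ => u * ∫ t in Set.Ioc u (u + l), Pd (d + 1) t) atTop (𝓝 l) := by
  have key : ∀ {s : ℝ}, 0 < s → s ≤ 1 → ∀ n : ℕ,
      Tendsto (fun u : ℝ => u * ∫ t in Set.Ioc u (u + n * s), Pd (d + 1) t) atTop (𝓝 (n * s)) := by
    intro s hs hs1 n
    induction n with
    | zero => simp
    | succ n ih =>
      have hn : (0 : ℝ) ≤ n * s := by positivity
      have h1 := (mean_short d hs hs1).comp (tendsto_atTop_add_const_right atTop (n * s) tendsto_id)
      have h2 : Tendsto (fun u : ℝ => u / (u + n * s)) atTop (𝓝 1) := by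
        have h3 : Tendsto (fun u : ℝ => (1 + n * s * u⁻¹)⁻¹) atTop (𝓝 1) := by
          have h4 := ((tendsto_inv_atTop_zero (𝕜 := ℝ)).const_mul ((n : ℝ) * s)).const_add 1
          rw [mul_zero, add_zero] at h4
          have h5 := h4.inv₀ one_ne_zero
          rwa [inv_one] at h5
        refine h3.congr' ?_
        filter_upwards [eventually_gt_atTop 0] with u hu
        have : u + n * s ≠ 0 := by positivity
        field_simp
      have h3 := ih.add (h2.mul h1)
      rw [one_mul] at h3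
      have e1 : (n : ℝ) * s + s = ((n + 1 : ℕ) : ℝ) * s := by push_cast; ring
      rw [e1] at h3
      refine h3.congr' ?_
      filter_upwards [eventually_gt_atTop 0] with u hu
      have hne : u + n * s ≠ 0 := by positivity
      simp only [Function.comp, id]
      have e2 : Set.Ioc u (u + ((n + 1 : ℕ) : ℝ) * s) =
          Set.Ioc u (u + n * s) ∪ Set.Ioc (u + n * s) (u + n * s + s) := by
        rw [Set.Ioc_union_Ioc_eq_Ioc (by linarith) (by linarith)]
        congr 1
        push_cast; ring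
      rw [e2, setIntegral_union (Set.Ioc_disjoint_Ioc_of_le le_rfl) measurableSet_Ioc (Pd_int _ _ _)
        (Pd_int _ _ _)]
      field_simp
  set n := ⌈l⌉₊ with hn
  have hn0 : 0 < n := Nat.ceil_pos.2 hl
  have hn0' : (0 : ℝ) < n := by exact_mod_cast hn0
  have hln : l ≤ n := Nat.le_ceil _
  have h := key (s := l / n) (by positivity) (by rw [div_le_one hn0']; exact hln) n
  have e : (n : ℝ) * (l / n) = l := by field_simp
  rw [e] at h
  exact h

end Pool.Agent.V1193.PE
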