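import Pool.Agent.V1193.PE.C
import Pool.Agent.V1193.GR.C

set_option autoImplicit false

/-! Prime values: all pairs of indices for a fixed base. -/

namespace Pool.Agent.V1193.PE

open Finset MeasureTheory Filter Topology
open Pool.Agent.H305R2 (NN measurable_NN mem_Ioc_log)
open Pool.Agent.W66 (NN_bounds)
open Pool.Agent.W66X (ysh measurable_ysh)
open Pool.Agent.V1193.FM (log_step)

/-- one cell -/
lemma cellP (d : ℕ) {c : ℝ} (hc : 0 < c) : ∃ K : ℝ, 0 < K ∧ ∀ᶠ q : ℕ in atTop, ∀ C : ℝ, c * q ≤ C →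
    ∀ N : ℕ, 1 ≤ N → ∫ t in Set.Ioc (Real.log N) (Real.log ((N + 1 : ℕ) : ℝ)), Pd d (t + C) ≤
      K * (1 / (q : ℝ)) * (Real.log ((N + 1 : ℕ) : ℝ) - Real.log N) := by
  obtain ⟨K1, hK1, hS⟩ := short d
  refine ⟨2 * K1 / c, by positivity, ?_⟩
  have hlarge : ∀ᶠ q : ℕ in atTop, 10 / c < (q : ℝ) :=
    tendsto_natCast_atTop_atTop.eventually_gt_atTop _
  filter_upwards [hlarge, eventually_ge_atTop 3] with q hq4 hq3 C hC N hN
  have hq3' : (3 : ℝ) ≤ q := by exact_mod_cast hq3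
  have hq0 : (0 : ℝ) < q := by linarith
  have hN1 : (1 : ℝ) ≤ N := by exact_mod_cast hN
  have hN0 : (0 : ℝ) < N := by linarith
  obtain ⟨hs1, hs2⟩ := log_step hN
  set h := Real.log ((N + 1 : ℕ) : ℝ) - Real.log N with hh
  have hh0 : 0 < h := lt_of_lt_of_le (by positivity) hs1
  have hcq : 10 ≤ c * q := by
    rw [div_lt_iff₀ hc] at hq4
    linarith
  have hle : Real.log N ≤ Real.log ((N + 1 : ℕ) : ℝ) := by linarith
  have e1 : ∫ t in Set.Ioc (Real.log N) (Real.log ((N + 1 : ℕ) : ℝ)), Pd d (t + C) =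
      ∫ t in Set.Ioc (Real.log N + C) (Real.log N + C + h), Pd d t := by
    rw [← intervalIntegral.integral_of_le hle, ← intervalIntegral.integral_of_le (by linarith),
      intervalIntegral.integral_comp_add_right]
    congr 1
    rw [hh]; ring
  rw [e1]
  have hU : c / 2 * q ≤ Real.log N + C + Real.log h := by
    have h6 : Real.log (1 / (2 * (N : ℝ))) ≤ Real.log h := Real.log_le_log (by positivity) hs1
    rw [one_div, Real.log_inv, Real.log_mul (by norm_num) hN0.ne'] at h6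
    have := Real.log_two_lt_d9
    linarith
  have h4 := hS (Real.log N + C) h hh0 hs2 (by linarith)
  refine h4.trans ?_
  have hpos : 0 < c / 2 * q := by positivity
  calc K1 * h / (Real.log N + C + Real.log h) ≤ K1 * h / (c / 2 * q) :=
        div_le_div_of_nonneg_left (by positivity) hpos hU
    _ = _ := by field_simp

lemma val (d : ℕ) {N : ℕ} (hN : 1 ≤ N) {t : ℝ}
    (ht : t ∈ Set.Ioc (Real.log N) (Real.log ((N + 1 : ℕ) : ℝ))) :
    Pd d t = if (N + d).Prime then 1 else 0 := by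
  unfold Pd
  rw [(mem_Ioc_log hN).1 ht]

lemma Pd_int2 (d p q : ℕ) (C u v : ℝ) :
    IntegrableOn (fun t => Pd d (t + p) * Pd d (t + q + C)) (Set.Ioc u v) := by
  refine Measure.integrableOn_of_bounded (M := 1) (by simp)
    (((measurable_Pd d).comp (measurable_id.add_const (p : ℝ))).mul
      ((measurable_Pd d).comp ((measurable_id.add_const (q : ℝ)).add_const C))).aestronglyMeasurable ?_
  refine Eventually.of_forall fun t => ?_
  rw [Real.norm_of_nonneg (mul_nonneg (Pd_nonneg _ _) (Pd_nonneg _ _))]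
  exact mul_le_one₀ (Pd_le_one _ _) (Pd_nonneg _ _) (Pd_le_one _ _)

lemma Pd_int3 (d : ℕ) (C u v : ℝ) :
    IntegrableOn (fun t => Pd d t * Pd d (t + C)) (Set.Ioc u v) := by
  refine Measure.integrableOn_of_bounded (M := 1) (by simp)
    ((measurable_Pd d).mul ((measurable_Pd d).comp (measurable_id.add_const C))).aestronglyMeasurable ?_
  refine Eventually.of_forall fun t => ?_
  rw [Real.norm_of_nonneg (mul_nonneg (Pd_nonneg _ _) (Pd_nonneg _ _))]
  exact mul_le_one₀ (Pd_le_one _ _) (Pd_nonneg _ _) (Pd_le_one _ _)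

/-- two indices in one window -/
theorem pair (d : ℕ) {c : ℝ} (hc : 0 < c) :
    ∃ K : ℝ, 0 < K ∧ ∀ᶠ p : ℕ in atTop, ∀ q : ℕ, p < q →
    ∀ C : ℝ, c * q ≤ C → ∀ u v : ℝ, c * p ≤ u → u ≤ v →
    ∫ t in Set.Ioc u v, Pd d t * Pd d (t + C) ≤
      K * ((v - u) + 3) * (1 / (p : ℝ)) * (1 / (q : ℝ)) := by
  obtain ⟨K1, hK1, hev1⟩ := cellP d hc
  obtain ⟨K2, hK2, hlong⟩ := long d
  obtain ⟨P1, hP1⟩ := eventually_atTop.1 hev1
  have hlarge : ∀ᶠ q : ℕ in atTop, 10 / c < (q : ℝ) :=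
    tendsto_natCast_atTop_atTop.eventually_gt_atTop _
  refine ⟨K1 * (2 * K2 / c), by positivity, ?_⟩
  filter_upwards [hlarge, eventually_ge_atTop (max P1 3)] with p hp10 hpm q hpq C hC u v hu huv
  have hp3 : 3 ≤ p := le_trans (le_max_right _ _) hpm
  have hp3' : (3 : ℝ) ≤ p := by exact_mod_cast hp3
  have hp0 : (0 : ℝ) < p := by linarith
  have hq := hP1 q (by have := le_max_left P1 3; omega) C hC
  have hq3' : (3 : ℝ) ≤ q := by exact_mod_cast (by omega : 3 ≤ q)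
  have hlp : 0 ≤ 1 / (p : ℝ) := by positivity
  have hlq : 0 ≤ 1 / (q : ℝ) := by positivity
  have hcp : 10 ≤ c * p := by
    rw [div_lt_iff₀ hc] at hp10
    linarith
  set N0 := ⌊Real.exp u⌋₊ with hN0
  set N1 := ⌊Real.exp v⌋₊ with hN1
  have hN0p : 1 ≤ N0 := Nat.floor_pos.2 (Real.one_le_exp (by linarith))
  have hN01 : N0 ≤ N1 := Nat.floor_mono (Real.exp_le_exp.2 huv)
  have hN0r : (1 : ℝ) ≤ N0 := by exact_mod_cast hN0p
  have hN1r : (1 : ℝ) ≤ N1 := by exact_mod_cast hN0p.trans hN01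
  have hl0 : Real.log N0 ≤ u := by
    rw [Real.log_le_iff_le_exp (by linarith)]
    exact Nat.floor_le (Real.exp_pos _).le
  have hl1 : v ≤ Real.log ((N1 + 1 : ℕ) : ℝ) := by
    rw [Real.le_log_iff_exp_le (by positivity)]
    push_cast
    exact (Nat.lt_floor_add_one _).le
  have hexp1 : (2 : ℝ) ≤ Real.exp 1 := by have := Real.exp_one_gt_d9; linarith
  have hl0' : u - 1 ≤ Real.log N0 := by
    rw [Real.le_log_iff_exp_le (by linarith), Real.exp_sub, div_le_iff₀ (Real.exp_pos 1)]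
    have := Nat.lt_floor_add_one (Real.exp u)
    rw [← hN0] at this
    nlinarith
  have hl1' : Real.log ((N1 + 1 : ℕ) : ℝ) ≤ v + 1 := by
    rw [Real.log_le_iff_le_exp (by positivity), Real.exp_add]
    push_cast
    have : (N1 : ℝ) ≤ Real.exp v := Nat.floor_le (Real.exp_pos _).le
    nlinarith [Real.exp_pos v, Real.one_le_exp (show 0 ≤ v by linarith)]
  have hbig : ∫ t in Set.Ioc u v, Pd d t * Pd d (t + C) ≤
      ∫ t in Set.Ioc (Real.log N0) (Real.log ((N1 + 1 : ℕ) : ℝ)), Pd d t * Pd d (t + C) := by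
    refine setIntegral_mono_set (Pd_int3 d C _ _) ?_ ?_
    · exact Eventually.of_forall fun x => mul_nonneg (Pd_nonneg _ _) (Pd_nonneg _ _)
    · exact (Set.Ioc_subset_Ioc hl0 hl1).eventuallyLE
  have hmon : ∀ N : ℕ, N0 ≤ N → Real.log (N : ℝ) ≤ Real.log ((N + 1 : ℕ) : ℝ) := by
    intro N hN
    have : (N0 : ℝ) ≤ N := by exact_mod_cast hN
    exact Real.log_le_log (by linarith) (by push_cast; linarith)
  have hiiG : ∀ N ∈ Set.Ico N0 (N1 + 1), IntervalIntegrable (fun t => Pd d t * Pd d (t + C)) volume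
      (Real.log (N : ℝ)) (Real.log ((N + 1 : ℕ) : ℝ)) := by
    intro N hN
    rw [intervalIntegrable_iff_integrableOn_Ioc_of_le (hmon N hN.1)]
    exact Pd_int3 d C _ _
  have hiiF : ∀ N ∈ Set.Ico N0 (N1 + 1), IntervalIntegrable (fun t => Pd d t) volume
      (Real.log (N : ℝ)) (Real.log ((N + 1 : ℕ) : ℝ)) := by
    intro N hN
    rw [intervalIntegrable_iff_integrableOn_Ioc_of_le (hmon N hN.1)]
    exact Pd_int d _ _
  have hsumG := intervalIntegral.sum_integral_adjacent_intervals_Ico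
    (a := fun N : ℕ => Real.log (N : ℝ)) (m := N0) (n := N1 + 1) (by omega) hiiG
  have hsumF := intervalIntegral.sum_integral_adjacent_intervals_Ico
    (a := fun N : ℕ => Real.log (N : ℝ)) (m := N0) (n := N1 + 1) (by omega) hiiF
  have h01 : Real.log (N0 : ℝ) ≤ Real.log ((N1 + 1 : ℕ) : ℝ) := by linarith
  rw [intervalIntegral.integral_of_le h01] at hsumG hsumF
  have hcell : ∀ N ∈ Finset.Ico N0 (N1 + 1),
      ∫ t in (Real.log (N : ℝ))..(Real.log ((N + 1 : ℕ) : ℝ)), Pd d t * Pd d (t + C) ≤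
      K1 * (1 / (q : ℝ)) * ∫ t in (Real.log (N : ℝ))..(Real.log ((N + 1 : ℕ) : ℝ)), Pd d t := by
    intro N hN
    rw [Finset.mem_Ico] at hN
    have hNp : 1 ≤ N := hN0p.trans hN.1
    rw [intervalIntegral.integral_of_le (hmon N hN.1), intervalIntegral.integral_of_le (hmon N hN.1)]
    set s : ℝ := if (N + d).Prime then 1 else 0 with hs
    have hs0 : 0 ≤ s := by rw [hs]; split_ifs <;> norm_num
    have e3 : ∫ t in Set.Ioc (Real.log (N : ℝ)) (Real.log ((N + 1 : ℕ) : ℝ)),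
        Pd d t * Pd d (t + C) = s * ∫ t in Set.Ioc (Real.log (N : ℝ)) (Real.log ((N + 1 : ℕ) : ℝ)),
        Pd d (t + C) := by
      rw [← integral_const_mul]
      exact setIntegral_congr_fun measurableSet_Ioc fun t ht => by
        simp only [val d hNp ht, hs]
    have e4 : ∫ t in Set.Ioc (Real.log (N : ℝ)) (Real.log ((N + 1 : ℕ) : ℝ)), Pd d t =
        s * (Real.log ((N + 1 : ℕ) : ℝ) - Real.log N) := by
      have : ∫ t in Set.Ioc (Real.log (N : ℝ)) (Real.log ((N + 1 : ℕ) : ℝ)), Pd d t =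
          ∫ t in Set.Ioc (Real.log (N : ℝ)) (Real.log ((N + 1 : ℕ) : ℝ)), s :=
        setIntegral_congr_fun measurableSet_Ioc fun t ht => val d hNp ht
      rw [this, setIntegral_const, smul_eq_mul, Real.volume_real_Ioc_of_le (hmon N hN.1)]
      ring
    rw [e3, e4]
    calc s * ∫ t in Set.Ioc (Real.log (N : ℝ)) (Real.log ((N + 1 : ℕ) : ℝ)), Pd d (t + C) ≤
        s * (K1 * (1 / (q : ℝ)) * (Real.log ((N + 1 : ℕ) : ℝ) - Real.log N)) :=
          mul_le_mul_of_nonneg_left (hq N hNp) hs0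
      _ = _ := by ring
  have hall : ∫ t in Set.Ioc (Real.log N0) (Real.log ((N1 + 1 : ℕ) : ℝ)), Pd d t * Pd d (t + C) ≤
      K1 * (1 / (q : ℝ)) * ∫ t in Set.Ioc (Real.log N0) (Real.log ((N1 + 1 : ℕ) : ℝ)), Pd d t := by
    rw [← hsumG, ← hsumF, Finset.mul_sum]
    exact Finset.sum_le_sum hcell
  have hone := hlong (Real.log N0) (Real.log ((N1 + 1 : ℕ) : ℝ)) (by linarith) h01
  have hone' : ∫ t in Set.Ioc (Real.log N0) (Real.log ((N1 + 1 : ℕ) : ℝ)), Pd d t ≤
      (2 * K2 / c) * ((v - u) + 3) * (1 / (p : ℝ)) := by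
    refine hone.trans ?_
    have h1 : c * p / 2 ≤ Real.log N0 := by linarith
    have h2 : K2 * ((Real.log ((N1 + 1 : ℕ) : ℝ) - Real.log N0) + 1) ≤ K2 * ((v - u) + 3) :=
      mul_le_mul_of_nonneg_left (by linarith) hK2.le
    calc _ ≤ K2 * ((v - u) + 3) / (c * p / 2) :=
          div_le_div₀ (mul_nonneg hK2.le (by linarith)) h2 (by positivity) h1
      _ = _ := by field_simp
  calc _ ≤ K1 * (1 / (q : ℝ)) * ((2 * K2 / c) * ((v - u) + 3) * (1 / (p : ℝ))) :=
        (hbig.trans hall).trans (mul_le_mul_of_nonneg_left hone' (mul_nonneg hK1.le hlq))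
    _ = _ := by ring

/-- far pairs for one base -/
lemma far_pair (d : ℕ) {x : ℝ} (hx : 0 < x) {u v : ℝ} (huv : u < v) :
    ∃ K : ℝ, 0 < K ∧ ∃ P : ℕ, ∀ p ≥ P, ∀ q : ℕ, 2 * p < q →
      ∫ t in Set.Ioc u v, Pd d (p * x + t) * Pd d (q * x + t) ≤
        K * ((1 / (p : ℝ)) * (1 / (q : ℝ))) := by
  obtain ⟨K1, hK1, h1⟩ := pair d (c := x / 4) (by positivity)
  have hs : ∀ᶠ p : ℕ in atTop, (2 + |u|) / (x / 4) < p :=
    tendsto_natCast_atTop_atTop.eventually_gt_atTop _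
  obtain ⟨P, hP⟩ := eventually_atTop.1 (h1.and hs)
  refine ⟨K1 * ((v - u) + 3), mul_pos hK1 (by linarith), max P 3, fun p hp q hpq => ?_⟩
  obtain ⟨h2, h3⟩ := hP p ((le_max_left _ _).trans hp)
  have hp3 : (3 : ℝ) ≤ p := by exact_mod_cast (le_max_right _ _).trans hp
  rw [div_lt_iff₀ (by positivity)] at h3
  have hq : 2 * (p : ℝ) ≤ q := by exact_mod_cast hpq.le
  have hxp : 0 < (p : ℝ) * x := by positivity
  have c1 := neg_abs_le u
  have c3 := abs_nonneg u
  have hqx : 2 * ((p : ℝ) * x) ≤ q * x := by nlinarith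
  have e : ∫ t in Set.Ioc u v, Pd d (p * x + t) * Pd d (q * x + t) =
      ∫ t in Set.Ioc (p * x + u) (p * x + v), Pd d t * Pd d (t + ((q : ℝ) * x - p * x)) := by
    rw [← Pool.Agent.V1193.BP.shift_int
      (fun t => Pd d t * Pd d (t + ((q : ℝ) * x - p * x))) huv.le]
    refine integral_congr_ae (Eventually.of_forall fun t => ?_)
    simp only
    congr 2
    ring
  rw [e]
  have h5 := h2 q (by omega) ((q : ℝ) * x - p * x) (by nlinarith) (p * x + u)
    (p * x + v) (by linarith) (by linarith)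
  refine h5.trans (le_of_eq ?_)
  ring

/-- the values of the perturbed phase -/
lemma pf_ysh {α : ℝ} (hα : 0 < α) (d p : ℕ) (t : ℝ) :
    pf (ysh α (fun _ => (d : ℝ)) p t) = Pd d (p * Real.log α + t) := by
  have h0 : 0 < Real.exp t * α ^ p := mul_pos (Real.exp_pos t) (pow_pos hα p)
  have hd : (0 : ℝ) ≤ d := Nat.cast_nonneg d
  have e1 : Real.exp (p * Real.log α + t) = Real.exp t * α ^ p := by
    rw [Real.exp_add, Real.exp_nat_mul, Real.exp_log hα]; ring
  have e : NN (ysh α (fun _ => (d : ℝ)) p t) = NN (p * Real.log α + t) + d := by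
    unfold NN ysh
    rw [Real.exp_log (by linarith), e1, Nat.ceil_add_natCast h0.le]
    have : 0 < ⌈Real.exp t * α ^ p⌉₊ := Nat.ceil_pos.2 h0
    omega
  unfold pf Pd
  rw [e]

/-- all pairs for one base -/
theorem pairs {α : ℝ} (hα : 1 < α)
    (hdio : ∀ h a b : ℕ, 1 ≤ h → 1 ≤ a → 1 ≤ b → 1 ≤ |(a : ℝ) - b * α ^ h| * (1 ^ h * (a + b)))
    (d : ℕ) {u v : ℝ} (huv : u < v) :
    ∃ K : ℝ, 0 < K ∧ ∃ N : ℕ, ∀ p ≥ N, ∀ q : ℕ, p < q →
      ∫ t in Set.Ioc u v, Pd d (p * Real.log α + t) * Pd d (q * Real.log α + t) ≤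
        K * ((1 / (p : ℝ)) * (1 / (q : ℝ))) := by
  have hα0 : 0 < α := by linarith
  have h1 := Pool.Agent.V1193.GR.windows
    (F := fun p q t => pf (ysh α (fun _ => (d : ℝ)) p t) * pf (ysh α (fun _ => (d : ℝ)) q t))
    (fun p q t => mul_nonneg (pf_nonneg _) (pf_nonneg _)) (fun p q u v => by
      refine Measure.integrableOn_of_bounded (M := 1) (by simp)
        ((measurable_pf.comp (measurable_ysh _ _ _)).mul
          (measurable_pf.comp (measurable_ysh _ _ _))).aestronglyMeasurable ?_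
      refine Eventually.of_forall fun t => ?_
      rw [Real.norm_of_nonneg (mul_nonneg (pf_nonneg _) (pf_nonneg _))]
      exact mul_le_one₀ (pf_le_one _) (pf_nonneg _) (pf_le_one _))
    (D := fun p q => p < q ∧ q ≤ 2 * p) (M := fun p _ => (1 / (p : ℝ)) ^ 2)
    (fun p q => sq_nonneg _) (fun b0 => by
      obtain ⟨K, hK, N, h⟩ := near_prime (κ := 1) (C := d) (A := 1) hα zero_le_one hα
        (g := fun _ => (d : ℝ)) (fun p => by simp) le_rfl hα hdio b0
      exact ⟨K, hK, N, fun p hp q hD => h p hp q hD.1 hD.2⟩) u v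
  obtain ⟨K1, hK1, N1, h1⟩ := h1
  obtain ⟨K2, hK2, N2, h2⟩ := far_pair d (Real.log_pos hα) huv
  refine ⟨2 * K1 + K2, by positivity, max (max N1 N2) 3, fun p hp q hpq => ?_⟩
  have hp1 : N1 ≤ p := ((le_max_left _ _).trans (le_max_left _ _)).trans hp
  have hp2 : N2 ≤ p := ((le_max_right _ _).trans (le_max_left _ _)).trans hp
  have hp3 : 3 ≤ p := (le_max_right _ _).trans hp
  have hp3' : (3 : ℝ) ≤ p := by exact_mod_cast hp3
  have hpq' : (p : ℝ) < q := by exact_mod_cast hpq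
  have hp0 : (0 : ℝ) < p := by linarith
  have hq0 : (0 : ℝ) < q := by linarith
  have h5 : 0 ≤ (1 / (p : ℝ)) * (1 / (q : ℝ)) := by positivity
  rcases le_or_gt q (2 * p) with h3 | h3
  · have h6 := h1 p hp1 q ⟨hpq, h3⟩
    simp only [pf_ysh hα0] at h6
    refine h6.trans ?_
    have h7 : (q : ℝ) ≤ 2 * p := by exact_mod_cast h3
    have h8 : 1 / (p : ℝ) ≤ 2 * (1 / q) := by
      rw [mul_one_div, div_le_div_iff₀ hp0 hq0]
      linarith
    calc K1 * (1 / (p : ℝ)) ^ 2 = K1 * ((1 / (p : ℝ)) * (1 / p)) := by ring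
      _ ≤ K1 * ((1 / (p : ℝ)) * (2 * (1 / q))) := by gcongr
      _ ≤ _ := by nlinarith
  · refine (h2 p hp2 q h3).trans ?_
    nlinarith

end Pool.Agent.V1193.PE
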