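import Pool.Agent.V1193.PE.D
import Pool.Agent.V1193.GR.D

set_option autoImplicit false

/-! Prime values: laws of the last index in a thin set, and sparse sets of pairs. -/

namespace Pool.Agent.V1193.PE

open Finset Filter Topology MeasureTheory
open Pool.Agent.H305R2 (NN)
open Pool.Agent.V1193.LE (T T_nonneg summable_T T_pos T_tendsto average T_anti Last last_eq last_meas
  last_law mean_eq tail_eq fin two_le)
open Pool.Agent.V1193.GR (real01 real01_le empty_of full_of real_win)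
open Pool.Agent.V1193.BP (shift_int)

/-- the weights -/
noncomputable def w1 (S : Set ℕ) : ℕ → ℝ := S.indicator fun n => 1 / (n : ℝ)

lemma w1_nonneg (S : Set ℕ) (p : ℕ) : 0 ≤ w1 S p :=
  Set.indicator_nonneg (fun _ _ => by positivity) _

lemma w1_mem {S : Set ℕ} {p : ℕ} (hp : p ∈ S) : w1 S p = 1 / p := Set.indicator_of_mem hp _

lemma w1_not {S : Set ℕ} {p : ℕ} (hp : p ∉ S) : w1 S p = 0 := Set.indicator_of_notMem hp _

lemma w1_pos {S : Set ℕ} {p : ℕ} (hp : p ∈ S) (h1 : 1 ≤ p) : 0 < w1 S p := by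
  have h1' : (0 : ℝ) < p := by exact_mod_cast h1
  rw [w1_mem hp]
  positivity

/-- The laws for the indices `E y ⊆ S`, `y` in the window, with the constant `L`. -/
def Law (S : Set ℕ) (E : ℝ → Set ℕ) (u v L : ℝ) : Prop :=
  Tendsto (fun n : ℕ => volume.real {y ∈ Set.Ioc u v | n ∈ E y} / (1 / (n : ℝ)))
    (atTop ⊓ 𝓟 S) (𝓝 L) ∧
  Tendsto (fun n : ℕ => volume.real {y ∈ Set.Ioc u v | IsGreatest (E y) n} / (1 / (n : ℝ)))
    (atTop ⊓ 𝓟 S) (𝓝 L) ∧
  Tendsto (fun n : ℕ => volume.real {y ∈ Set.Ioc u v | ∃ m ∈ E y, n ≤ m} / T (w1 S) n)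
    atTop (𝓝 L) ∧
  Tendsto (fun n : ℕ => (∫ y in Set.Ioc u v, ((E y ∩ Set.Ici n).ncard : ℝ)) / T (w1 S) n)
    atTop (𝓝 L) ∧
  ∃ K : ℝ, ∀ᶠ n : ℕ in atTop,
    volume.real {y ∈ Set.Ioc u v | ∃ p ∈ E y, ∃ q ∈ E y, n ≤ p ∧ p < q} ≤ K * T (w1 S) n ^ 2

/-- the laws, abstract form -/
theorem afinal {Ω : Type*} [MeasurableSpace Ω] {μ : Measure Ω} [IsFiniteMeasure μ]
    {E : ℕ → Set Ω} {S : Set ℕ} {L K : ℝ} {N : ℕ} (hE : ∀ p, MeasurableSet (E p))
    (hinf : S.Infinite) (hs : Summable (w1 S))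
    (hq : ∀ ε > 0, ∀ᶠ p : ℕ in atTop, |μ.real (E p) - L * w1 S p| ≤ ε * w1 S p) (hK : 0 ≤ K)
    (hpair : ∀ p ≥ N, ∀ q > p, μ.real (E p ∩ E q) ≤ K * w1 S p * w1 S q) :
    Tendsto (fun p => μ.real (E p) / w1 S p) (atTop ⊓ 𝓟 S) (𝓝 L) ∧
    Tendsto (fun p => μ.real (Last E p) / w1 S p) (atTop ⊓ 𝓟 S) (𝓝 L) ∧
    Tendsto (fun n => μ.real {z | ∃ p, n ≤ p ∧ z ∈ E p} / T (w1 S) n) atTop (𝓝 L) ∧
    Tendsto (fun n => (∫ z, (({p | n ≤ p ∧ z ∈ E p}).ncard : ℝ) ∂μ) / T (w1 S) n) atTop (𝓝 L) ∧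
    ∃ K : ℝ, ∀ᶠ n : ℕ in atTop,
      μ.real {z | ∃ p q, n ≤ p ∧ p < q ∧ z ∈ E p ∧ z ∈ E q} ≤ K * T (w1 S) n ^ 2 := by
  have hw := w1_nonneg S
  have hinf' : ∀ n, ∃ p ≥ n, 0 < w1 S p := by
    intro n
    obtain ⟨p, hp, h⟩ := hinf.exists_gt (max n 2)
    exact ⟨p, ((le_max_left _ _).trans h.le), w1_pos hp (by
      have := (le_max_right n 2).trans h.le
      omega)⟩
  have hsum : Summable fun p => μ.real (E p) := by
    refine Summable.of_norm_bounded_eventually_nat (g := fun p => (1 + |L|) * w1 S p)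
      (hs.mul_left _) ?_
    filter_upwards [hq 1 one_pos] with p hp
    rw [Real.norm_of_nonneg measureReal_nonneg]
    have h1 := (abs_le.1 hp).2
    have h2 := w1_nonneg S p
    have h3 : L * w1 S p ≤ |L| * w1 S p := mul_le_mul_of_nonneg_right (le_abs_self L) h2
    nlinarith
  have hlast := last_law hE hw hs hK hq hpair
  have hsub : ∀ m, Last E m ⊆ E m := fun m y hy => hy.1
  have hsum' : Summable fun m => μ.real (Last E m) :=
    Summable.of_nonneg_of_le (fun m => measureReal_nonneg) (fun m => measureReal_mono (hsub m)) hsum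
  have hratio : ∀ {a : ℕ → ℝ}, (∀ ε > 0, ∀ᶠ p : ℕ in atTop, |a p - L * w1 S p| ≤ ε * w1 S p) →
      Tendsto (fun p => a p / w1 S p) (atTop ⊓ 𝓟 S) (𝓝 L) := by
    intro a h
    rw [Metric.tendsto_nhds]
    intro ε hε
    rw [eventually_inf_principal]
    filter_upwards [h (ε / 2) (by positivity), eventually_ge_atTop 2] with p h1 h2 hp
    have h3 := w1_pos hp (by omega)
    rw [Real.dist_eq]
    have e : a p / w1 S p - L = (a p - L * w1 S p) / w1 S p := by
      field_simp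
    rw [e, abs_div, abs_of_pos h3, div_lt_iff₀ h3]
    nlinarith
  refine ⟨hratio hq, hratio hlast, ?_, ?_, K, ?_⟩
  · refine (average hw hs hsum' hinf' hlast).congr fun n => ?_
    rw [tail_eq hE hsum]
  · refine (average hw hs hsum hinf' hq).congr fun n => ?_
    rw [mean_eq hE hsum]
  · filter_upwards [eventually_ge_atTop N] with n hn
    exact two_le hw hs hK hpair hn

theorem law_of {S : Set ℕ} {F : ℕ → Set ℝ} {E : ℝ → Set ℕ} {u v L K : ℝ} {N : ℕ}
    (hmem : ∀ y n, y ∈ F n ↔ n ∈ E y) (hE : ∀ p, MeasurableSet (F p))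
    (hinf : S.Infinite) (hs : Summable (w1 S))
    (hq : ∀ ε > 0, ∀ᶠ p : ℕ in atTop,
      |(volume.restrict (Set.Ioc u v)).real (F p) - L * w1 S p| ≤ ε * w1 S p) (hK : 0 ≤ K)
    (hpair : ∀ p ≥ N, ∀ q > p, (volume.restrict (Set.Ioc u v)).real (F p ∩ F q) ≤
      K * w1 S p * w1 S q) : Law S E u v L := by
  obtain ⟨h1, h2, h3, h4, K, h5⟩ := afinal hE hinf hs hq hK hpair
  refine ⟨?_, ?_, ?_, ?_, K, ?_⟩
  · refine h1.congr' ?_
    rw [EventuallyEq, eventually_inf_principal]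
    refine Eventually.of_forall fun n hn => ?_
    rw [w1_mem hn, real_win]
    congr 2
    ext z
    exact and_congr_right fun _ => hmem z n
  · refine h2.congr' ?_
    rw [EventuallyEq, eventually_inf_principal]
    refine Eventually.of_forall fun n hn => ?_
    rw [w1_mem hn, real_win]
    congr 2
    ext z
    refine and_congr_right fun _ => ?_
    have : {k | z ∈ F k} = E z := by ext k; exact hmem z k
    show IsGreatest {k | z ∈ F k} n ↔ _
    rw [this]
  · refine h3.congr fun n => ?_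
    rw [real_win]
    congr 2
    ext z
    refine and_congr_right fun _ => ?_
    constructor
    · rintro ⟨m, h6, h7⟩
      exact ⟨m, (hmem z m).1 h7, h6⟩
    · rintro ⟨m, h7, h6⟩
      exact ⟨m, h6, (hmem z m).2 h7⟩
  · refine h4.congr fun n => ?_
    congr 1
    refine integral_congr_ae (Eventually.of_forall fun z => ?_)
    simp only
    congr 2
    ext m
    constructor
    · rintro ⟨h6, h7⟩
      exact ⟨(hmem z m).1 h7, h6⟩
    · rintro ⟨h7, h6⟩
      exact ⟨h6, (hmem z m).2 h7⟩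
  · filter_upwards [h5] with n hn
    rw [real_win] at hn
    refine le_trans (le_of_eq ?_) hn
    congr 1
    ext z
    refine and_congr_right fun _ => ?_
    constructor
    · rintro ⟨p, h6, q, h7, h8, h9⟩
      exact ⟨p, q, h8, h9, (hmem z p).2 h6, (hmem z q).2 h7⟩
    · rintro ⟨p, q, h8, h9, h6, h7⟩
      exact ⟨p, (hmem z p).1 h6, q, (hmem z q).1 h7, h8, h9⟩

/-- the number next to `β * α ^ n` -/
noncomputable def Nn (c : ℕ) (α β : ℝ) (n : ℕ) : ℕ := ⌈β * α ^ n⌉₊ + c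

/-- the indices of prime values -/
def NP (c : ℕ) (α β : ℝ) : Set ℕ := {n | (Nn c α β n).Prime}

/-- the events -/
def PEv (S : Set ℕ) (c : ℕ) (x : ℝ) (p : ℕ) : Set ℝ := {t | p ∈ S ∧ Pd (c + 1) (p * x + t) = 1}

lemma meas_PEv (S : Set ℕ) (c : ℕ) (x : ℝ) (p : ℕ) : MeasurableSet (PEv S c x p) := by
  unfold PEv
  by_cases hp : p ∈ S
  · rw [full_of hp]
    exact ((measurable_Pd (c + 1)).comp (by fun_prop : Measurable fun t : ℝ => (p : ℝ) * x + t))
      (measurableSet_singleton 1)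
  · rw [empty_of hp]; exact MeasurableSet.empty

lemma mem_PEv {α : ℝ} (hα : 0 < α) (S : Set ℕ) (c : ℕ) (y : ℝ) (n : ℕ) :
    y ∈ PEv S c (Real.log α) n ↔ n ∈ S ∩ NP c α (Real.exp y) := by
  have e1 : Real.exp (n * Real.log α + y) = Real.exp y * α ^ n := by
    rw [Real.exp_add, Real.exp_nat_mul, Real.exp_log hα]; ring
  have h0 : 0 < Real.exp y * α ^ n := mul_pos (Real.exp_pos y) (pow_pos hα n)
  have e : NN (n * Real.log α + y) + (c + 1) = Nn c α (Real.exp y) n := by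
    unfold NN Nn
    rw [e1]
    have : 0 < ⌈Real.exp y * α ^ n⌉₊ := Nat.ceil_pos.2 h0
    omega
  unfold PEv NP
  refine and_congr_right fun _ => ?_
  show Pd (c + 1) (n * Real.log α + y) = 1 ↔ (Nn c α (Real.exp y) n).Prime
  unfold Pd
  rw [e]
  by_cases h : (Nn c α (Real.exp y) n).Prime
  · rw [if_pos h]
    simp [h]
  · rw [if_neg h]
    simp [h]

section laws

variable {x u v : ℝ}

lemma mass (c : ℕ) (hx : 0 < x) (huv : u < v) :
    Tendsto (fun p : ℕ => p * ∫ t in Set.Ioc u v, Pd (c + 1) (p * x + t)) atTop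
      (𝓝 ((v - u) / x)) := by
  have h1 := mean_all c (sub_pos.2 huv)
  have h2 : Tendsto (fun p : ℕ => (p : ℝ) * x + u) atTop atTop :=
    tendsto_atTop_add_const_right _ _ (tendsto_natCast_atTop_atTop.atTop_mul_const hx)
  have h3 := h1.comp h2
  have h4 : Tendsto (fun p : ℕ => (p : ℝ) / (p * x + u)) atTop (𝓝 (1 / x)) := by
    have h5 : Tendsto (fun p : ℕ => (x + u * ((p : ℝ))⁻¹)⁻¹) atTop (𝓝 (1 / x)) := by
      have h6 := ((tendsto_inv_atTop_nhds_zero_nat (𝕜 := ℝ)).const_mul u).const_add x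
      rw [mul_zero, add_zero] at h6
      have h7 := h6.inv₀ hx.ne'
      rwa [← one_div] at h7
    refine h5.congr' ?_
    filter_upwards [eventually_gt_atTop 0, h2.eventually_gt_atTop 0] with p hp hp2
    have hp' : (0 : ℝ) < p := by exact_mod_cast hp
    have hne : (p : ℝ) * x + u ≠ 0 := hp2.ne'
    have e : x + u * ((p : ℝ))⁻¹ = (p * x + u) / p := by field_simp
    rw [e, inv_div]
  have h8 := h4.mul h3
  have e : 1 / x * (v - u) = (v - u) / x := by ring
  rw [e] at h8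
  refine h8.congr' ?_
  filter_upwards [h2.eventually_gt_atTop 0] with p hp
  have hne : (p : ℝ) * x + u ≠ 0 := hp.ne'
  simp only [Function.comp]
  rw [shift_int (Pd (c + 1)) huv.le, show (p : ℝ) * x + u + (v - u) = p * x + v by ring]
  field_simp

lemma mass_E (c : ℕ) (hx : 0 < x) (huv : u < v) (S : Set ℕ) : ∀ ε > 0, ∀ᶠ p : ℕ in atTop,
    |(volume.restrict (Set.Ioc u v)).real (PEv S c x p) - ((v - u) / x) * w1 S p| ≤
      ε * w1 S p := by
  intro ε hε
  filter_upwards [(Metric.tendsto_nhds.1 (mass c hx huv)) ε hε, eventually_ge_atTop 1] with p hp hp1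
  by_cases hS : p ∈ S
  · have hp0 : (0 : ℝ) < p := by exact_mod_cast hp1
    have e1 : (volume.restrict (Set.Ioc u v)).real (PEv S c x p) =
        ∫ t in Set.Ioc u v, Pd (c + 1) (p * x + t) := by
      unfold PEv
      rw [full_of hS, real01 (a := fun t => Pd (c + 1) (p * x + t)) ((measurable_Pd (c + 1)).comp
        (by fun_prop : Measurable fun t : ℝ => (p : ℝ) * x + t)) (fun t => Pd01 _ _)]
    rw [e1, w1_mem hS]
    rw [Real.dist_eq] at hp
    set J := ∫ t in Set.Ioc u v, Pd (c + 1) (p * x + t)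
    have e2 : J - (v - u) / x * (1 / (p : ℝ)) = (p * J - (v - u) / x) * (1 / p) := by
      field_simp
    rw [e2, abs_mul, abs_of_pos (show (0 : ℝ) < 1 / p by positivity)]
    exact mul_le_mul_of_nonneg_right hp.le (by positivity)
  · unfold PEv
    rw [empty_of hS, w1_not hS]
    simp

end laws

section unit

variable {α : ℝ} {u v : ℝ}

/-- the Diophantine condition -/
def Dio (α : ℝ) : Prop :=
  ∀ h a b : ℕ, 1 ≤ h → 1 ≤ a → 1 ≤ b → 1 ≤ |(a : ℝ) - b * α ^ h| * (1 ^ h * (a + b))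

theorem pairs_E (hα : 1 < α) (hdio : Dio α) (c : ℕ) (huv : u < v) (S : Set ℕ) :
    ∃ K : ℝ, 0 ≤ K ∧ ∃ N : ℕ, ∀ p ≥ N, ∀ q : ℕ, p < q →
      (volume.restrict (Set.Ioc u v)).real (PEv S c (Real.log α) p ∩ PEv S c (Real.log α) q) ≤
        K * w1 S p * w1 S q := by
  obtain ⟨K, hK, N, h⟩ := pairs hα hdio (c + 1) huv
  refine ⟨K, hK.le, N, fun p hp q hq => ?_⟩
  by_cases h1 : p ∈ S
  · by_cases h2 : q ∈ S
    · rw [w1_mem h1, w1_mem h2, mul_assoc]
      refine (real01_le (a := fun t => Pd (c + 1) (p * Real.log α + t))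
        (b := fun t => Pd (c + 1) (q * Real.log α + t)) ((measurable_Pd _).comp (by fun_prop))
        ((measurable_Pd _).comp (by fun_prop)) (fun _ => Pd01 _ _) (fun _ => Pd01 _ _) u v
        (fun _ h => h.2) (fun _ h => h.2)).trans (h p hp q hq)
    · have : PEv S c (Real.log α) q = ∅ := empty_of h2
      rw [this, w1_not h2]
      simp
  · have : PEv S c (Real.log α) p = ∅ := empty_of h1
    rw [this, w1_not h1]
    simp

/-- **The laws.** -/
theorem law (hα : 1 < α) (hdio : Dio α) (c : ℕ) (huv : u < v) {S : Set ℕ}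
    (hinf : S.Infinite) (hsum : Summable (w1 S)) :
    Law S (fun y => S ∩ NP c α (Real.exp y)) u v ((v - u) / Real.log α) := by
  obtain ⟨K, hK, N, h⟩ := pairs_E hα hdio c huv S
  exact law_of (fun y n => mem_PEv (by linarith) S c y n) (meas_PEv S c _) hinf hsum
    (mass_E c (Real.log_pos hα) huv S) hK h

/-- one index, all indices -/
lemma one_bound (hα : 1 < α) (c : ℕ) (huv : u < v) : ∃ K : ℝ, 0 ≤ K ∧ ∀ p : ℕ, 1 ≤ p →
    (volume.restrict (Set.Ioc u v)).real (PEv Set.univ c (Real.log α) p) ≤ K * (1 / (p : ℝ)) := by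
  obtain ⟨N, hN⟩ := eventually_atTop.1 (mass_E c (Real.log_pos hα) huv Set.univ 1 one_pos)
  have hL : 0 ≤ (v - u) / Real.log α := div_nonneg (by linarith) (Real.log_pos hα).le
  refine ⟨(v - u) / Real.log α + 1 + (v - u) * N, by
    have : 0 ≤ (v - u) * N := mul_nonneg (by linarith) (Nat.cast_nonneg N)
    linarith, fun p hp => ?_⟩
  have hp0 : (0 : ℝ) < p := by exact_mod_cast hp
  have hN0 : (0 : ℝ) ≤ N := Nat.cast_nonneg N
  have h0 : 0 ≤ (v - u) * N := mul_nonneg (by linarith) hN0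
  rcases le_or_gt N p with h1 | h1
  · have h2 := (abs_le.1 (hN p h1)).2
    rw [w1_mem (Set.mem_univ p)] at h2
    have h3 : 0 ≤ (v - u) * N * (1 / (p : ℝ)) := by positivity
    linarith
  · have h2 : (volume.restrict (Set.Ioc u v)).real (PEv Set.univ c (Real.log α) p) ≤ v - u := by
      refine (measureReal_mono (Set.subset_univ _)).trans (le_of_eq ?_)
      rw [measureReal_restrict_apply_univ, Real.volume_real_Ioc_of_le huv.le]
    refine h2.trans ?_
    have h3 : (p : ℝ) ≤ N := by exact_mod_cast h1.le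
    have h4 : v - u ≤ (v - u) * N * (1 / (p : ℝ)) := by
      rw [mul_one_div, le_div_iff₀ hp0]
      exact mul_le_mul_of_nonneg_left h3 (by linarith)
    have h5 : 0 ≤ ((v - u) / Real.log α + 1) * (1 / (p : ℝ)) := by positivity
    linarith

/-- two indices, all indices -/
lemma two_bound (hα : 1 < α) (hdio : Dio α) (c : ℕ) (huv : u < v) : ∃ K : ℝ, 0 ≤ K ∧
    ∀ p q : ℕ, 1 ≤ p → p < q →
    (volume.restrict (Set.Ioc u v)).real (PEv Set.univ c (Real.log α) p ∩
      PEv Set.univ c (Real.log α) q) ≤ K * (1 / ((p : ℝ) * q)) := by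
  obtain ⟨K1, hK1, h1⟩ := one_bound hα c huv
  obtain ⟨K2, hK2, N, h2⟩ := pairs_E hα hdio c huv Set.univ
  refine ⟨K2 + K1 * N, by positivity, fun p q hp hpq => ?_⟩
  have hp0 : (0 : ℝ) < p := by exact_mod_cast hp
  have hq0 : (0 : ℝ) < q := by exact_mod_cast (by omega : 0 < q)
  have hN0 : (0 : ℝ) ≤ N := Nat.cast_nonneg N
  rcases le_or_gt N p with h3 | h3
  · have h4 := h2 p h3 q hpq
    rw [w1_mem (Set.mem_univ p), w1_mem (Set.mem_univ q)] at h4
    have h5 : 0 ≤ K1 * N * (1 / ((p : ℝ) * q)) := by positivity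
    have e : K2 * (1 / (p : ℝ)) * (1 / q) = K2 * (1 / ((p : ℝ) * q)) := by field_simp
    linarith
  · have h4 := (measureReal_mono (μ := volume.restrict (Set.Ioc u v))
      (Set.inter_subset_right (s := PEv Set.univ c (Real.log α) p)
        (t := PEv Set.univ c (Real.log α) q))).trans (h1 q (by omega))
    have h5 : (p : ℝ) ≤ N := by exact_mod_cast h3.le
    have h6 : K1 * (1 / (q : ℝ)) ≤ K1 * N * (1 / ((p : ℝ) * q)) := by
      have e : K1 * (N : ℝ) * (1 / ((p : ℝ) * q)) = K1 * (1 / (q : ℝ)) * (N / p) := by field_simp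
      rw [e]
      have h7 : 1 ≤ (N : ℝ) / p := by rw [le_div_iff₀ hp0]; linarith
      have h8 : 0 ≤ K1 * (1 / (q : ℝ)) := by positivity
      nlinarith
    have h9 : 0 ≤ K2 * (1 / ((p : ℝ) * q)) := by positivity
    linarith

/-- **Sparse sets of pairs.** -/
theorem sparse (hα : 1 < α) (hdio : Dio α) (c : ℕ) {D : Set (ℕ × ℕ)}
    (hD : ∀ z ∈ D, 1 ≤ z.1 ∧ z.1 < z.2)
    (hs : Summable (D.indicator fun z : ℕ × ℕ => 1 / ((z.1 : ℝ) * z.2))) :
    ∀ᵐ b : ℝ, 0 < b → {z | z ∈ D ∧ z.1 ∈ NP c α b ∧ z.2 ∈ NP c α b}.Finite := by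
  have hα0 : 0 < α := by linarith
  refine Pool.Agent.V1193.FM.ae_exp'
    (Q := fun b => {z | z ∈ D ∧ z.1 ∈ NP c α b ∧ z.2 ∈ NP c α b}.Finite) ?_
  have hwin : ∀ u v : ℝ, u < v → ∀ᵐ y ∂(volume.restrict (Set.Ioc u v)),
      {z | z ∈ D ∧ z.1 ∈ NP c α (Real.exp y) ∧ z.2 ∈ NP c α (Real.exp y)}.Finite := by
    intro u v huv
    obtain ⟨K, hK, h⟩ := two_bound hα hdio c huv
    set F : ℕ × ℕ → Set ℝ := fun z => {y | z ∈ D ∧ y ∈ PEv Set.univ c (Real.log α) z.1 ∩
      PEv Set.univ c (Real.log α) z.2} with hF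
    have hle : ∀ z, (volume.restrict (Set.Ioc u v)).real (F z) ≤
        K * D.indicator (fun z : ℕ × ℕ => 1 / ((z.1 : ℝ) * z.2)) z := by
      intro z
      by_cases hz : z ∈ D
      · rw [Set.indicator_of_mem hz]
        obtain ⟨h1, h2⟩ := hD z hz
        refine le_trans (measureReal_mono ?_) (h z.1 z.2 h1 h2)
        rintro y ⟨_, hy⟩
        exact hy
      · rw [Set.indicator_of_notMem hz]
        have : F z = ∅ := by
          ext y
          simp only [Set.mem_empty_iff_false, iff_false]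
          rintro ⟨h1, _⟩
          exact hz h1
        rw [this]
        simp
    have hsum : Summable fun z => (volume.restrict (Set.Ioc u v)).real (F z) :=
      Summable.of_nonneg_of_le (fun _ => measureReal_nonneg) hle (hs.mul_left K)
    have hbc : ∑' z, (volume.restrict (Set.Ioc u v)) (F z) ≠ ⊤ := by
      have e : ∀ z, (volume.restrict (Set.Ioc u v)) (F z) =
          ENNReal.ofReal ((volume.restrict (Set.Ioc u v)).real (F z)) := by
        intro z
        rw [Measure.real, ENNReal.ofReal_toReal (measure_ne_top _ _)]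
      simp only [e]
      exact hsum.tsum_ofReal_ne_top
    filter_upwards [ae_finite_setOfPred_mem hbc] with y hy
    refine hy.subset ?_
    rintro z ⟨h1, h2, h3⟩
    refine ⟨h1, (mem_PEv hα0 _ c y z.1).2 ⟨Set.mem_univ _, h2⟩,
      (mem_PEv hα0 _ c y z.2).2 ⟨Set.mem_univ _, h3⟩⟩
  have h1 : ∀ k : ℕ, ∀ᵐ y : ℝ, y ∈ Set.Ioc (-((k : ℝ) + 1)) (k + 1) →
      {z | z ∈ D ∧ z.1 ∈ NP c α (Real.exp y) ∧ z.2 ∈ NP c α (Real.exp y)}.Finite := by
    intro k
    refine (ae_restrict_iff' measurableSet_Ioc).1 (hwin _ _ ?_)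
    have : (0 : ℝ) ≤ k := Nat.cast_nonneg k
    linarith
  rw [← ae_all_iff] at h1
  filter_upwards [h1] with y hy
  obtain ⟨k, hk⟩ := exists_nat_gt |y|
  have h2 := abs_lt.1 hk
  exact hy k ⟨by linarith [h2.1], by linarith [h2.2]⟩

end unit

end Pool.Agent.V1193.PE
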