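import Pool.Agent.V1193.PE.G
import Pool.Agent.W66.GC

set_option autoImplicit false

/-! The pair sieve in short windows: `VB.osc1`, `GA`, `GB`, `VF.majorant_pair`, `GC.joint_sift_log` of the
library (`Pool.Agent.W66`), copied with the window `[X, e X]` replaced by `[X, lam X]`. -/

namespace Pool.Agent.V1193.PE.W

open Set MeasureTheory Filter Topology
open Pool.Agent.W66V hiding osc1 triv_window osc_prod1 lin_one mix_lin corr_lin majorant_pair joint_sift_log
open scoped Real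

lemma lam_le {lam X : ℝ} (hl : 1 ≤ lam) (hX : 0 < X) : X ≤ lam * X := by nlinarith

lemma inv_window {lam X : ℝ} (hl : 1 ≤ lam) (hX : 0 < X) : ∫ x in X..(lam * X), 1 / x = Real.log lam := by
  rw [integral_one_div_of_pos hX (by positivity)]
  have : lam * X / X = lam := by field_simp
  rw [this]

lemma log_lam_le {lam : ℝ} (hl : 1 ≤ lam) (hl2 : lam ≤ Real.exp 1) : Real.log lam ≤ 1 := by
  rw [Real.log_le_iff_le_exp (by linarith)]; exact hl2

/-- linear phase -/
lemma osc1 {lam α γ X : ℝ} (hl : 1 ≤ lam) (hX : 0 < X) (hα : α ≠ 0) :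
    |∫ x in X..(lam * X), Real.cos (α * x + γ) / x| ≤ 2 / |α| / X := by
  have hle : X ≤ lam * X := lam_le hl hX
  refine weight_le hX hle (by fun_prop) fun s hs => ?_
  have h1 : ∫ x in X..s, Real.cos (α * x + γ) = (Real.sin (α * s + γ) - Real.sin (α * X + γ)) / α := by
    have h2 : ∀ x ∈ uIcc X s, HasDerivAt (fun x => Real.sin (α * x + γ) / α) (Real.cos (α * x + γ)) x := by
      intro x _
      have h3 : HasDerivAt (fun x : ℝ => α * x + γ) α x := by
        simpa using ((hasDerivAt_id x).const_mul α).add_const γ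
      have h4 := (h3.sin).div_const α
      have e : Real.cos (α * x + γ) * α / α = Real.cos (α * x + γ) := by field_simp
      rwa [e] at h4
    rw [intervalIntegral.integral_eq_sub_of_hasDerivAt h2 (by apply Continuous.intervalIntegrable; fun_prop)]
    ring
  rw [h1, abs_div]
  refine div_le_div_of_nonneg_right ?_ (abs_nonneg _)
  have h3 := Real.abs_sin_le_one (α * s + γ)
  have h4 := Real.abs_sin_le_one (α * X + γ)
  calc |Real.sin (α * s + γ) - Real.sin (α * X + γ)| ≤ |Real.sin (α * s + γ)| + |Real.sin (α * X + γ)| :=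
        abs_sub _ _
    _ ≤ 2 := by linarith

section

variable {lam X : ℝ} (hl : 1 ≤ lam) (hl2 : lam ≤ Real.exp 1) (hX : 1 ≤ X)
include hl hl2 hX

/-- trivial bound -/
lemma triv_window {f : ℝ → ℝ} (hf : ContinuousOn f (Icc X (lam * X)))
    {M : ℝ} (hM : ∀ x ∈ Icc X (lam * X), |f x| ≤ M) :
    |∫ x in X..(lam * X), f x / x| ≤ M := by
  have hX0 : 0 < X := by linarith
  have hle := lam_le hl hX0
  have hpos : ∀ x ∈ Icc X (lam * X), 0 < x := fun x hx => hX0.trans_le hx.1
  have hinv : ContinuousOn (fun x : ℝ => x⁻¹) (Icc X (lam * X)) :=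
    continuousOn_inv₀.mono fun x hx => (hpos x hx).ne'
  have h1 : ContinuousOn (fun x => f x / x) (Icc X (lam * X)) := by
    simp only [div_eq_mul_inv]; exact hf.mul hinv
  have h2 : ContinuousOn (fun x : ℝ => M * (1 / x)) (Icc X (lam * X)) := by
    simp only [one_div]; exact continuousOn_const.mul hinv
  refine (intervalIntegral.abs_integral_le_integral_abs hle).trans ?_
  calc ∫ x in X..(lam * X), |f x / x| ≤ ∫ x in X..(lam * X), M * (1 / x) := by
        refine intervalIntegral.integral_mono_on hle (h1.abs.intervalIntegrable_of_Icc hle)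
          (h2.intervalIntegrable_of_Icc hle) fun x hx => ?_
        have hx0 := hpos x hx
        rw [abs_div, abs_of_pos hx0, ← mul_div_assoc, mul_one]
        exact div_le_div_of_nonneg_right (hM x hx) hx0.le
    _ = M * Real.log lam := by rw [intervalIntegral.integral_const_mul, inv_window hl hX0]
    _ ≤ M * 1 := mul_le_mul_of_nonneg_left (log_lam_le hl hl2)
        ((abs_nonneg _).trans (hM X ⟨le_rfl, hle⟩))
    _ = M := mul_one M

/-- product of two cosines with linear phases -/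
lemma osc_prod1 {α β γ γ' : ℝ} (h1 : α + β ≠ 0) (h2 : α - β ≠ 0) :
    |∫ x in X..(lam * X), Real.cos (α * x + γ) * Real.cos (β * x + γ') / x| ≤
      Real.sqrt ((1 / |α + β| + 1 / |α - β|) / X) := by
  have hX0 : 0 < X := by linarith
  have hle := lam_le hl hX0
  refine min_sqrt (by positivity) ?_ ?_
  · refine triv_window hl hl2 hX (f := fun x => Real.cos (α * x + γ) * Real.cos (β * x + γ')) (by fun_prop)
      fun x _ => ?_
    rw [abs_mul]
    have h3 := Real.abs_cos_le_one (α * x + γ)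
    have h4 := Real.abs_cos_le_one (β * x + γ')
    exact mul_le_one₀ h3 (abs_nonneg _) h4
  have h3 := osc1 (γ := γ + γ') hl hX0 h1
  have h4 := osc1 (γ := γ - γ') hl hX0 h2
  have hci : ∀ a c : ℝ, IntervalIntegrable (fun x : ℝ => Real.cos (a * x + c) / x) volume
      X (lam * X) := by
    intro a c
    refine ContinuousOn.intervalIntegrable_of_Icc hle ?_
    refine ContinuousOn.div (by fun_prop) continuousOn_id fun x hx => ?_
    exact (hX0.trans_le hx.1).ne'
  have e : ∫ x in X..(lam * X), Real.cos (α * x + γ) * Real.cos (β * x + γ') / x =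
      (1 / 2) * ((∫ x in X..(lam * X), Real.cos ((α + β) * x + (γ + γ')) / x) +
        ∫ x in X..(lam * X), Real.cos ((α - β) * x + (γ - γ')) / x) := by
    rw [← intervalIntegral.integral_add (hci _ _) (hci _ _), ← intervalIntegral.integral_const_mul]
    refine intervalIntegral.integral_congr fun x _ => ?_
    have h5 := Real.cos_add (α * x + γ) (β * x + γ')
    have h6 := Real.cos_sub (α * x + γ) (β * x + γ')
    have e1 : (α + β) * x + (γ + γ') = α * x + γ + (β * x + γ') := by ring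
    have e2 : (α - β) * x + (γ - γ') = α * x + γ - (β * x + γ') := by ring
    rw [e1, e2, h5, h6]
    ring
  rw [e, abs_mul, abs_of_pos (by norm_num : (0 : ℝ) < 1 / 2)]
  have h5 := abs_add_le (∫ x in X..(lam * X), Real.cos ((α + β) * x + (γ + γ')) / x)
    (∫ x in X..(lam * X), Real.cos ((α - β) * x + (γ - γ')) / x)
  have e3 : (1 / |α + β| + 1 / |α - β|) / X = (1 / 2) * (2 / |α + β| / X + 2 / |α - β| / X) := by
    ring
  rw [e3]
  linarith

end

section

variable {Q : ℕ} {lam A β κ X : ℝ} (hl : 1 ≤ lam) (hl2 : lam ≤ Real.exp 1) (hQ : 1 ≤ Q) (hA : 1 ≤ A) (hβ : 1 ≤ β) (hX : 1 ≤ X)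
  (hdio : ∀ a b : ℕ, 1 ≤ a → 1 ≤ b → 1 ≤ |(a : ℝ) - b * β| * (A * (a + b)))
include hl hl2 hQ hA hX

lemma lin_one {a γ : ℝ} (ha : 2 / Q ≤ a) :
    |∫ x in X..(lam * X), Real.cos (a * x + γ) / x| ≤ Real.sqrt (A * Q ^ 3 / X) := by
  have hX0 : 0 < X := by linarith
  have hQ0 : (0 : ℝ) < Q := by exact_mod_cast hQ
  have ha0 : 0 < a := lt_of_lt_of_le (by positivity) ha
  refine min_sqrt (by positivity) ?_ ?_
  · exact triv_window hl hl2 hX (f := fun x => Real.cos (a * x + γ)) (by fun_prop)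
      fun x _ => Real.abs_cos_le_one _
  · refine (osc1 hl hX0 ha0.ne').trans (div_le_div_of_nonneg_right ?_ hX0.le)
    rw [abs_of_pos ha0]
    refine le_trans ?_ (QQ_le hQ hA)
    rw [div_le_iff₀ ha0]
    rw [div_le_iff₀ hQ0] at ha
    linarith

include hβ hdio

lemma mix_lin {D E k l : ℕ} (hD : 1 ≤ D) (hDQ : D ≤ Q) (hE : 1 ≤ E) (hEQ : E ≤ Q) (hk : 1 ≤ k)
    (hll : 1 ≤ l) (γ γ' : ℝ) :
    |∫ x in X..(lam * X), Real.cos (2 * π * k / D * x + γ) *
      Real.cos (2 * π * l / E * (β * x + κ) + γ') / x| ≤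
      Real.sqrt k * (Real.sqrt l * Real.sqrt (A * Q ^ 3 / X)) := by
  have hX0 : 0 < X := by linarith
  have hQ0 : (0 : ℝ) < Q := by exact_mod_cast hQ
  have hQ1 : (1 : ℝ) ≤ Q := by exact_mod_cast hQ
  have hD0 : (0 : ℝ) < D := by exact_mod_cast hD
  have hE0 : (0 : ℝ) < E := by exact_mod_cast hE
  have hD1 : (1 : ℝ) ≤ D := by exact_mod_cast hD
  have hE1 : (1 : ℝ) ≤ E := by exact_mod_cast hE
  have hDr : (D : ℝ) ≤ Q := by exact_mod_cast hDQ
  have hEr : (E : ℝ) ≤ Q := by exact_mod_cast hEQ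
  have hk1 : (1 : ℝ) ≤ k := by exact_mod_cast hk
  have hl1 : (1 : ℝ) ≤ l := by exact_mod_cast hll
  have hpi := Real.pi_gt_three
  have hpi0 := Real.pi_pos
  have e : ∀ x : ℝ, 2 * π * l / E * (β * x + κ) + γ' =
      (2 * π * l / E * β) * x + (2 * π * l / E * κ + γ') := by intro x; ring
  simp only [e]
  -- the difference frequency
  have hd := hdio (k * E) (l * D) (Nat.mul_pos (by omega) (by omega)) (Nat.mul_pos (by omega) (by omega))
  push_cast at hd
  set z := |(k : ℝ) * E - l * D * β| with hz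
  have hz0 : 0 < z := by
    rcases (abs_nonneg ((k : ℝ) * E - l * D * β)).eq_or_lt with h | h
    · rw [hz, ← h] at hd; rw [zero_mul] at hd; linarith
    · exact h
  have hdiff : 2 * π * k / D - 2 * π * l / E * β = 2 * π / (D * E) * ((k : ℝ) * E - l * D * β) := by
    field_simp
  have hab : |2 * π * k / D - 2 * π * l / E * β| = 2 * π / (D * E) * z := by
    rw [hdiff, abs_mul, abs_of_pos (by positivity : 0 < 2 * π / ((D : ℝ) * E))]
  have hne : 2 * π * k / D - 2 * π * l / E * β ≠ 0 := by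
    rw [← abs_pos, hab]; positivity
  have hsum0 : 0 < 2 * π * k / D + 2 * π * l / E * β := by positivity
  refine (osc_prod1 hl hl2 hX (ne_of_gt hsum0) hne).trans ?_
  rw [← Real.sqrt_mul (by positivity), ← Real.sqrt_mul (by positivity)]
  refine Real.sqrt_le_sqrt ?_
  have h1 : 1 / |2 * π * k / D + 2 * π * l / E * β| ≤ Q / 2 := by
    rw [abs_of_pos hsum0, div_le_iff₀ hsum0]
    have h2 := freq_bound hQ hA (β := 1) le_rfl hD hDQ hk
    have h3 : 0 ≤ 2 * π * l / E * β := by positivity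
    rw [mul_one, div_le_iff₀ hQ0] at h2
    have h4 := mul_nonneg hQ0.le h3
    calc (1 : ℝ) ≤ Q / 2 * (2 * π * k / D) + Q / 2 * (2 * π * l / E * β) := by linarith
      _ = _ := by ring
  have h2 : 1 / |2 * π * k / D - 2 * π * l / E * β| ≤ A * Q ^ 3 * (k + l) / 4 := by
    rw [hab, div_le_iff₀ (by positivity)]
    have h3 : (D : ℝ) * E ≤ Q ^ 2 := by
      rw [sq]; exact mul_le_mul hDr hEr hE0.le hQ0.le
    have h4 : (k : ℝ) * E + l * D ≤ Q * (k + l) := by
      have h5 := mul_le_mul_of_nonneg_left hEr (by linarith : (0 : ℝ) ≤ k)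
      have h6 := mul_le_mul_of_nonneg_left hDr (by linarith : (0 : ℝ) ≤ l)
      linarith
    have h5 : 1 ≤ z * (A * (Q * (k + l))) := by
      refine hd.trans (mul_le_mul_of_nonneg_left ?_ hz0.le)
      exact mul_le_mul_of_nonneg_left h4 (by linarith)
    have h6 : (D : ℝ) * E * 1 ≤ Q ^ 2 * (z * (A * (Q * (k + l)))) :=
      mul_le_mul h3 h5 zero_le_one (by positivity)
    have h7 : (1 : ℝ) ≤ Q ^ 2 * (z * (A * (Q * (k + l)))) / (D * E) := by
      rw [le_div_iff₀ (by positivity)]; linarith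
    have h8 : A * Q ^ 3 * (k + l) / 4 * (2 * π / (D * E) * z) =
        π / 2 * (Q ^ 2 * (z * (A * (Q * (k + l)))) / (D * E)) := by ring
    rw [h8]
    have h9 : 1 ≤ π / 2 := by linarith
    calc (1 : ℝ) = 1 * 1 := by ring
      _ ≤ _ := mul_le_mul h9 h7 zero_le_one (by positivity)
  have hAQ := QQ_le hQ hA
  have hkl : (k : ℝ) + l ≤ 2 * (k * l) := by
    have := mul_nonneg (by linarith : (0 : ℝ) ≤ k - 1) (by linarith : (0 : ℝ) ≤ l - 1)
    linarith [mul_nonneg (by linarith : (0 : ℝ) ≤ k - 1) (by linarith : (0 : ℝ) ≤ (l : ℝ)),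
      mul_nonneg (by linarith : (0 : ℝ) ≤ l - 1) (by linarith : (0 : ℝ) ≤ (k : ℝ))]
  have hkl1 : (1 : ℝ) ≤ k * l := by nlinarith
  have hAQ0 : (0 : ℝ) ≤ A * Q ^ 3 := by positivity
  have e2 : (k : ℝ) * (l * (A * Q ^ 3 / X)) = (A * Q ^ 3 * (k * l)) / X := by ring
  rw [e2]
  refine div_le_div_of_nonneg_right ?_ hX0.le
  have h10 : A * Q ^ 3 * (k + l) / 4 ≤ A * Q ^ 3 * (k * l) / 2 := by
    have := mul_le_mul_of_nonneg_left hkl hAQ0
    linarith
  have h11 : (Q : ℝ) / 2 ≤ A * Q ^ 3 * (k * l) / 2 := by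
    have := mul_le_mul_of_nonneg_left hkl1 hAQ0
    linarith
  linarith

/-- the correlation integral for two linear phases -/
theorem corr_lin {D E : ℕ} (hD : 1 ≤ D) (hDQ : D ≤ Q) (hE : 1 ≤ E) (hEQ : E ≤ Q) :
    |(∫ x in X..(lam * X), HD D x * HD E (β * x + κ) / x) - 4 / (D * E) * Real.log lam| ≤
      (Q * (Z32 + 2)) ^ 2 * Real.sqrt (A * Q ^ 3 / X) := by
  have hX0 : 0 < X := by linarith
  have hle := lam_le hl hX0
  have hD1 : (1 : ℝ) ≤ D := by exact_mod_cast hD
  have hE1 : (1 : ℝ) ≤ E := by exact_mod_cast hE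
  have hDr : (D : ℝ) ≤ Q := by exact_mod_cast hDQ
  have hEr : (E : ℝ) ≤ Q := by exact_mod_cast hEQ
  have hQ1 : (1 : ℝ) ≤ Q := by exact_mod_cast hQ
  set B := Real.sqrt (A * Q ^ 3 / X) with hB
  have hB0 : 0 ≤ B := Real.sqrt_nonneg _
  have hZ0 := Z32_nonneg
  set W := (Q : ℝ) * Z32 with hW
  have hW0 : 0 ≤ W := by positivity
  have hpos : ∀ x ∈ Icc X (lam * X), 0 < x := fun x hx => hX0.trans_le hx.1
  have hinv : ContinuousOn (fun x : ℝ => x⁻¹) (Icc X (lam * X)) :=
    continuousOn_inv₀.mono fun x hx => (hpos x hx).ne'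
  have hinvle : ∀ x ∈ Icc X (lam * X), |x⁻¹| ≤ 1 := by
    intro x hx
    rw [abs_of_pos (inv_pos.2 (hpos x hx))]
    exact inv_le_one_of_one_le₀ (hX.trans hx.1)
  have hc1 : ∀ F : ℝ → ℝ, Continuous F → ContinuousOn (fun x => F x / x) (Icc X (lam * X)) := by
    intro F hF
    simp only [div_eq_mul_inv]
    exact hF.continuousOn.mul hinv
  have hb1 : ∀ F : ℝ → ℝ, (∀ x, |F x| ≤ 1) → ∀ x ∈ Icc X (lam * X), |F x / x| ≤ 1 := by
    intro F hF x hx
    have h1 := abs3 (M := 1) (hF x) (b := 1) (by simp) (hinvle x hx)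
    rwa [mul_one] at h1
  -- first error
  have herr1 : |∫ x in X..(lam * X), ∑' k : ℕ, ca D k *
      (Real.cos (2 * π * k / D * x + -(π * k / D)) / x)| ≤ 2 * B := by
    refine (tsum_int (ca_nonneg D) (summable_ca D) hle (M := 1) (B := B)
      (fun k x => Real.cos (2 * π * k / D * x + -(π * k / D)) / x) ?_ ?_ ?_).trans ?_
    · intro k
      exact hc1 _ (by fun_prop)
    · intro k
      exact hb1 _ fun x => Real.abs_cos_le_one _
    · intro k hk
      have hk1 : 1 ≤ k := by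
        rcases Nat.eq_zero_or_pos k with h | h
        · rw [h] at hk; exact absurd (ca_zero D) hk
        · exact h
      refine lin_one hl hl2 hQ hA hX ?_
      have := freq_bound hQ hA (β := 1) le_rfl hD hDQ hk1
      rwa [mul_one] at this
    · exact mul_le_mul_of_nonneg_right (sum_ca_le hD) hB0
  -- inner integrals
  have hinner : ∀ l : ℕ, 1 ≤ l → |∫ x in X..(lam * X), HD D x *
      Real.cos (2 * π * l / E * (β * x + κ) + -(π * l / E)) / x| ≤ Real.sqrt l * ((W + 2) * B) := by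
    intro l hl1
    have hsl : 1 ≤ Real.sqrt l := Real.one_le_sqrt.2 (by exact_mod_cast hl1)
    have hcontH : ContinuousOn (fun x : ℝ => Real.cos (2 * π * l / E * (β * x + κ) + -(π * l / E)) / x)
        (Icc X (lam * X)) := hc1 _ (by fun_prop)
    have hi1 : IntervalIntegrable (fun x : ℝ => 2 / D *
        (Real.cos (2 * π * l / E * (β * x + κ) + -(π * l / E)) / x)) volume X (lam * X) :=
      (continuousOn_const.mul hcontH).intervalIntegrable_of_Icc hle
    have hct : ∀ k : ℕ, ContinuousOn (fun x : ℝ => Real.cos (2 * π * k / D * x + -(π * k / D)) *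
          Real.cos (2 * π * l / E * (β * x + κ) + -(π * l / E)) / x) (Icc X (lam * X)) :=
      fun k => hc1 (fun x => Real.cos (2 * π * k / D * x + -(π * k / D)) *
        Real.cos (2 * π * l / E * (β * x + κ) + -(π * l / E))) (by fun_prop)
    have hbt : ∀ k : ℕ, ∀ x ∈ Icc X (lam * X),
        |Real.cos (2 * π * k / D * x + -(π * k / D)) *
          Real.cos (2 * π * l / E * (β * x + κ) + -(π * l / E)) / x| ≤ 1 := by
      intro k x hx
      exact abs3 (Real.abs_cos_le_one _) (Real.abs_cos_le_one _) (hinvle x hx)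
    have htail : ContinuousOn (fun x : ℝ => ∑' k : ℕ, ca D k *
        (Real.cos (2 * π * k / D * x + -(π * k / D)) *
          Real.cos (2 * π * l / E * (β * x + κ) + -(π * l / E)) / x)) (Icc X (lam * X)) := by
      refine continuousOn_tsum (u := ca D) (fun k => continuousOn_const.mul (hct k)) (summable_ca D)
        fun k x hx => ?_
      rw [Real.norm_eq_abs, abs_mul, abs_of_nonneg (ca_nonneg D k)]
      have h5 := ca_nonneg D k
      calc ca D k * _ ≤ ca D k * 1 := mul_le_mul_of_nonneg_left (hbt k x hx) h5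
        _ = _ := mul_one _
    have hi2 := htail.intervalIntegrable_of_Icc (μ := volume) hle
    have e : ∫ x in X..(lam * X), HD D x *
        Real.cos (2 * π * l / E * (β * x + κ) + -(π * l / E)) / x =
        2 / D * (∫ x in X..(lam * X), Real.cos (2 * π * l / E * (β * x + κ) + -(π * l / E)) / x) +
        ∫ x in X..(lam * X), ∑' k : ℕ, ca D k * (Real.cos (2 * π * k / D * x + -(π * k / D)) *
          Real.cos (2 * π * l / E * (β * x + κ) + -(π * l / E)) / x) := by
      rw [← intervalIntegral.integral_const_mul, ← intervalIntegral.integral_add hi1 hi2]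
      refine intervalIntegral.integral_congr fun x _ => ?_
      simp only [HD]
      rw [add_mul, add_div, ← tsum_mul_right, ← tsum_div_const]
      congr 1
      · ring
      · refine tsum_congr fun k => ?_
        ring
    rw [e]
    have hA1 : |∫ x in X..(lam * X), Real.cos (2 * π * l / E * (β * x + κ) + -(π * l / E)) / x| ≤ B := by
      have e3 : ∀ x : ℝ, 2 * π * l / E * (β * x + κ) + -(π * l / E) =
        (2 * π * l / E * β) * x + (2 * π * l / E * κ + -(π * l / E)) := by intro x; ring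
      simp only [e3]
      exact lin_one hl hl2 hQ hA hX (freq_bound hQ hA hβ hE hEQ hl1)
    have hBt : |∫ x in X..(lam * X), ∑' k : ℕ, ca D k *
        (Real.cos (2 * π * k / D * x + -(π * k / D)) *
          Real.cos (2 * π * l / E * (β * x + κ) + -(π * l / E)) / x)| ≤ W * (Real.sqrt l * B) := by
      refine (tsum_int2 (s := fun k => Real.sqrt k) (ca_nonneg D) (summable_ca D) (summable_ca_sqrt D) hle
        (M := 1) (B := Real.sqrt l * B)
        (fun k x => Real.cos (2 * π * k / D * x + -(π * k / D)) *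
          Real.cos (2 * π * l / E * (β * x + κ) + -(π * l / E)) / x) hct hbt ?_).trans ?_
      · intro k hk
        have hk1 : 1 ≤ k := by
          rcases Nat.eq_zero_or_pos k with h | h
          · rw [h] at hk; exact absurd (ca_zero D) hk
          · exact h
        exact mix_lin hl hl2 hQ hA hβ hX hdio hD hDQ hE hEQ hk1 hl1 _ _
      · refine mul_le_mul_of_nonneg_right ((sum_ca_sqrt_le D).trans ?_) (by positivity)
        exact mul_le_mul_of_nonneg_right hDr hZ0
    have h2D : (2 : ℝ) / D ≤ 2 := by rw [div_le_iff₀ (by linarith)]; linarith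
    have h2D0 : (0 : ℝ) ≤ 2 / D := by positivity
    calc |2 / D * (∫ x in X..(lam * X), Real.cos (2 * π * l / E * (β * x + κ) + -(π * l / E)) / x) +
        ∫ x in X..(lam * X), ∑' k : ℕ, ca D k * (Real.cos (2 * π * k / D * x + -(π * k / D)) *
          Real.cos (2 * π * l / E * (β * x + κ) + -(π * l / E)) / x)| ≤
        2 / D * |∫ x in X..(lam * X), Real.cos (2 * π * l / E * (β * x + κ) + -(π * l / E)) / x| +
        |∫ x in X..(lam * X), ∑' k : ℕ, ca D k * (Real.cos (2 * π * k / D * x + -(π * k / D)) *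
          Real.cos (2 * π * l / E * (β * x + κ) + -(π * l / E)) / x)| := by
          refine (abs_add_le _ _).trans ?_
          rw [abs_mul, abs_of_nonneg h2D0]
      _ ≤ 2 * (1 * B) + W * (Real.sqrt l * B) := by
          rw [one_mul]; gcongr
      _ ≤ 2 * (Real.sqrt l * B) + W * (Real.sqrt l * B) := by gcongr
      _ = _ := by ring
  -- second error
  have hct2 : ∀ l : ℕ, ContinuousOn (fun x : ℝ => HD D x *
      Real.cos (2 * π * l / E * (β * x + κ) + -(π * l / E)) / x) (Icc X (lam * X)) :=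
    fun l => hc1 (fun x => HD D x * Real.cos (2 * π * l / E * (β * x + κ) + -(π * l / E)))
      ((HD_continuous D).mul (by fun_prop))
  have hbt2 : ∀ l : ℕ, ∀ x ∈ Icc X (lam * X), |HD D x *
      Real.cos (2 * π * l / E * (β * x + κ) + -(π * l / E)) / x| ≤ 4 := by
    intro l x hx
    exact abs3 (HD_abs_le D hD x) (Real.abs_cos_le_one _) (hinvle x hx)
  have herr2 : |∫ x in X..(lam * X), ∑' l : ℕ, ca E l * (HD D x *
      Real.cos (2 * π * l / E * (β * x + κ) + -(π * l / E)) / x)| ≤ W * ((W + 2) * B) := by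
    refine (tsum_int2 (s := fun l => Real.sqrt l) (ca_nonneg E) (summable_ca E) (summable_ca_sqrt E) hle
      (M := 4) (B := (W + 2) * B)
      (fun l x => HD D x * Real.cos (2 * π * l / E * (β * x + κ) + -(π * l / E)) / x)
      hct2 hbt2 ?_).trans ?_
    · intro l hl0
      have hl1 : 1 ≤ l := by
        rcases Nat.eq_zero_or_pos l with h | h
        · rw [h] at hl0; exact absurd (ca_zero E) hl0
        · exact h
      exact hinner l hl1
    · refine mul_le_mul_of_nonneg_right ((sum_ca_sqrt_le E).trans ?_) (by positivity)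
      exact mul_le_mul_of_nonneg_right hEr hZ0
  -- decomposition
  have hcontA : ContinuousOn (fun x : ℝ => ∑' k : ℕ, ca D k *
      (Real.cos (2 * π * k / D * x + -(π * k / D)) / x)) (Icc X (lam * X)) := by
    refine continuousOn_tsum (u := ca D) (fun k => continuousOn_const.mul (hc1 _ (by fun_prop)))
      (summable_ca D) fun k x hx => ?_
    rw [Real.norm_eq_abs, abs_mul, abs_of_nonneg (ca_nonneg D k)]
    have h5 := ca_nonneg D k
    calc ca D k * _ ≤ ca D k * 1 :=
          mul_le_mul_of_nonneg_left (hb1 _ (fun x => Real.abs_cos_le_one _) x hx) h5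
      _ = _ := mul_one _
  have hcontB : ContinuousOn (fun x : ℝ => ∑' l : ℕ, ca E l * (HD D x *
      Real.cos (2 * π * l / E * (β * x + κ) + -(π * l / E)) / x)) (Icc X (lam * X)) := by
    refine continuousOn_tsum (u := fun l => ca E l * 4) (fun l => continuousOn_const.mul (hct2 l))
      ((summable_ca E).mul_right 4) fun l x hx => ?_
    rw [Real.norm_eq_abs, abs_mul, abs_of_nonneg (ca_nonneg E l)]
    exact mul_le_mul_of_nonneg_left (hbt2 l x hx) (ca_nonneg E l)
  have hii : ∀ g : ℝ → ℝ, ContinuousOn g (Icc X (lam * X)) →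
      IntervalIntegrable g volume X (lam * X) := fun g hg => hg.intervalIntegrable_of_Icc hle
  have hone : ContinuousOn (fun x : ℝ => 1 / x) (Icc X (lam * X)) := hc1 _ continuous_const
  have hdec : ∫ x in X..(lam * X), HD D x * HD E (β * x + κ) / x =
      4 / (D * E) * (∫ x in X..(lam * X), 1 / x) +
      2 / E * (∫ x in X..(lam * X), ∑' k : ℕ, ca D k *
        (Real.cos (2 * π * k / D * x + -(π * k / D)) / x)) +
      ∫ x in X..(lam * X), ∑' l : ℕ, ca E l * (HD D x *
        Real.cos (2 * π * l / E * (β * x + κ) + -(π * l / E)) / x) := by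
    have j1 : IntervalIntegrable (fun x : ℝ => 4 / ((D : ℝ) * E) * (1 / x)) volume X (lam * X) :=
      hii _ (continuousOn_const.mul hone)
    have j2 : IntervalIntegrable (fun x : ℝ => 2 / (E : ℝ) * ∑' k : ℕ, ca D k *
        (Real.cos (2 * π * k / D * x + -(π * k / D)) / x)) volume X (lam * X) :=
      hii _ (continuousOn_const.mul hcontA)
    have j3 : IntervalIntegrable (fun x : ℝ => 4 / ((D : ℝ) * E) * (1 / x) + 2 / (E : ℝ) *
        ∑' k : ℕ, ca D k * (Real.cos (2 * π * k / D * x + -(π * k / D)) / x)) volume X (lam * X) :=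
      j1.add j2
    rw [← intervalIntegral.integral_const_mul, ← intervalIntegral.integral_const_mul,
      ← intervalIntegral.integral_add j1 j2, ← intervalIntegral.integral_add j3 (hii _ hcontB)]
    refine intervalIntegral.integral_congr fun x _ => ?_
    have e1 : HD E (β * x + κ) = 2 / E + ∑' l : ℕ, ca E l *
        Real.cos (2 * π * l / E * (β * x + κ) + -(π * l / E)) := rfl
    have e2 : HD D x = 2 / D + ∑' k : ℕ, ca D k * Real.cos (2 * π * k / D * x + -(π * k / D)) := rfl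
    have e3 : ∑' l : ℕ, ca E l * (HD D x *
        Real.cos (2 * π * l / E * (β * x + κ) + -(π * l / E)) / x) =
        HD D x / x * ∑' l : ℕ, ca E l * Real.cos (2 * π * l / E * (β * x + κ) + -(π * l / E)) := by
      rw [← tsum_mul_left]
      refine tsum_congr fun l => ?_
      ring
    have e4 : ∑' k : ℕ, ca D k * (Real.cos (2 * π * k / D * x + -(π * k / D)) / x) =
        1 / x * ∑' k : ℕ, ca D k * Real.cos (2 * π * k / D * x + -(π * k / D)) := by
      rw [← tsum_mul_left]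
      refine tsum_congr fun l => ?_
      ring
    rw [e3, e4, e1]
    conv_lhs => rw [mul_add]
    rw [add_div]
    have e5 : HD D x * (2 / E) / x = 4 / (D * E) * (1 / x) + 2 / E * (1 / x *
        ∑' k : ℕ, ca D k * Real.cos (2 * π * k / D * x + -(π * k / D))) := by
      rw [e2]
      generalize (∑' k : ℕ, ca D k * Real.cos (2 * π * k / D * x + -(π * k / D))) = T
      field_simp
      ring
    rw [e5]
    ring
  rw [hdec, inv_window hl hX0]
  have h2E : (2 : ℝ) / E ≤ 2 := by rw [div_le_iff₀ (by linarith)]; linarith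
  have h2E0 : (0 : ℝ) ≤ 2 / E := by positivity
  have e6 : ∀ a b : ℝ, 4 / ((D : ℝ) * E) * Real.log lam + 2 / E * a + b - 4 / (D * E) * Real.log lam = 2 / E * a + b := by
    intro a b; ring
  rw [e6]
  refine (abs_add_le _ _).trans ?_
  rw [abs_mul, abs_of_nonneg h2E0]
  have h7 : W + 2 ≤ Q * (Z32 + 2) := by rw [hW]; linarith
  have h8 : (W + 2) ^ 2 ≤ (Q * (Z32 + 2)) ^ 2 := pow_le_pow_left₀ (by positivity) h7 2
  calc _ ≤ 2 * (2 * B) + W * ((W + 2) * B) := by gcongr
    _ ≤ (W + 2) ^ 2 * B := by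
        have := mul_nonneg hW0 hB0
        have e7 : (W + 2) ^ 2 * B = 2 * (2 * B) + W * ((W + 2) * B) + 2 * (W * B) := by ring
        rw [e7]; linarith
    _ ≤ _ := mul_le_mul_of_nonneg_right h8 hB0

end

open Finset

theorem majorant_pair {R M : ℕ} {w : ℕ → ℝ} {lam J ε X : ℝ} (hl : 1 ≤ lam)
    (hw : ∀ d ∈ DV R M, |w d| ≤ R)
    (hwJ : ∑ d ∈ DV R M, ∑ e ∈ DV R M, w d * w e / ((Nat.lcm d e : ℕ) : ℝ) = 1 / J)
    (hX : 0 < X) (hε : 0 ≤ ε) {ψ : ℝ → ℝ} (hψ : ContinuousOn ψ (Set.Icc X (lam * X)))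
    (hcorr : ∀ D E : ℕ, 1 ≤ D → D ≤ R ^ 2 → 1 ≤ E → E ≤ R ^ 2 →
      |(∫ x in X..(lam * X), HD D x * HD E (ψ x) / x) - 4 / (D * E) * Real.log lam| ≤ ε) :
    ∫ x in X..(lam * X), FM R M w x * FM R M w (ψ x) / x ≤ 4 / J ^ 2 * Real.log lam + (R : ℝ) ^ 8 * ε := by
  have hle : X ≤ lam * X := lam_le hl hX
  set T := DV R M ×ˢ DV R M with hT
  set c : ℕ × ℕ → ℝ := fun a => w a.1 * w a.2 with hc
  set L : ℕ × ℕ → ℕ := fun a => Nat.lcm a.1 a.2 with hL
  have hLb : ∀ a ∈ T, 1 ≤ L a ∧ L a ≤ R ^ 2 := by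
    intro a ha
    rw [hT, mem_product] at ha
    obtain ⟨_, k2, k3⟩ := mem_DV ha.1
    obtain ⟨_, l2, l3⟩ := mem_DV ha.2
    refine ⟨Nat.lcm_pos k2 l2, ?_⟩
    calc L a ≤ a.1 * a.2 := Nat.le_of_dvd (Nat.mul_pos k2 l2) (Nat.lcm_dvd_mul _ _)
      _ ≤ R * R := Nat.mul_le_mul k3 l3
      _ = R ^ 2 := (sq R).symm
  have hcb : ∀ a ∈ T, |c a| ≤ (R : ℝ) ^ 2 := by
    intro a ha
    rw [hT, mem_product] at ha
    simp only [hc]
    rw [abs_mul, sq]
    exact mul_le_mul (hw _ ha.1) (hw _ ha.2) (abs_nonneg _) (Nat.cast_nonneg _)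
  have hTc : (T.card : ℝ) ≤ (R : ℝ) ^ 2 := by
    rw [hT, card_product, sq]
    push_cast
    have h := card_DV R M
    have h' : ((DV R M).card : ℝ) ≤ R := by exact_mod_cast h
    exact mul_le_mul h' h' (Nat.cast_nonneg _) (Nat.cast_nonneg _)
  have hcont : ∀ D E : ℕ, ContinuousOn (fun x => HD D x * HD E (ψ x) / x)
      (Set.Icc X (lam * X)) := by
    intro D E
    refine ContinuousOn.div ?_ continuousOn_id (fun x hx => (hX.trans_le hx.1).ne')
    exact (HD_continuous D).continuousOn.mul ((HD_continuous E).comp_continuousOn hψ)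
  have hii : ∀ D E : ℕ, IntervalIntegrable (fun x => HD D x * HD E (ψ x) / x) volume X
      (lam * X) := fun D E => (hcont D E).intervalIntegrable_of_Icc hle
  have hexp : ∀ x : ℝ, FM R M w x * FM R M w (ψ x) / x =
      ∑ a ∈ T, ∑ b ∈ T, c a * c b * (HD (L a) x * HD (L b) (ψ x) / x) := by
    intro x
    rw [FM_prod, FM_prod, Finset.sum_mul_sum, Finset.sum_div]
    refine Finset.sum_congr rfl fun a _ => ?_
    rw [Finset.sum_div]
    refine Finset.sum_congr rfl fun b _ => ?_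
    simp only [hc, hL]
    ring
  have hint : ∫ x in X..(lam * X), FM R M w x * FM R M w (ψ x) / x =
      ∑ a ∈ T, ∑ b ∈ T, c a * c b * ∫ x in X..(lam * X), HD (L a) x * HD (L b) (ψ x) / x := by
    simp only [hexp]
    rw [intervalIntegral.integral_finsetSum]
    · refine Finset.sum_congr rfl fun a _ => ?_
      rw [intervalIntegral.integral_finsetSum]
      · refine Finset.sum_congr rfl fun b _ => ?_
        rw [intervalIntegral.integral_const_mul]
      · intro b _
        exact (hii _ _).const_mul _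
    · intro a _
      have h0 := IntervalIntegrable.sum T (f := fun b x => c a * c b * (HD (L a) x * HD (L b) (ψ x) / x))
        (fun b _ => (hii (L a) (L b)).const_mul (c a * c b))
      have e0 : (∑ b ∈ T, fun x => c a * c b * (HD (L a) x * HD (L b) (ψ x) / x)) =
          fun x => ∑ b ∈ T, c a * c b * (HD (L a) x * HD (L b) (ψ x) / x) := by
        funext x; rw [Finset.sum_apply]
      rw [← e0]; exact h0
  have hmain : ∑ a ∈ T, ∑ b ∈ T, c a * c b * (4 / (((L a : ℕ) : ℝ) * ((L b : ℕ) : ℝ)) * Real.log lam) = 4 / J ^ 2 * Real.log lam := by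
    have h1 : ∑ a ∈ T, c a / ((L a : ℕ) : ℝ) = 1 / J := by
      rw [← hwJ, hT, Finset.sum_product]
    have h2 : ∑ a ∈ T, ∑ b ∈ T, c a * c b * (4 / (((L a : ℕ) : ℝ) * ((L b : ℕ) : ℝ)) * Real.log lam) =
        4 * Real.log lam * ((∑ a ∈ T, c a / ((L a : ℕ) : ℝ)) * (∑ b ∈ T, c b / ((L b : ℕ) : ℝ))) := by
      rw [Finset.sum_mul_sum, Finset.mul_sum]
      refine Finset.sum_congr rfl fun a _ => ?_
      rw [Finset.mul_sum]
      refine Finset.sum_congr rfl fun b _ => ?_
      ring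
    rw [h2, h1]
    ring
  rw [hint]
  have hdiff : (∑ a ∈ T, ∑ b ∈ T, c a * c b * ∫ x in X..(lam * X), HD (L a) x * HD (L b) (ψ x) / x) -
      ∑ a ∈ T, ∑ b ∈ T, c a * c b * (4 / (((L a : ℕ) : ℝ) * ((L b : ℕ) : ℝ)) * Real.log lam) ≤ (R : ℝ) ^ 8 * ε := by
    rw [← Finset.sum_sub_distrib]
    have h1 : ∀ a ∈ T, (∑ b ∈ T, c a * c b * ∫ x in X..(lam * X), HD (L a) x * HD (L b) (ψ x) / x) -
        ∑ b ∈ T, c a * c b * (4 / (((L a : ℕ) : ℝ) * ((L b : ℕ) : ℝ)) * Real.log lam) ≤ (R : ℝ) ^ 2 * ((R : ℝ) ^ 4 * ε) := by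
      intro a ha
      rw [← Finset.sum_sub_distrib]
      have h2 : ∀ b ∈ T, c a * c b * (∫ x in X..(lam * X), HD (L a) x * HD (L b) (ψ x) / x) -
          c a * c b * (4 / (((L a : ℕ) : ℝ) * ((L b : ℕ) : ℝ)) * Real.log lam) ≤ (R : ℝ) ^ 4 * ε := by
        intro b hb
        rw [← mul_sub]
        refine (le_abs_self _).trans ?_
        rw [abs_mul, abs_mul]
        have h3 := hcorr (L a) (L b) (hLb a ha).1 (hLb a ha).2 (hLb b hb).1 (hLb b hb).2
        calc |c a| * |c b| * _ ≤ ((R : ℝ) ^ 2 * (R : ℝ) ^ 2) * ε := by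
              refine mul_le_mul (mul_le_mul (hcb a ha) (hcb b hb) (abs_nonneg _) (by positivity)) h3
                (abs_nonneg _) (by positivity)
          _ = _ := by ring
      calc _ ≤ ∑ b ∈ T, (R : ℝ) ^ 4 * ε := Finset.sum_le_sum h2
        _ = T.card * ((R : ℝ) ^ 4 * ε) := by rw [Finset.sum_const, nsmul_eq_mul]
        _ ≤ _ := mul_le_mul_of_nonneg_right hTc (by positivity)
    calc _ ≤ ∑ a ∈ T, (R : ℝ) ^ 2 * ((R : ℝ) ^ 4 * ε) := Finset.sum_le_sum h1
      _ = T.card * ((R : ℝ) ^ 2 * ((R : ℝ) ^ 4 * ε)) := by rw [Finset.sum_const, nsmul_eq_mul]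
      _ ≤ (R : ℝ) ^ 2 * ((R : ℝ) ^ 2 * ((R : ℝ) ^ 4 * ε)) :=
          mul_le_mul_of_nonneg_right hTc (by positivity)
      _ = _ := by ring
  linarith

/-- the joint sieve in logarithmic scale -/
theorem joint_sift_log {R M : ℕ} (hR : 1 ≤ R) (hM : M ≠ 0) {ε Y Λ : ℝ} (hε : 0 ≤ ε) (hΛ : 0 ≤ Λ)
    {ψ : ℝ → ℝ} (hψ : ContinuousOn ψ (Set.Icc (Real.exp Y) (Real.exp Λ * Real.exp Y)))
    (hcorr : ∀ D E : ℕ, 1 ≤ D → D ≤ R ^ 2 → 1 ≤ E → E ≤ R ^ 2 →
      |(∫ x in (Real.exp Y)..(Real.exp Λ * Real.exp Y), HD D x * HD E (ψ x) / x) - 4 / (D * E) * Real.log (Real.exp Λ)| ≤ ε)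
    {f : ℝ → ℝ} (hf : IntegrableOn f (Set.Ioc Y (Y + Λ)))
    (hf1 : ∀ y ∈ Set.Ioc Y (Y + Λ), f y ≤ 1)
    (hf0 : ∀ y ∈ Set.Ioc Y (Y + Λ), 0 < f y → ∃ N N' : ℕ, (N : ℝ) < Real.exp y ∧ Real.exp y ≤ N + 1 ∧
      (N' : ℝ) < ψ (Real.exp y) ∧ ψ (Real.exp y) ≤ N' + 1 ∧
      ∀ l : ℕ, l.Prime → l ≤ R → ¬ l ∣ M → ¬ l ∣ N ∧ ¬ l ∣ N') :
    ∃ J : ℝ, 0 < J ∧ Real.log (R + 1) ≤ 2 * ((M : ℝ) / (Nat.totient M : ℝ)) * J ∧
      ∫ y in Set.Ioc Y (Y + Λ), f y ≤ 4 / J ^ 2 * Λ + (R : ℝ) ^ 8 * ε := by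
  obtain ⟨w, J, hw1, hwb, hwJ, hJ0, hJlog⟩ := weights R M hR hM
  refine ⟨J, hJ0, hJlog, ?_⟩
  have hX := Real.exp_pos Y
  have hle : Real.exp Y ≤ Real.exp Λ * Real.exp Y := lam_le (Real.one_le_exp hΛ) hX
  have hmp := majorant_pair (Real.one_le_exp hΛ) hwb hwJ hX hε hψ hcorr
  rw [Real.log_exp] at hmp
  refine le_trans ?_ hmp
  set Φ : ℝ → ℝ := fun x => FM R M w x * FM R M w (ψ x) with hΦ
  have hFMc : Continuous (FM R M w) := by
    unfold FM
    refine continuous_finsetSum _ fun d _ => continuous_finsetSum _ fun e _ => ?_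
    exact continuous_const.mul (HD_continuous _)
  have hΦc : ContinuousOn Φ (Set.Icc (Real.exp Y) (Real.exp Λ * Real.exp Y)) :=
    hFMc.continuousOn.mul (hFMc.comp_continuousOn hψ)
  have hgc : ContinuousOn (fun x => Φ x / x) (Set.Icc (Real.exp Y) (Real.exp Λ * Real.exp Y)) :=
    hΦc.div continuousOn_id (fun x hx => (hX.trans_le hx.1).ne')
  have hmap : Real.exp '' (Set.uIcc Y (Y + Λ)) ⊆ Set.Icc (Real.exp Y) (Real.exp Λ * Real.exp Y) := by
    rintro _ ⟨y, hy, rfl⟩
    rw [Set.uIcc_of_le (by linarith)] at hy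
    refine ⟨Real.exp_le_exp.2 hy.1, ?_⟩
    rw [← Real.exp_add]
    exact Real.exp_le_exp.2 (by linarith [hy.2])
  have hcov : ∫ y in Y..(Y + Λ), Φ (Real.exp y) =
      ∫ x in (Real.exp Y)..(Real.exp Λ * Real.exp Y), Φ x / x := by
    have h1 := intervalIntegral.integral_comp_mul_deriv' (a := Y) (b := Y + Λ) (f := Real.exp)
      (f' := Real.exp) (g := fun x => Φ x / x) (fun x _ => Real.hasDerivAt_exp x)
      Real.continuous_exp.continuousOn (hgc.mono hmap)
    have h2 : Real.exp (Y + Λ) = Real.exp Λ * Real.exp Y := by rw [add_comm, Real.exp_add]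
    rw [h2] at h1
    rw [← h1]
    refine intervalIntegral.integral_congr fun y _ => ?_
    have := (Real.exp_pos y).ne'
    simp only [Function.comp]
    field_simp
  have hcontE : ContinuousOn (fun y => Φ (Real.exp y)) (Set.Icc Y (Y + Λ)) := by
    refine hΦc.comp Real.continuous_exp.continuousOn fun y hy => ?_
    exact hmap ⟨y, by rw [Set.uIcc_of_le (by linarith)]; exact hy, rfl⟩
  have hintE : IntegrableOn (fun y => Φ (Real.exp y)) (Set.Ioc Y (Y + Λ)) :=
    (hcontE.integrableOn_Icc).mono_set Set.Ioc_subset_Icc_self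
  change _ ≤ ∫ x in (Real.exp Y)..(Real.exp Λ * Real.exp Y), Φ x / x
  rw [← hcov, intervalIntegral.integral_of_le (by linarith)]
  refine setIntegral_mono_on hf hintE measurableSet_Ioc fun y hy => ?_
  by_cases h0 : 0 < f y
  · obtain ⟨N, N', k1, k2, k3, k4, k5⟩ := hf0 y hy h0
    have h1 := FM_ge_one (M := M) hR hw1 k1 k2 (fun l hl hlR hlM => (k5 l hl hlR hlM).1)
    have h2 := FM_ge_one (M := M) hR hw1 k3 k4 (fun l hl hlR hlM => (k5 l hl hlR hlM).2)
    calc f y ≤ 1 := hf1 y hy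
      _ = 1 * 1 := by ring
      _ ≤ _ := mul_le_mul h1 h2 zero_le_one (by linarith)
  · exact (not_lt.1 h0).trans (mul_nonneg (FM_nonneg _ _ _ _) (FM_nonneg _ _ _ _))


end Pool.Agent.V1193.PE.W
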