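import Pool.Agent.V1193.PE.H

set_option autoImplicit false

/-! Pairs of indices with prime values: short windows. -/

namespace Pool.Agent.V1193.PE

open Finset MeasureTheory Filter Topology
open Pool.Agent.W66V
open Pool.Agent.W66 (NN_bounds)
open Pool.Agent.W66X (ysh measurable_ysh pert8 exp_ysh exp_consts)
open Pool.Agent.H305R2 (NN measurable_NN)
open Pool.Agent.H447R2.ML (Sh sh_of)

lemma exp_small_mul {c a Λ : ℝ} (hc : 0 < c) (ha : 0 < a) (hΛ : 0 < Λ) :
    ∀ᶠ p : ℕ in atTop, a * Real.exp (-(c * p)) ≤ Λ * (1 / (p : ℝ)) ^ 2 := by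
  have h := Pool.Agent.V1193.FM.exp_small hc
  filter_upwards [h.eventually_lt_const (show 0 < Λ / a by positivity), eventually_ge_atTop 1]
    with p hp hp1
  have hp0 : (0 : ℝ) < p := by exact_mod_cast hp1
  rw [lt_div_iff₀ ha] at hp
  rw [one_div, inv_pow, ← div_eq_mul_inv, le_div_iff₀ (by positivity)]
  linarith

open Classical in
/-- the sieve bound in one window -/
theorem near_window_l {α κ C A : ℝ} (hα : 1 < α) (hκ0 : 0 ≤ κ) (hκ : κ < α) {g : ℕ → ℝ}
    (hg : ∀ p, |g p| ≤ C * κ ^ p) (hA : 1 ≤ A) (hAα : A < α)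
    (hdio : ∀ h a b : ℕ, 1 ≤ h → 1 ≤ a → 1 ≤ b → 1 ≤ |(a : ℝ) - b * α ^ h| * (A ^ h * (a + b)))
    : ∃ K : ℝ, 0 < K ∧ ∀ b0 Λ : ℝ, 0 < Λ → Λ ≤ 1 → ∀ᶠ p : ℕ in atTop, ∀ h : ℕ, 1 ≤ h → h ≤ p →
      ∀ Y : ℝ, Real.log α * p + (b0 - 1 / 2) ≤ Y →
      ∫ y in Set.Ioc Y (Y + Λ), pf y * pf (Real.log (α ^ h * Real.exp y + (g (p + h) - α ^ h * g p))) ≤
        K * Λ * (1 / (p : ℝ)) ^ 2 := by
  have hα0 : 0 < α := by linarith
  set L := Real.log α with hL
  have hLpos : 0 < L := Real.log_pos hα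
  set δ := L - Real.log A with hδ
  have hA0 : 0 < A := by linarith
  have hδ0 : 0 < δ := by
    have := Real.log_lt_log hA0 hAα
    rw [hδ]; linarith
  have hlA : 0 ≤ Real.log A := Real.log_nonneg hA
  have hδL : δ ≤ L := by rw [hδ]; linarith
  refine ⟨4 * (128 / δ) ^ 2 + 1, by positivity, fun b0 Λ hΛ hΛ1 => ?_⟩
  have hpert := pert8 hα0 hκ0 hκ hg (b0 - 1) 8
  obtain ⟨P2, hP2⟩ := eventually_atTop.1 hpert
  have hlarge : ∀ᶠ p : ℕ in atTop, (|b0| + 4) * 64 / (47 * L) < p :=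
    tendsto_natCast_atTop_atTop.eventually_gt_atTop _
  set a := (Z32 + 2) ^ 2 * Real.exp (-(b0 - 1 / 2) / 2) with ha
  have hZ0 := Z32_nonneg
  have ha0 : 0 < a := by positivity
  have hsm := exp_small_mul (c := 17 * δ / 64) (a := a) (Λ := Λ) (by positivity) ha0 hΛ
  filter_upwards [hsm, hlarge, eventually_ge_atTop P2, eventually_ge_atTop 2]
    with p hsmp hpl hpP2 hp2 h hh1 hhp Y hY
  have hp2' : (2 : ℝ) ≤ p := by exact_mod_cast hp2
  have hp0 : (0 : ℝ) < p := by linarith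
  have hb0abs := neg_abs_le b0
  have hb0abs' := le_abs_self b0
  have hbn := abs_nonneg b0
  rw [div_lt_iff₀ (by positivity)] at hpl
  set q := p + h with hq
  have hqr : (q : ℝ) = p + h := by rw [hq]; push_cast; rfl
  have hh0 : (0 : ℝ) ≤ h := Nat.cast_nonneg _
  set β := α ^ h with hβ
  have hβ1 : 1 ≤ β := one_le_pow₀ hα.le
  have hβ0 : 0 < β := by linarith
  have hβe : β = Real.exp (L * h) := by
    rw [hβ, hL, mul_comm, Real.exp_nat_mul, Real.exp_log hα0]
  set κ' := g q - β * g p with hκ'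
  set E0 := Real.exp (L * p + (b0 - 1)) with hE0
  have hE0pos : 0 < E0 := Real.exp_pos _
  have hkb : |κ'| ≤ β * E0 / 4 := by
    have h1 := hP2 p hpP2
    have h2 := hP2 q (by omega)
    push_cast at h1 h2
    have h3 : Real.exp (L * q + (b0 - 1)) = β * E0 := by
      rw [hβe, hE0, ← Real.exp_add, hqr]; ring_nf
    have h2' : |g q| ≤ β * E0 / 8 := by
      rw [← h3]; linarith
    have h4 : β * |g p| ≤ β * (E0 / 8) := mul_le_mul_of_nonneg_left (by linarith) hβ0.le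
    calc |κ'| ≤ |g q| + |β * g p| := abs_sub _ _
      _ = |g q| + β * |g p| := by rw [abs_mul, abs_of_pos hβ0]
      _ ≤ _ := by linarith
  have hEY : E0 ≤ Real.exp Y := Real.exp_le_exp.2 (by linarith)
  have hY0 : 0 ≤ Y := by
    have : (|b0| + 4) * 64 < p * (47 * L) := hpl
    have h1 : 0 < L * p := by positivity
    linarith
  have hX1 : 1 ≤ Real.exp Y := Real.one_le_exp hY0
  -- the sieve level
  set R := ⌊Real.exp (δ * p / 64)⌋₊ with hR
  have hexp1 : 1 ≤ Real.exp (δ * p / 64) := Real.one_le_exp (by positivity)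
  have hR1 : 1 ≤ R := by rw [hR, Nat.one_le_floor_iff]; exact hexp1
  have hRle : (R : ℝ) ≤ Real.exp (δ * p / 64) := Nat.floor_le (Real.exp_pos _).le
  have hRgt : Real.exp (δ * p / 64) ≤ R + 1 := (Nat.lt_floor_add_one _).le
  have hRz : (R : ℝ) ≤ Real.exp (L * p / 64) := by
    refine hRle.trans (Real.exp_le_exp.2 ?_)
    have := mul_le_mul_of_nonneg_right hδL hp0.le
    linarith
  set ε := (((R ^ 2 : ℕ) : ℝ) * (Z32 + 2)) ^ 2 *
      Real.sqrt (A ^ h * ((R ^ 2 : ℕ) : ℝ) ^ 3 / Real.exp Y) with hε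
  have hε0 : 0 ≤ ε := by positivity
  set f : ℝ → ℝ := fun y => pf y * pf (Real.log (β * Real.exp y + κ')) with hf
  have hAh : 1 ≤ A ^ h := one_le_pow₀ hA
  have hmeas : Measurable f := by
    refine measurable_pf.mul (measurable_pf.comp ?_)
    exact Real.measurable_log.comp ((Real.measurable_exp.const_mul _).add_const _)
  have hf0 : ∀ y, 0 ≤ f y := fun y => mul_nonneg (pf_nonneg _) (pf_nonneg _)
  have hf1 : ∀ y, f y ≤ 1 := fun y => mul_le_one₀ (pf_le_one _) (pf_nonneg _) (pf_le_one _)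
  obtain ⟨J, hJ0, hJ1, hJ2⟩ := W.joint_sift_log (R := R) (M := 1) hR1 one_ne_zero (ε := ε) (Y := Y) (Λ := Λ) hε0 hΛ.le
    (ψ := fun x => β * x + κ') (by fun_prop)
    (fun D E hD hD2 hE hE2 => W.corr_lin (lam := Real.exp Λ) (Real.one_le_exp hΛ.le) (Real.exp_le_exp.2 hΛ1) (Q := R ^ 2) (A := A ^ h) (β := β) (κ := κ') (X := Real.exp Y)
      (Nat.one_le_pow _ _ hR1) hAh hβ1 hX1 (fun a b ha hb => hdio h a b hh1 ha hb) hD hD2 hE hE2)
    (f := f)
    (by
      refine Measure.integrableOn_of_bounded (M := 1) (by simp) hmeas.aestronglyMeasurable ?_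
      refine Eventually.of_forall fun y => ?_
      rw [Real.norm_of_nonneg (hf0 y)]
      exact hf1 y)
    (fun y _ => hf1 y)
    (by
      intro y hy hfy
      have hgd : (NN y).Prime ∧ (NN (Real.log (β * Real.exp y + κ'))).Prime := by
        constructor
        · by_contra hc
          have h0 : pf y = 0 := by unfold pf; rw [if_neg hc]
          simp only [hf, h0, zero_mul] at hfy
          exact lt_irrefl _ hfy
        · by_contra hc
          have h0 : pf (Real.log (β * Real.exp y + κ')) = 0 := by unfold pf; rw [if_neg hc]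
          simp only [hf, h0, mul_zero] at hfy
          exact lt_irrefl _ hfy
      obtain ⟨g1, g3⟩ := hgd
      have hyY : Real.exp Y < Real.exp y := Real.exp_lt_exp.2 hy.1
      have hpos : 3 / 4 * (β * Real.exp y) ≤ β * Real.exp y + κ' := by
        have h1 := (abs_le.1 hkb).1
        have h2 : β * E0 ≤ β * Real.exp y := mul_le_mul_of_nonneg_left (by linarith) hβ0.le
        linarith
      have hψ0 : 0 < β * Real.exp y + κ' := by
        have := mul_pos hβ0 (Real.exp_pos y)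
        linarith
      obtain ⟨n1, n2⟩ := NN_bounds y
      obtain ⟨n3, n4⟩ := NN_bounds (Real.log (β * Real.exp y + κ'))
      rw [Real.exp_log hψ0] at n3 n4
      refine ⟨NN y, NN (Real.log (β * Real.exp y + κ')), n1, n2, n3, n4, fun l hl hlR _ => ?_⟩
      have hlz : (l : ℝ) ≤ Real.exp (L * p / 64) := by
        have : (l : ℝ) ≤ R := by exact_mod_cast hlR
        linarith
      have hsz := size_exp (u := L * p / 64) (v := Y) (by positivity) (by linarith)
      have hE := Real.exp_pos Y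
      constructor
      · intro hd
        rw [Nat.prime_dvd_prime_iff_eq hl g1] at hd
        rw [← hd] at n2
        linarith
      · intro hd
        rw [Nat.prime_dvd_prime_iff_eq hl g3] at hd
        rw [← hd] at n4
        have h2 : Real.exp Y < β * Real.exp y := by nlinarith [Real.exp_pos y]
        linarith)
  refine hJ2.trans ?_
  have hJ1' : Real.log (R + 1) ≤ 2 * 1 * J := by
    refine hJ1.trans (le_of_eq ?_)
    simp
  have hm := sieve_main hJ0 hδ0 (by omega) hRgt hJ1'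
  have he := err_bound (R := R) (Z := Z32) (δ := δ) (L := L) (a := a) (c := b0 - 1 / 2) (Y := Y) (A := A)
    (p := p) (h := h) hA (by rw [hδ]; ring) hRle hhp (by linarith) hZ0 ha
  have he2 : (R : ℝ) ^ 8 * ε ≤ Λ * (1 / (p : ℝ)) ^ 2 := he.trans hsmp
  calc 4 / J ^ 2 * Λ + (R : ℝ) ^ 8 * ε ≤ 4 * (128 / δ) ^ 2 * (1 / (p : ℝ)) ^ 2 * Λ +
        Λ * (1 / (p : ℝ)) ^ 2 := add_le_add (mul_le_mul_of_nonneg_right hm hΛ.le) he2
    _ = _ := by ring

/-- **Near pairs of prime values.** -/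
theorem near_prime_l {α κ C A : ℝ} (hα : 1 < α) (hκ0 : 0 ≤ κ) (hκ : κ < α) {g : ℕ → ℝ}
    (hg : ∀ p, |g p| ≤ C * κ ^ p) (hA : 1 ≤ A) (hAα : A < α)
    (hdio : ∀ h a b : ℕ, 1 ≤ h → 1 ≤ a → 1 ≤ b → 1 ≤ |(a : ℝ) - b * α ^ h| * (A ^ h * (a + b)))
    : ∃ K : ℝ, 0 < K ∧ ∀ b0 Λ : ℝ, 0 < Λ → Λ ≤ 1 → ∃ P : ℕ, ∀ p ≥ P, ∀ q : ℕ, p < q →
    q ≤ 2 * p → ∫ t in Set.Ioc b0 (b0 + Λ), pf (ysh α g p t) * pf (ysh α g q t) ≤
      K * Λ * (1 / (p : ℝ)) ^ 2 := by
  classical
  have hα0 : 0 < α := by linarith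
  set L := Real.log α with hL
  have hLpos : 0 < L := Real.log_pos hα
  obtain ⟨K1, hK1, hWall⟩ := near_window_l hα hκ0 hκ hg hA hAα hdio
  refine ⟨4 * K1, by positivity, fun b0 Λ hΛ hΛ1 => ?_⟩
  have hW := hWall b0 Λ hΛ hΛ1
  have hsh := sh_of hα0 hκ0 hκ hg b0 (b0 + 1)
  have hpert := pert8 hα0 hκ0 hκ hg b0 8
  obtain ⟨P, hP⟩ := eventually_atTop.1 (hW.and (hsh.and (hpert.and (eventually_ge_atTop 3))))
  refine ⟨P, fun p hp q hpq hq2 => ?_⟩
  obtain ⟨hWp, hshp, hpp, hp3⟩ := hP p hp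
  obtain ⟨_, hshq, hpq8, _⟩ := hP q (by omega)
  obtain ⟨h, rfl⟩ : ∃ h, q = p + h := ⟨q - p, by omega⟩
  have hh1 : 1 ≤ h := by omega
  have hhp : h ≤ p := by omega
  have hp3' : (3 : ℝ) ≤ p := by exact_mod_cast hp3
  have hp0 : (0 : ℝ) < p := by linarith
  set G : ℝ → ℝ := fun y => pf y *
    pf (Real.log (α ^ h * Real.exp y + (g (p + h) - α ^ h * g p))) with hG
  have hGm : Measurable G := by
    refine measurable_pf.mul (measurable_pf.comp ?_)
    exact Real.measurable_log.comp ((Real.measurable_exp.const_mul _).add_const _)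
  have hG0 : ∀ y, 0 ≤ G y := fun y => mul_nonneg (pf_nonneg _) (pf_nonneg _)
  have hG1 : ∀ y, G y ≤ 1 := fun y => mul_le_one₀ (pf_le_one _) (pf_nonneg _) (pf_le_one _)
  -- the relation between the two phases
  have hrel : ∀ t ∈ Set.Ioc b0 (b0 + Λ), ysh α g (p + h) t =
      Real.log (α ^ h * Real.exp (ysh α g p t) + (g (p + h) - α ^ h * g p)) := by
    intro t ht
    rw [(exp_ysh hα0 hpp ht.1.le).1]
    unfold ysh
    congr 1
    rw [pow_add]
    ring
  have hstep : ∫ t in Set.Ioc b0 (b0 + Λ), pf (ysh α g p t) * pf (ysh α g (p + h) t) =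
        ∫ t in Set.Ioc b0 (b0 + Λ), G (ysh α g p t) := by
    refine setIntegral_congr_fun measurableSet_Ioc fun t ht => ?_
    simp only [hG]
    rw [hrel t ht]
  -- the main part
  have hrange := sh_range hshp hp3
  have r0 := (hrange b0 ⟨le_rfl, by linarith⟩).1
  have hmvt := (hshp.mvt (s := b0) (t := b0 + Λ) le_rfl (by linarith) (by linarith)).2
  have h3p : 1 / (p : ℝ) ≤ 1 := by rw [div_le_one hp0]; linarith
  set Y := ysh α g p b0 with hY
  have hr0 : Real.log α * p + (b0 - 1 / 2) ≤ Y := r0.le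
  have hlen : ysh α g p (b0 + Λ) ≤ Y + 2 * Λ := by
    have h5 : ysh α g p (b0 + Λ) - Y ≤ (1 + 1 / p) * (b0 + Λ - b0) := hmvt
    nlinarith
  have hw1 := hWp h hh1 hhp Y hr0
  have hw2 := hWp h hh1 hhp (Y + Λ) (by linarith)
  have hcov := (Sh.cov hshp hp3 (s := b0) (t := b0 + Λ) le_rfl (by linarith) (by linarith)
      (F := G) hGm hG0 hG1).1
  have hGint : ∀ u v : ℝ, IntegrableOn G (Set.Ioc u v) := by
    intro u v
    refine Measure.integrableOn_of_bounded (M := 1) (by simp) hGm.aestronglyMeasurable ?_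
    refine Eventually.of_forall fun t => ?_
    rw [Real.norm_eq_abs, abs_of_nonneg (hG0 _)]
    exact hG1 _
  set w := 1 / (p : ℝ) with hw
  have hmain : ∫ u in Set.Ioc Y (ysh α g p (b0 + Λ)), G u ≤ 2 * K1 * Λ * w ^ 2 := by
    have hsub : Set.Ioc Y (ysh α g p (b0 + Λ)) ⊆ Set.Ioc Y (Y + Λ) ∪ Set.Ioc (Y + Λ) (Y + Λ + Λ) := by
      intro u hu
      rcases le_or_gt u (Y + Λ) with hc | hc
      · exact Or.inl ⟨hu.1, hc⟩
      · exact Or.inr ⟨hc, by linarith [hu.2]⟩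
    calc ∫ u in Set.Ioc Y (ysh α g p (b0 + Λ)), G u ≤
          ∫ u in Set.Ioc Y (Y + Λ) ∪ Set.Ioc (Y + Λ) (Y + Λ + Λ), G u := by
          refine setIntegral_mono_set ((hGint _ _).union (hGint _ _)) ?_ ?_
          · exact Eventually.of_forall hG0
          · exact (LE.le.eventuallyLE hsub)
      _ = (∫ u in Set.Ioc Y (Y + Λ), G u) + ∫ u in Set.Ioc (Y + Λ) (Y + Λ + Λ), G u := by
          refine setIntegral_union ?_ measurableSet_Ioc (hGint _ _) (hGint _ _)
          rw [Set.disjoint_left]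
          intro u hu1 hu2
          exact absurd hu1.2 (not_le.2 hu2.1)
      _ ≤ K1 * Λ * w ^ 2 + K1 * Λ * w ^ 2 := add_le_add hw1 hw2
      _ = _ := by ring
  have hGnn : 0 ≤ ∫ t in Set.Ioc b0 (b0 + Λ), G (ysh α g p t) := integral_nonneg fun t => hG0 _
  have h4 : w ≤ 1 / 2 := one_div_le_one_div_of_le (by norm_num) (by linarith)
  have h5 := mul_le_mul_of_nonneg_right (show 1 / 2 ≤ 1 - w by linarith) hGnn
  have h6 : (1 - w) * ∫ t in Set.Ioc b0 (b0 + Λ), G (ysh α g p t) ≤ 2 * K1 * Λ * w ^ 2 :=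
    le_trans hcov hmain
  rw [hstep]
  linarith

end Pool.Agent.V1193.PE
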