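import Pool.Agent.V1193.PE.J

set_option autoImplicit false

/-! A lower bound for the mass of the primes in windows of exponentially small length. -/

namespace Pool.Agent.V1193.PE

open Finset MeasureTheory Filter Topology
open Pool.Agent.W66 (NN_bounds)
open Pool.Agent.H305R2 (NN measurable_NN mem_Ioc_log)

/-- primes in short intervals (positive proportion) -/
def Hoh : Prop := ∃ δ η : ℝ, 0 < δ ∧ δ < 1 ∧ 0 < η ∧ ∃ X₀ : ℕ, 2 ≤ X₀ ∧
  ∀ X Y : ℕ, X₀ ≤ X → (X : ℝ) ^ (1 - δ) ≤ Y → Y ≤ X →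
    η * Y / Real.log X ≤ (((Ioc X (X + Y)).filter Nat.Prime).card : ℝ)

/-- the mass in a union of cells -/
lemma cells (d : ℕ) {N0 Y : ℕ} (hN0 : 1 ≤ N0) :
    (((Ioc (N0 + d) (N0 + d + Y)).filter Nat.Prime).card : ℝ) * (1 / ((N0 + Y + 1 : ℕ) : ℝ)) ≤
      ∫ t in Set.Ioc (Real.log (N0 : ℝ)) (Real.log ((N0 + Y + 1 : ℕ) : ℝ)), Pd d t := by
  classical
  have hmon : ∀ N : ℕ, N0 ≤ N → Real.log (N : ℝ) ≤ Real.log ((N + 1 : ℕ) : ℝ) := by
    intro N hN
    have : (1 : ℝ) ≤ N := by exact_mod_cast hN0.trans hN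
    exact Real.log_le_log (by linarith) (by push_cast; linarith)
  have hiiF : ∀ N ∈ Set.Ico N0 (N0 + Y + 1), IntervalIntegrable (fun t => Pd d t) volume
      (Real.log (N : ℝ)) (Real.log ((N + 1 : ℕ) : ℝ)) := by
    intro N hN
    rw [intervalIntegrable_iff_integrableOn_Ioc_of_le (hmon N hN.1)]
    exact Pd_int d _ _
  have hsumF := intervalIntegral.sum_integral_adjacent_intervals_Ico
    (a := fun N : ℕ => Real.log (N : ℝ)) (m := N0) (n := N0 + Y + 1) (by omega) hiiF
  have h01 : Real.log (N0 : ℝ) ≤ Real.log ((N0 + Y + 1 : ℕ) : ℝ) := by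
    have : (1 : ℝ) ≤ N0 := by exact_mod_cast hN0
    exact Real.log_le_log (by linarith) (by push_cast; linarith [(Nat.cast_nonneg Y : (0 : ℝ) ≤ Y)])
  rw [intervalIntegral.integral_of_le h01] at hsumF
  have hcell : ∀ N ∈ Finset.Ico N0 (N0 + Y + 1),
      (if (N + d).Prime then (1 : ℝ) else 0) * (1 / ((N0 + Y + 1 : ℕ) : ℝ)) ≤
        ∫ t in (Real.log (N : ℝ))..(Real.log ((N + 1 : ℕ) : ℝ)), Pd d t := by
    intro N hN
    rw [Finset.mem_Ico] at hN
    have hNp : 1 ≤ N := hN0.trans hN.1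
    have hN1 : (1 : ℝ) ≤ N := by exact_mod_cast hNp
    rw [intervalIntegral.integral_of_le (hmon N hN.1)]
    set s : ℝ := if (N + d).Prime then 1 else 0 with hs
    have hs0 : 0 ≤ s := by rw [hs]; split_ifs <;> norm_num
    have e4 : ∫ t in Set.Ioc (Real.log (N : ℝ)) (Real.log ((N + 1 : ℕ) : ℝ)), Pd d t =
        s * (Real.log ((N + 1 : ℕ) : ℝ) - Real.log N) := by
      have : ∫ t in Set.Ioc (Real.log (N : ℝ)) (Real.log ((N + 1 : ℕ) : ℝ)), Pd d t =
          ∫ t in Set.Ioc (Real.log (N : ℝ)) (Real.log ((N + 1 : ℕ) : ℝ)), s :=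
        setIntegral_congr_fun measurableSet_Ioc fun t ht => val d hNp ht
      rw [this, setIntegral_const, smul_eq_mul, Real.volume_real_Ioc_of_le (hmon N hN.1)]
      ring
    rw [e4]
    refine mul_le_mul_of_nonneg_left ?_ hs0
    have h1 : 1 - (((N + 1 : ℕ) : ℝ) / N)⁻¹ ≤ Real.log (((N + 1 : ℕ) : ℝ) / N) :=
      Real.one_sub_inv_le_log_of_pos (by positivity)
    rw [Real.log_div (by positivity) (by positivity), inv_div] at h1
    have h2 : 1 - (N : ℝ) / ((N + 1 : ℕ) : ℝ) = 1 / ((N + 1 : ℕ) : ℝ) := by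
      field_simp
      push_cast
      ring
    rw [h2] at h1
    refine le_trans ?_ h1
    refine one_div_le_one_div_of_le (by positivity) ?_
    exact_mod_cast (by omega : N + 1 ≤ N0 + Y + 1)
  rw [← hsumF]
  refine le_trans ?_ (Finset.sum_le_sum hcell)
  rw [← Finset.sum_mul]
  refine mul_le_mul_of_nonneg_right ?_ (by positivity)
  rw [← Finset.sum_filter, Finset.sum_const, nsmul_eq_mul, mul_one]
  have hc : ((Ioc (N0 + d) (N0 + d + Y)).filter Nat.Prime).card ≤
      ((Ico N0 (N0 + Y + 1)).filter (fun N => (N + d).Prime)).card := by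
    refine Finset.card_le_card_of_injOn (fun P => P - d) ?_ ?_
    · intro P hP
      have hP' := Finset.mem_filter.1 (Finset.mem_coe.1 hP)
      rw [Finset.mem_Ioc] at hP'
      refine Finset.mem_coe.2 (Finset.mem_filter.2 ⟨Finset.mem_Ico.2 ⟨?_, ?_⟩, ?_⟩)
      · show N0 ≤ P - d
        omega
      · show P - d < N0 + Y + 1
        omega
      · show (P - d + d).Prime
        rw [Nat.sub_add_cancel (by omega)]
        exact hP'.2
    · intro P hP P' hP' h
      have h1 := Finset.mem_filter.1 (Finset.mem_coe.1 hP)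
      have h2 := Finset.mem_filter.1 (Finset.mem_coe.1 hP')
      rw [Finset.mem_Ioc] at h1 h2
      have h3 : P - d = P' - d := h
      omega
  exact_mod_cast hc

/-- the mass in exponentially small windows -/
theorem mass_low (hoh : Hoh) (d : ℕ) : ∃ κ2 η' : ℝ, 0 < κ2 ∧ 0 < η' ∧ ∀ᶠ u : ℝ in atTop, ∀ Λ : ℝ,
    Real.exp (-(κ2 * u)) ≤ Λ → Λ ≤ 1 → η' * Λ / u ≤ ∫ t in Set.Ioc u (u + Λ), Pd d t := by
  obtain ⟨δ, η, hδ0, hδ1, hη, X₀, hX₀, hX⟩ := hoh
  refine ⟨δ / 2, η / 24, by positivity, by positivity, ?_⟩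
  have hexp : Tendsto (fun u : ℝ => Real.exp (δ / 2 * u)) atTop atTop :=
    Real.tendsto_exp_atTop.comp (tendsto_id.const_mul_atTop (by positivity))
  have hexp1 : Tendsto (fun u : ℝ => Real.exp u) atTop atTop := Real.tendsto_exp_atTop
  filter_upwards [hexp.eventually_ge_atTop 16, hexp1.eventually_ge_atTop ((X₀ : ℝ) + d + 4),
    eventually_ge_atTop (4 : ℝ)] with u h16 hE hu4 Λ hΛe hΛ1
  have hΛ : 0 < Λ := lt_of_lt_of_le (Real.exp_pos _) hΛe
  set E := Real.exp u with hEdef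
  have hd0 : (0 : ℝ) ≤ d := Nat.cast_nonneg d
  have hX0r : (2 : ℝ) ≤ X₀ := by exact_mod_cast hX₀
  have hE6 : 6 ≤ E := by linarith
  have hE0 : 0 < E := by linarith
  have hEΛ : E * Real.exp (-(δ / 2 * u)) ≤ E * Λ := mul_le_mul_of_nonneg_left hΛe hE0.le
  have hEe : E * Real.exp (-(δ / 2 * u)) = Real.exp ((1 - δ / 2) * u) := by
    rw [hEdef, ← Real.exp_add]; ring_nf
  have hgrow : Real.exp (δ / 2 * u) ≤ Real.exp ((1 - δ / 2) * u) :=
    Real.exp_le_exp.2 (by nlinarith)
  have hEΛ16 : 16 ≤ E * Λ := by linarith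
  set N0 := ⌈E⌉₊ with hN0
  set Y := ⌊E * Λ / 2⌋₊ with hY
  have hN0l : E ≤ N0 := Nat.le_ceil _
  have hN0u : (N0 : ℝ) < E + 1 := Nat.ceil_lt_add_one hE0.le
  have hN0p : 1 ≤ N0 := by
    have : (1 : ℝ) ≤ N0 := by linarith
    exact_mod_cast this
  have hYu : (Y : ℝ) ≤ E * Λ / 2 := Nat.floor_le (by positivity)
  have hYl : E * Λ / 4 ≤ Y := by
    have := Nat.lt_floor_add_one (E * Λ / 2)
    linarith
  have hYN : (Y : ℝ) ≤ N0 + d := by nlinarith
  set X := N0 + d with hXdef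
  have hXr : (X : ℝ) = N0 + d := by rw [hXdef]; push_cast; ring
  have hXu : (X : ℝ) ≤ 2 * E := by rw [hXr]; linarith
  have hX1 : (1 : ℝ) < X := by rw [hXr]; linarith
  have hcount := hX X Y (by
    have : (X₀ : ℝ) ≤ X := by rw [hXr]; linarith
    exact_mod_cast this) (by
      refine le_trans ?_ hYl
      calc (X : ℝ) ^ (1 - δ) ≤ (2 * E) ^ (1 - δ) :=
            Real.rpow_le_rpow (by positivity) hXu (by linarith)
        _ = 2 ^ (1 - δ) * E ^ (1 - δ) := Real.mul_rpow (by norm_num) hE0.le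
        _ ≤ 2 * Real.exp ((1 - δ) * u) := by
            have h1 : (2 : ℝ) ^ (1 - δ) ≤ 2 := by
              calc (2 : ℝ) ^ (1 - δ) ≤ 2 ^ (1 : ℝ) :=
                    Real.rpow_le_rpow_of_exponent_le (by norm_num) (by linarith)
                _ = 2 := Real.rpow_one 2
            have h2 : E ^ (1 - δ) = Real.exp ((1 - δ) * u) := by
              rw [hEdef, ← Real.exp_mul, mul_comm]
            rw [h2]
            exact mul_le_mul_of_nonneg_right h1 (Real.exp_pos _).le
        _ ≤ E * Λ / 4 := by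
            have h3 : Real.exp ((1 - δ / 2) * u) = Real.exp ((1 - δ) * u) * Real.exp (δ / 2 * u) := by
              rw [← Real.exp_add]; ring_nf
            have h4 : Real.exp ((1 - δ) * u) * 16 ≤ Real.exp ((1 - δ) * u) * Real.exp (δ / 2 * u) :=
              mul_le_mul_of_nonneg_left h16 (Real.exp_pos _).le
            have h5 := Real.exp_pos ((1 - δ) * u)
            linarith) (by
      have : (Y : ℝ) ≤ X := by rw [hXr]; exact hYN
      exact_mod_cast this)
  have hlogX : Real.log X ≤ 2 * u := by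
    calc Real.log X ≤ Real.log (2 * E) := Real.log_le_log (by linarith) hXu
      _ = Real.log 2 + u := by rw [Real.log_mul (by norm_num) hE0.ne', hEdef, Real.log_exp]
      _ ≤ 2 * u := by
        have := Real.log_two_lt_d9
        linarith
  have hlogX0 : 0 < Real.log X := Real.log_pos hX1
  have hcells := cells d (N0 := N0) (Y := Y) hN0p
  have hlo : u ≤ Real.log (N0 : ℝ) := by
    rw [Real.le_log_iff_exp_le (by linarith)]
    exact hN0l
  have hN1 : ((N0 + Y + 1 : ℕ) : ℝ) ≤ E * Real.exp Λ := by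
    have h1 := Real.add_one_le_exp Λ
    have h2 : E * (Λ + 1) ≤ E * Real.exp Λ := mul_le_mul_of_nonneg_left h1 hE0.le
    push_cast
    nlinarith
  have hhi : Real.log ((N0 + Y + 1 : ℕ) : ℝ) ≤ u + Λ := by
    rw [Real.log_le_iff_le_exp (by positivity), Real.exp_add]
    exact hN1
  have hsub : ∫ t in Set.Ioc (Real.log (N0 : ℝ)) (Real.log ((N0 + Y + 1 : ℕ) : ℝ)), Pd d t ≤
      ∫ t in Set.Ioc u (u + Λ), Pd d t :=
    setIntegral_mono_set (Pd_int _ _ _) (Eventually.of_forall fun t => Pd_nonneg _ t)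
      (Set.Ioc_subset_Ioc hlo hhi).eventuallyLE
  refine le_trans ?_ (hcells.trans hsub)
  have hN1' : ((N0 + Y + 1 : ℕ) : ℝ) ≤ 3 * E := by
    push_cast
    nlinarith
  have hu0 : 0 < u := by linarith
  calc η / 24 * Λ / u = (η * (E * Λ / 4) / (2 * u)) * (1 / (3 * E)) := by
        field_simp
        norm_num
    _ ≤ (η * Y / Real.log X) * (1 / ((N0 + Y + 1 : ℕ) : ℝ)) := by
        refine mul_le_mul ?_ (one_div_le_one_div_of_le (by positivity) hN1') (by positivity)
          (by positivity)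
        exact div_le_div₀ (by positivity) (mul_le_mul_of_nonneg_left hYl hη.le) hlogX0 hlogX
    _ ≤ _ := mul_le_mul_of_nonneg_right hcount (by positivity)

end Pool.Agent.V1193.PE
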