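import Pool.Agent.V1193.PE.L
import Pool.Agent.V1193.PE.M

set_option autoImplicit false

/-! A block of indices contains a prime value with positive probability, in small windows. -/

namespace Pool.Agent.V1193.PE

open Finset MeasureTheory Filter Topology
open Pool.Agent.W66 (NN_bounds)
open Pool.Agent.W66X (ysh measurable_ysh)
open Pool.Agent.H305R2 (NN measurable_NN mem_Ioc_log)

/-- near pairs of indices in exponentially small windows -/
theorem pair_u {α : ℝ} (hα : 1 < α) (hdio : Dio α) (d : ℕ) :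
    ∃ K κ1 : ℝ, 0 < K ∧ 0 < κ1 ∧ ∀ b0 : ℝ, ∃ P : ℕ, ∀ p ≥ P, ∀ q : ℕ, p < q → q ≤ 2 * p →
      ∀ s Λ : ℝ, Real.exp (-(κ1 * p)) ≤ Λ → b0 ≤ s → s + Λ ≤ b0 + 1 →
      ∫ t in Set.Ioc s (s + Λ), Pd (d + 1) (p * Real.log α + t) * Pd (d + 1) (q * Real.log α + t) ≤
        K * Λ * (1 / (p : ℝ)) ^ 2 := by
  have hα0 : 0 < α := by linarith
  obtain ⟨K, κ1, hK, hκ1, h⟩ := near_prime_u (κ := 1) (C := ((d + 1 : ℕ) : ℝ)) (A := 1) hα zero_le_one hα
    (g := fun _ => ((d + 1 : ℕ) : ℝ)) (fun p => by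
      rw [one_pow, mul_one, abs_of_nonneg (Nat.cast_nonneg _)]) le_rfl hα hdio
  refine ⟨K, κ1, hK, hκ1, fun b0 => ?_⟩
  obtain ⟨P, hP⟩ := h b0
  refine ⟨P, fun p hp q hpq hq s Λ h1 h2 h3 => ?_⟩
  have h6 := hP p hp q hpq hq s Λ h1 h2 h3
  simp only [pf_ysh hα0] at h6
  exact h6

lemma quad_nat (k : ℕ) : (3 * (k : ℝ) - (k : ℝ) ^ 2) / 2 ≤ if 1 ≤ k then 1 else 0 := by
  rcases Nat.eq_zero_or_pos k with h | h
  · subst h; simp
  · rw [if_pos (show 1 ≤ k from h)]
    have h1 : (1 : ℝ) ≤ k := by exact_mod_cast h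
    have h2 : (0 : ℝ) ≤ ((k : ℝ) - 1) * ((k : ℝ) - 2) := by
      rcases Nat.lt_or_ge k 2 with h3 | h3
      · have : k = 1 := by omega
        subst this; norm_num
      · have : (2 : ℝ) ≤ k := by exact_mod_cast h3
        nlinarith
    nlinarith

/-- Bonferroni -/
lemma bonf {ι : Type*} (B : Finset ι) (f : ι → ℝ → ℝ) (hm : ∀ i, Measurable (f i))
    (h01 : ∀ i t, f i t = 0 ∨ f i t = 1) {s v a b : ℝ} (hb : 0 ≤ b)
    (h1 : ∀ i ∈ B, a ≤ ∫ t in Set.Ioc s v, f i t)
    (h2 : ∀ i ∈ B, ∀ j ∈ B, i ≠ j → ∫ t in Set.Ioc s v, f i t * f j t ≤ b) :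
    B.card * a - (B.card : ℝ) ^ 2 * b / 2 ≤
      volume.real {t | t ∈ Set.Ioc s v ∧ ∃ i ∈ B, f i t = 1} := by
  classical
  have hf0 : ∀ i t, 0 ≤ f i t := fun i t => by rcases h01 i t with h | h <;> rw [h]; norm_num
  have hf1 : ∀ i t, f i t ≤ 1 := fun i t => by rcases h01 i t with h | h <;> rw [h]; norm_num
  have hint : ∀ i, IntegrableOn (f i) (Set.Ioc s v) := fun i => by
    refine Measure.integrableOn_of_bounded (M := 1) (by simp) (hm i).aestronglyMeasurable ?_
    refine Eventually.of_forall fun t => ?_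
    rw [Real.norm_of_nonneg (hf0 i t)]
    exact hf1 i t
  have hint2 : ∀ i j, IntegrableOn (fun t => f i t * f j t) (Set.Ioc s v) := fun i j => by
    refine Measure.integrableOn_of_bounded (M := 1) (by simp)
      ((hm i).mul (hm j)).aestronglyMeasurable ?_
    refine Eventually.of_forall fun t => ?_
    rw [Real.norm_of_nonneg (mul_nonneg (hf0 i t) (hf0 j t))]
    exact mul_le_one₀ (hf1 i t) (hf0 j t) (hf1 j t)
  set U : Set ℝ := {t | ∃ i ∈ B, f i t = 1} with hU
  have hUm : MeasurableSet U := by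
    have : U = ⋃ i ∈ B, {t | f i t = 1} := by ext t; simp [hU]
    rw [this]
    exact Finset.measurableSet_biUnion B fun i _ => hm i (measurableSet_singleton 1)
  have hpt : ∀ t, (∑ i ∈ B, f i t) - (∑ i ∈ B, ∑ j ∈ B, if i ≠ j then f i t * f j t else 0) / 2 ≤
      U.indicator (fun _ => (1 : ℝ)) t := by
    intro t
    set H := B.filter (fun i => f i t = 1) with hH
    have e1 : ∑ i ∈ B, f i t = (H.card : ℝ) := by
      rw [hH, Finset.card_filter]
      push_cast
      refine Finset.sum_congr rfl fun i _ => ?_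
      rcases h01 i t with h | h <;> rw [h] <;> norm_num
    have e2 : ∑ i ∈ B, ∑ j ∈ B, (if i ≠ j then f i t * f j t else 0) =
        (H.card : ℝ) ^ 2 - H.card := by
      have e3 : ∀ i ∈ B, ∑ j ∈ B, (if i ≠ j then f i t * f j t else 0) =
          f i t * (∑ j ∈ B, f j t) - f i t := by
        intro i hi
        have e4 : ∀ j ∈ B, (if i ≠ j then f i t * f j t else 0) =
            f i t * f j t - if i = j then f i t else 0 := by
          intro j _
          by_cases hij : i = j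
          · subst hij
            simp only [ne_eq, not_true_eq_false, if_false, if_true]
            rcases h01 i t with h | h <;> rw [h] <;> norm_num
          · simp [hij]
        rw [Finset.sum_congr rfl e4, Finset.sum_sub_distrib, ← Finset.mul_sum,
          Finset.sum_ite_eq, if_pos hi]
      rw [Finset.sum_congr rfl e3, Finset.sum_sub_distrib, ← Finset.sum_mul, e1]
      ring
    rw [e1, e2]
    have h3 := quad_nat H.card
    have h4 : (if 1 ≤ H.card then (1 : ℝ) else 0) ≤ U.indicator (fun _ => (1 : ℝ)) t := by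
      split_ifs with h5
      · obtain ⟨i, hi⟩ := Finset.card_pos.1 h5
        rw [hH, Finset.mem_filter] at hi
        rw [Set.indicator_of_mem (show t ∈ U from ⟨i, hi.1, hi.2⟩)]
      · exact Set.indicator_nonneg (fun _ _ => zero_le_one) t
    linarith
  have hmain := setIntegral_mono (μ := volume) (s := Set.Ioc s v)
    (f := fun t => (∑ i ∈ B, f i t) - (∑ i ∈ B, ∑ j ∈ B, if i ≠ j then f i t * f j t else 0) / 2)
    (g := U.indicator (fun _ => (1 : ℝ))) (by
      refine Integrable.sub (integrable_finsetSum _ fun i _ => hint i) (Integrable.div_const ?_ 2)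
      refine integrable_finsetSum _ fun i _ => integrable_finsetSum _ fun j _ => ?_
      by_cases hij : i ≠ j
      · simp only [if_pos hij]; exact hint2 i j
      · simp only [if_neg hij]; exact integrable_zero _ _ _)
    (by
      refine Measure.integrableOn_of_bounded (M := 1) (by simp)
        ((measurable_const.indicator hUm).aestronglyMeasurable) ?_
      refine Eventually.of_forall fun t => ?_
      by_cases ht : t ∈ U
      · rw [Set.indicator_of_mem ht]; simp
      · rw [Set.indicator_of_notMem ht]; simp) hpt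
  rw [integral_sub (integrable_finsetSum _ fun i _ => hint i) (by
      refine Integrable.div_const ?_ 2
      refine integrable_finsetSum _ fun i _ => integrable_finsetSum _ fun j _ => ?_
      by_cases hij : i ≠ j
      · simp only [if_pos hij]; exact hint2 i j
      · simp only [if_neg hij]; exact integrable_zero _ _ _), integral_div,
    integral_finsetSum _ (fun i _ => hint i)] at hmain
  rw [integral_finsetSum _ (fun i _ => by
      refine integrable_finsetSum _ fun j _ => ?_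
      by_cases hij : i ≠ j
      · simp only [if_pos hij]; exact hint2 i j
      · simp only [if_neg hij]; exact integrable_zero _ _ _)] at hmain
  have hR : ∫ t in Set.Ioc s v, U.indicator (fun _ => (1 : ℝ)) t =
      volume.real {t | t ∈ Set.Ioc s v ∧ ∃ i ∈ B, f i t = 1} := by
    rw [integral_indicator_const (1 : ℝ) hUm, smul_eq_mul, mul_one,
      measureReal_restrict_apply' measurableSet_Ioc]
    congr 1
    ext t
    exact and_comm
  rw [hR] at hmain
  refine le_trans ?_ hmain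
  have hs1 : (B.card : ℝ) * a ≤ ∑ i ∈ B, ∫ t in Set.Ioc s v, f i t := by
    rw [← nsmul_eq_mul]
    exact Finset.card_nsmul_le_sum B _ _ h1
  have hs2 : ∑ i ∈ B, ∫ t in Set.Ioc s v, (∑ j ∈ B, if i ≠ j then f i t * f j t else 0) ≤
      (B.card : ℝ) ^ 2 * b := by
    calc ∑ i ∈ B, ∫ t in Set.Ioc s v, (∑ j ∈ B, if i ≠ j then f i t * f j t else 0) ≤
          ∑ i ∈ B, (B.card : ℝ) * b := by
          refine Finset.sum_le_sum fun i hi => ?_
          rw [integral_finsetSum _ (fun j _ => by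
            by_cases hij : i ≠ j
            · simp only [if_pos hij]; exact hint2 i j
            · simp only [if_neg hij]; exact integrable_zero _ _ _), ← nsmul_eq_mul]
          refine Finset.sum_le_card_nsmul B _ _ fun j hj => ?_
          by_cases hij : i ≠ j
          · simp only [if_pos hij]; exact h2 i hi j hj hij
          · simp only [if_neg hij, integral_zero]; exact hb
      _ = _ := by
        rw [Finset.sum_const, nsmul_eq_mul]
        ring
  linarith

/-- **A block contains a prime value with positive probability in every small window.** -/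
theorem block {α : ℝ} (hα : 1 < α) (hdio : Dio α) (hoh : Hoh) (c : ℕ) :
    ∃ κ q : ℝ, 0 < κ ∧ 0 < q ∧ ∀ b0 : ℝ, ∃ M0 : ℕ, ∀ M ≥ M0, ∀ s Λ : ℝ,
      Real.exp (-(κ * M)) ≤ Λ → b0 ≤ s → s + Λ ≤ b0 + 1 →
      2 * q * Λ ≤ volume.real {t | t ∈ Set.Ioc s (s + Λ) ∧
        ∃ m ∈ Finset.Ico M (2 * M), Pd (c + 1) (m * Real.log α + t) = 1} := by
  set x := Real.log α with hx
  have hx0 : 0 < x := Real.log_pos hα
  obtain ⟨K, κ1, hK, hκ1, hpair⟩ := pair_u hα hdio c
  obtain ⟨κ2, η, hκ2, hη, hmass⟩ := mass_low hoh (c + 1)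
  obtain ⟨r, hr⟩ := exists_nat_gt (8 * x * K / η + 1)
  have hr1 : (1 : ℝ) < r := by
    have : 0 < 8 * x * K / η := by positivity
    linarith
  have hr0 : (0 : ℝ) < r := by linarith
  have hrn : 1 ≤ r := by exact_mod_cast hr1.le
  refine ⟨min κ1 (κ2 * x / 2), η / (32 * x * r), lt_min hκ1 (by positivity), by positivity,
    fun b0 => ?_⟩
  obtain ⟨P, hP⟩ := hpair b0
  obtain ⟨U, hU⟩ := eventually_atTop.1 hmass
  have t1 : ∀ᶠ M : ℕ in atTop, 2 * (|b0| + 1) / x ≤ (M : ℝ) :=
    tendsto_natCast_atTop_atTop.eventually_ge_atTop _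
  have t2 : ∀ᶠ M : ℕ in atTop, 2 * |U| / x ≤ (M : ℝ) :=
    tendsto_natCast_atTop_atTop.eventually_ge_atTop _
  obtain ⟨M0, hM0⟩ := eventually_atTop.1 (t1.and (t2.and ((eventually_ge_atTop P).and
    ((eventually_ge_atTop (2 * r)).and (eventually_ge_atTop 1)))))
  refine ⟨M0, fun M hM s Λ hΛe hs0 hs1 => ?_⟩
  obtain ⟨m1, m2, m3, m4, m5⟩ := hM0 M hM
  have hΛ : 0 < Λ := lt_of_lt_of_le (Real.exp_pos _) hΛe
  have hΛ1 : Λ ≤ 1 := by linarith
  have hM1 : (1 : ℝ) ≤ M := by exact_mod_cast m5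
  have hMr : (0 : ℝ) < M := by linarith
  rw [div_le_iff₀ hx0] at m1 m2
  set B := Finset.Ico M (M + M / r) with hB
  have hBM : ∀ m ∈ B, M ≤ m ∧ m < 2 * M := by
    intro m hm
    rw [hB, Finset.mem_Ico] at hm
    have : M / r ≤ M := Nat.div_le_self _ _
    omega
  have hcard : B.card = M / r := by rw [hB, Nat.card_Ico, Nat.add_sub_cancel_left]
  have hcu : ((M / r : ℕ) : ℝ) ≤ M / r := Nat.cast_div_le
  have hcl : (M : ℝ) / (2 * r) ≤ ((M / r : ℕ) : ℝ) := by
    have h1 : (M : ℝ) < (M / r : ℕ) * r + r := by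
      have := Nat.lt_div_mul_add (a := M) (b := r) (by omega)
      exact_mod_cast this
    have h2 : (2 * r : ℝ) ≤ M := by exact_mod_cast m4
    rw [div_le_iff₀ (by positivity)]
    nlinarith
  have hms : ∀ m ∈ B, (M : ℝ) * x / 2 ≤ m * x + s ∧ m * x + s ≤ 4 * x * M := by
    intro m hm
    obtain ⟨g1, g2⟩ := hBM m hm
    have g1' : (M : ℝ) ≤ m := by exact_mod_cast g1
    have g2' : (m : ℝ) ≤ 2 * M := by exact_mod_cast g2.le
    have := neg_abs_le b0
    have := le_abs_self b0
    constructor <;> nlinarith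
  have hone : ∀ m ∈ B, η * Λ / (4 * x * M) ≤
      ∫ t in Set.Ioc s (s + Λ), Pd (c + 1) (m * x + t) := by
    intro m hm
    obtain ⟨g1, g2⟩ := hms m hm
    rw [Pool.Agent.V1193.BP.shift_int (fun t => Pd (c + 1) t) (by linarith), ← add_assoc]
    have hU' : U ≤ m * x + s := by
      have := le_abs_self U
      linarith
    refine le_trans ?_ (hU (m * x + s) hU' Λ ?_ hΛ1)
    · have : 0 < m * x + s := lt_of_lt_of_le (by positivity) g1
      exact div_le_div_of_nonneg_left (by positivity) this g2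
    · refine le_trans (Real.exp_le_exp.2 ?_) hΛe
      have h1 : min κ1 (κ2 * x / 2) ≤ κ2 * x / 2 := min_le_right _ _
      have h2 : κ2 * (M * x / 2) ≤ κ2 * (m * x + s) := mul_le_mul_of_nonneg_left g1 hκ2.le
      have h3 : min κ1 (κ2 * x / 2) * M ≤ κ2 * x / 2 * M := mul_le_mul_of_nonneg_right h1 hMr.le
      nlinarith
  have htwo' : ∀ m ∈ B, ∀ n ∈ B, m < n →
      ∫ t in Set.Ioc s (s + Λ), Pd (c + 1) (m * x + t) * Pd (c + 1) (n * x + t) ≤
        K * Λ * (1 / (M : ℝ)) ^ 2 := by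
    intro m hm n hn hmn
    obtain ⟨g1, g2⟩ := hBM m hm
    obtain ⟨g3, g4⟩ := hBM n hn
    have g1' : (M : ℝ) ≤ m := by exact_mod_cast g1
    refine (hP m (by omega) n hmn (by omega) s Λ ?_ hs0 hs1).trans ?_
    · refine le_trans (Real.exp_le_exp.2 ?_) hΛe
      have h1 : min κ1 (κ2 * x / 2) ≤ κ1 := min_le_left _ _
      have h3 : min κ1 (κ2 * x / 2) * M ≤ κ1 * M := mul_le_mul_of_nonneg_right h1 hMr.le
      have h4 : κ1 * M ≤ κ1 * m := mul_le_mul_of_nonneg_left g1' hκ1.le
      linarith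
    · refine mul_le_mul_of_nonneg_left ?_ (by positivity)
      refine pow_le_pow_left₀ (by positivity) ?_ 2
      exact one_div_le_one_div_of_le hMr g1'
  have htwo : ∀ m ∈ B, ∀ n ∈ B, m ≠ n →
      ∫ t in Set.Ioc s (s + Λ), Pd (c + 1) (m * x + t) * Pd (c + 1) (n * x + t) ≤
        K * Λ * (1 / (M : ℝ)) ^ 2 := by
    intro m hm n hn hmn
    rcases lt_or_gt_of_ne hmn with h | h
    · exact htwo' m hm n hn h
    · have e : ∫ t in Set.Ioc s (s + Λ), Pd (c + 1) (m * x + t) * Pd (c + 1) (n * x + t) =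
          ∫ t in Set.Ioc s (s + Λ), Pd (c + 1) (n * x + t) * Pd (c + 1) (m * x + t) :=
        integral_congr_ae (Eventually.of_forall fun t => mul_comm _ _)
      rw [e]
      exact htwo' n hn m hm h
  have hb := bonf B (fun (m : ℕ) t => Pd (c + 1) (m * x + t))
    (fun m => (measurable_Pd _).comp (by fun_prop)) (fun m t => Pd01 _ _)
    (b := K * Λ * (1 / (M : ℝ)) ^ 2) (by positivity) hone htwo
  have hmono : volume.real {t | t ∈ Set.Ioc s (s + Λ) ∧ ∃ i ∈ B, Pd (c + 1) (i * x + t) = 1} ≤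
      volume.real {t | t ∈ Set.Ioc s (s + Λ) ∧
        ∃ m ∈ Finset.Ico M (2 * M), Pd (c + 1) (m * x + t) = 1} := by
    refine measureReal_mono ?_ ?_
    · rintro t ⟨h1, i, h2, h3⟩
      exact ⟨h1, i, Finset.mem_Ico.2 (hBM i h2), h3⟩
    · refine ne_top_of_le_ne_top (b := volume (Set.Ioc s (s + Λ))) (by simp) (measure_mono fun t ht => ht.1)
  refine le_trans ?_ (hb.trans hmono)
  rw [hcard]
  set k : ℝ := ((M / r : ℕ) : ℝ) with hk
  have hk0 : 0 ≤ k := Nat.cast_nonneg _
  have a1 : (M : ℝ) / (2 * r) * (η * Λ / (4 * x * M)) ≤ k * (η * Λ / (4 * x * M)) :=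
    mul_le_mul_of_nonneg_right hcl (by positivity)
  have a2 : k ^ 2 * (K * Λ * (1 / (M : ℝ)) ^ 2) ≤ (M / r) ^ 2 * (K * Λ * (1 / (M : ℝ)) ^ 2) :=
    mul_le_mul_of_nonneg_right (pow_le_pow_left₀ hk0 hcu 2) (by positivity)
  have e1 : (M : ℝ) / (2 * r) * (η * Λ / (4 * x * M)) = η * Λ / (8 * x * r) := by
    field_simp; norm_num
  have e2 : ((M : ℝ) / r) ^ 2 * (K * Λ * (1 / (M : ℝ)) ^ 2) = K * Λ / r ^ 2 := by
    field_simp
  have a3 : K * Λ / r ^ 2 ≤ η * Λ / (8 * x * r) := by
    have h1 : 8 * x * K / η < r := by linarith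
    rw [div_lt_iff₀ hη] at h1
    rw [div_le_div_iff₀ (by positivity) (by positivity)]
    have h2 : 0 < Λ * r := by positivity
    nlinarith
  have e3 : 2 * (η / (32 * x * r)) * Λ = η * Λ / (8 * x * r) / 2 := by
    field_simp; norm_num
  rw [e3]
  linarith

end Pool.Agent.V1193.PE
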