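import Pool.Agent.V1193.PE.O

set_option autoImplicit false

/-! The number of the indices with a prime value grows like the logarithm, almost everywhere. -/

namespace Pool.Agent.V1193.PE

open Finset MeasureTheory Filter Topology
open Pool.Agent.H305R2 (NN measurable_NN mem_Ioc_log)

/-- the size conditions hold for large `M` -/
lemma big_ev {x q : ℝ} (hx : 0 < x) (hq : 0 < q) (u E : ℕ) (hE1 : 1 ≤ E) (hE : 2 * (2 * x + 1) + 1 ≤ E) :
    ∀ᶠ M : ℕ in atTop, 2 * M * (Real.exp (2 * M * x + u + 1) + 1) ≤ q * 2 ^ ((E - 1) * M) := by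
  have h := exp_small_mul (c := 1) (a := 2 * (Real.exp (u + 1) + 1)) (Λ := q) one_pos (by positivity) hq
  filter_upwards [h, eventually_ge_atTop 1] with M hM hM1
  have hMr : (1 : ℝ) ≤ M := by exact_mod_cast hM1
  have hM0 : (0 : ℝ) < M := by linarith
  set a := 2 * (Real.exp (u + 1) + 1) with ha
  have ha0 : 0 < a := by positivity
  have h1 : a * M ≤ q * Real.exp M := by
    rw [one_mul, Real.exp_neg, ← div_eq_mul_inv, div_le_iff₀ (Real.exp_pos _)] at hM
    have h2 : a * M ^ 2 ≤ q * Real.exp M := by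
      have h3 := mul_le_mul_of_nonneg_right hM (by positivity : (0 : ℝ) ≤ (M : ℝ) ^ 2)
      have e : q * (1 / (M : ℝ)) ^ 2 * Real.exp M * (M : ℝ) ^ 2 = q * Real.exp M := by
        field_simp
      linarith
    have h3 : a * M ≤ a * (M : ℝ) ^ 2 := mul_le_mul_of_nonneg_left (by nlinarith) ha0.le
    linarith
  have h2 : Real.exp ((2 * x + 1) * M) ≤ (2 : ℝ) ^ ((E - 1) * M) := by
    have e : (2 : ℝ) ^ ((E - 1) * M) = Real.exp (((E - 1 : ℕ) : ℝ) * M * Real.log 2) := by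
      rw [← Real.exp_log (show (0 : ℝ) < 2 ^ ((E - 1) * M) by positivity), Real.log_pow]
      push_cast
      rfl
    rw [e]
    refine Real.exp_le_exp.2 ?_
    have h3 : ((E - 1 : ℕ) : ℝ) = E - 1 := by push_cast [Nat.cast_sub hE1]; ring
    rw [h3]
    have h4 := Real.log_two_gt_d9
    have h5 : 2 * (2 * x + 1) ≤ (E : ℝ) - 1 := by linarith
    have h6 : 2 * x + 1 ≤ ((E : ℝ) - 1) * Real.log 2 := by nlinarith
    nlinarith
  have h3 : Real.exp (2 * M * x + u + 1) + 1 ≤ Real.exp (2 * M * x) * (Real.exp (u + 1) + 1) := by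
    have e : Real.exp (2 * M * x + u + 1) = Real.exp (2 * M * x) * Real.exp (u + 1) := by
      rw [← Real.exp_add]; ring_nf
    have h4 : 1 ≤ Real.exp (2 * M * x) := Real.one_le_exp (by positivity)
    rw [e]
    linarith
  calc 2 * M * (Real.exp (2 * M * x + u + 1) + 1) ≤
        2 * M * (Real.exp (2 * M * x) * (Real.exp (u + 1) + 1)) :=
        mul_le_mul_of_nonneg_left h3 (by positivity)
    _ = (a * M) * Real.exp (2 * M * x) := by rw [ha]; ring
    _ ≤ (q * Real.exp M) * Real.exp (2 * M * x) :=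
        mul_le_mul_of_nonneg_right h1 (Real.exp_pos _).le
    _ = q * Real.exp ((2 * x + 1) * M) := by
        rw [mul_assoc, ← Real.exp_add]; ring_nf
    _ ≤ _ := mul_le_mul_of_nonneg_left h2 hq.le

/-- the blocks of digits -/
theorem setup {α : ℝ} (hα : 1 < α) (hdio : Dio α) (hoh : Hoh) (c : ℕ) :
    ∃ (D R : ℕ) (q : ℝ), 1 ≤ D ∧ 2 ≤ R ∧ 0 < q ∧ q ≤ 1 ∧ ∀ u T : ℕ, ∃ j0 : ℕ, ∀ j ≥ j0, ∀ a' : ℕ,
      u * 2 ^ R ^ j ≤ a' → a' < (u + 1) * 2 ^ R ^ j →
      q * (2 : ℝ) ^ (R ^ (j + 1) - R ^ j) ≤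
        ∑ a ∈ Ico (a' * 2 ^ (R ^ (j + 1) - R ^ j)) ((a' + 1) * 2 ^ (R ^ (j + 1) - R ^ j)),
          Zb c (Real.log α) T (D * R ^ j) (R ^ (j + 1)) a := by
  set x := Real.log α with hx
  have hx0 : 0 < x := Real.log_pos hα
  obtain ⟨κ, q', hκ, hq', hblock⟩ := block hα hdio hoh c
  set q := min q' 1 with hqdef
  have hq : 0 < q := lt_min hq' one_pos
  obtain ⟨D, hD⟩ := exists_nat_gt (1 / κ)
  obtain ⟨E, hE⟩ := exists_nat_gt (2 * (2 * x + 1) + 1)
  have hD0 : (0 : ℝ) < D := lt_trans (by positivity) hD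
  have hD1 : 1 ≤ D := by exact_mod_cast hD0
  have hE2r : (2 : ℝ) < E := by linarith
  have hE2 : 2 < E := by exact_mod_cast hE2r
  have hR2 : 2 ≤ D * E := by nlinarith
  refine ⟨D, D * E, q, hD1, hR2, hq, min_le_right _ _, fun u T => ?_⟩
  obtain ⟨M0, hM0⟩ := hblock ((u : ℝ) - T)
  obtain ⟨M1, hM1⟩ := eventually_atTop.1 (big_ev hx0 hq u E (by omega) hE.le)
  refine ⟨max M0 M1, fun j hj a' ha1 ha2 => ?_⟩
  set R := D * E with hR
  set M := D * R ^ j with hM
  have hjR : j ≤ R ^ j := (Nat.lt_pow_self (by omega)).le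
  have hMj : R ^ j ≤ M := by rw [hM]; exact Nat.le_mul_of_pos_left _ (by omega)
  have hMM0 : M0 ≤ M := by have := le_max_left M0 M1; omega
  have hMM1 : M1 ≤ M := by have := le_max_right M0 M1; omega
  have hlL : R ^ j ≤ R ^ (j + 1) := Nat.pow_le_pow_right (by omega) (by omega)
  have hLE : R ^ (j + 1) = E * M := by rw [hM, pow_succ, hR]; ring
  have hmain := hM0 M hMM0 ((a' : ℝ) / 2 ^ R ^ j - T) (1 / 2 ^ R ^ j)
  have h2l : (0 : ℝ) < 2 ^ R ^ j := by positivity
  have ha1' : (u : ℝ) ≤ (a' : ℝ) / 2 ^ R ^ j := by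
    rw [le_div_iff₀ h2l]
    exact_mod_cast ha1
  have ha2' : ((a' : ℝ) + 1) / 2 ^ R ^ j ≤ u + 1 := by
    rw [div_le_iff₀ h2l]
    exact_mod_cast ha2
  have hk := hmain (by
      have e : (1 : ℝ) / 2 ^ R ^ j = Real.exp (-(Real.log 2 * (R ^ j : ℕ))) := by
        rw [Real.exp_neg, mul_comm, Real.exp_nat_mul, Real.exp_log (by norm_num), one_div]
      rw [e]
      refine Real.exp_le_exp.2 ?_
      rw [hM]
      push_cast
      have h4 := Real.log_two_lt_d9
      have h5 : 1 < κ * D := by rwa [div_lt_iff₀' hκ] at hD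
      have h6 : (0 : ℝ) < (R : ℝ) ^ j := by
        have : (0 : ℝ) < R := by exact_mod_cast (by omega : 0 < R)
        positivity
      nlinarith) (by linarith) (by
      have e : (a' : ℝ) / 2 ^ R ^ j - T + 1 / 2 ^ R ^ j = ((a' : ℝ) + 1) / 2 ^ R ^ j - T := by ring
      rw [e]
      linarith)
  have hqq : 2 * q * (1 / 2 ^ R ^ j) ≤ 2 * q' * (1 / 2 ^ R ^ j) := by
    have : q ≤ q' := min_le_left _ _
    gcongr
  refine step (T := (T : ℝ)) hx0 (Nat.cast_nonneg T) hlL ha2 (hqq.trans hk) ?_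
  refine (hM1 M hMM1).trans ?_
  refine mul_le_mul_of_nonneg_left ?_ hq.le
  refine pow_le_pow_right₀ (by norm_num) ?_
  rw [hLE, Nat.sub_mul, one_mul]
  omega

/-- a hit gives a prime value -/
lemma hit {α : ℝ} (hα : 0 < α) {c T M L : ℕ} {t : ℝ} (ht : 0 ≤ t)
    (h : Zb c (Real.log α) T M L ⌊t * 2 ^ L⌋₊ = 1) :
    ∃ m, M ≤ m ∧ m < 2 * M ∧ m ∈ NP c α (Real.exp (t - T)) := by
  have h2L : (0 : ℝ) < 2 ^ L := by positivity
  unfold Zb at h
  split_ifs at h with h1
  · obtain ⟨m, hm, h2⟩ := h1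
    rw [Finset.mem_Ico] at hm
    have h3 := h2 t ⟨by rw [div_le_iff₀ h2L]; exact Nat.floor_le (by positivity),
      by rw [lt_div_iff₀ h2L]; exact Nat.lt_floor_add_one _⟩
    have h4 : t - T ∈ PEv Set.univ c (Real.log α) m := ⟨Set.mem_univ _, h3⟩
    exact ⟨m, hm.1, hm.2, ((mem_PEv hα Set.univ c (t - T) m).1 h4).2⟩
  · norm_num at h

lemma Zb01 (c : ℕ) (x T : ℝ) (M L a : ℕ) : Zb c x T M L a = 0 ∨ Zb c x T M L a = 1 := by
  unfold Zb; split_ifs
  · exact Or.inr rfl
  · exact Or.inl rfl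

/-- the number of hits is at most the number of prime values -/
lemma count {α : ℝ} (hα : 0 < α) {c T D R j1 : ℕ} (hD : 1 ≤ D) (hR : 2 ≤ R) {t : ℝ} (ht : 0 ≤ t) (J : ℕ) :
    ∑ j ∈ range J, Zb c (Real.log α) T (D * R ^ (j + j1)) (R ^ (j + j1 + 1))
      ⌊t * 2 ^ R ^ (j + j1 + 1)⌋₊ ≤
      ((NP c α (Real.exp (t - T)) ∩ Set.Ico 1 (D * R ^ (J + j1))).ncard : ℝ) := by
  induction J with
  | zero => simp
  | succ J ih =>
    rw [Finset.sum_range_succ]
    set F := NP c α (Real.exp (t - T)) ∩ Set.Ico 1 (D * R ^ (J + j1)) with hF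
    set F' := NP c α (Real.exp (t - T)) ∩ Set.Ico 1 (D * R ^ (J + 1 + j1)) with hF'
    have hFf : F.Finite := (Set.finite_Ico _ _).subset Set.inter_subset_right
    have hF'f : F'.Finite := (Set.finite_Ico _ _).subset Set.inter_subset_right
    have hpow : D * R ^ (J + 1 + j1) = R * (D * R ^ (J + j1)) := by
      rw [show J + 1 + j1 = J + j1 + 1 by ring, pow_succ]; ring
    have hMpos : 0 < D * R ^ (J + j1) := Nat.mul_pos (by omega) (Nat.pow_pos (by omega))
    have h2M : 2 * (D * R ^ (J + j1)) ≤ D * R ^ (J + 1 + j1) := by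
      rw [hpow]; exact Nat.mul_le_mul_right _ hR
    have hsub : F ⊆ F' := by
      rintro m ⟨h1, h2, h3⟩
      exact ⟨h1, h2, by omega⟩
    rcases Zb01 c (Real.log α) T (D * R ^ (J + j1)) (R ^ (J + j1 + 1))
      ⌊t * 2 ^ R ^ (J + j1 + 1)⌋₊ with h | h
    · rw [h, add_zero]
      refine ih.trans ?_
      exact_mod_cast Set.ncard_le_ncard hsub hF'f
    · rw [h]
      obtain ⟨m, m1, m2, m3⟩ := hit hα ht h
      have hmF : m ∉ F := fun hm => by
        have := hm.2.2
        omega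
      have h5 : (insert m F).ncard = F.ncard + 1 := Set.ncard_insert_of_notMem hmF hFf
      have h6 : (insert m F).ncard ≤ F'.ncard := by
        refine Set.ncard_le_ncard ?_ hF'f
        rintro k (rfl | hk)
        · exact ⟨m3, by omega, by omega⟩
        · exact hsub hk
      have h7 : (F.ncard : ℝ) + 1 ≤ F'.ncard := by
        rw [h5] at h6
        exact_mod_cast h6
      linarith

/-- from the windows of the shifted logarithm to all amplitudes -/
lemma ae_shift {Q : ℝ → Prop} (h : ∀ u T : ℕ, ∀ᵐ t : ℝ, (u : ℝ) ≤ t → t < u + 1 → Q (t - T)) :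
    ∀ᵐ y : ℝ, Q y := by
  have h1 : ∀ z : ℕ × ℕ, ∀ᵐ y : ℝ, (z.1 : ℝ) ≤ y + z.2 → y + z.2 < z.1 + 1 → Q (y + z.2 - z.2) :=
    fun z => (measurePreserving_add_right volume (z.2 : ℝ)).quasiMeasurePreserving.ae (h z.1 z.2)
  filter_upwards [ae_all_iff.2 h1] with y hy
  obtain ⟨T, hT⟩ := exists_nat_gt |y|
  have h2 := (abs_lt.1 hT).1
  have h3 : 0 ≤ y + T := by linarith
  have h4 := hy (⌊y + T⌋₊, T) (Nat.floor_le h3) (Nat.lt_floor_add_one _)
  simpa using h4

/-- **The number of the indices with a prime value.** -/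
theorem dens {α : ℝ} (hα : 1 < α) (hdio : Dio α) (hoh : Hoh) (c : ℕ) :
    ∃ c0 : ℝ, 0 < c0 ∧ ∀ᵐ b : ℝ, 0 < b → ∀ᶠ X : ℕ in atTop,
      c0 * Real.log X ≤ ((NP c α b ∩ Set.Icc 1 X).ncard : ℝ) := by
  have hα0 : 0 < α := by linarith
  obtain ⟨D, R, q, hD, hR, hq, hq1, hset⟩ := setup hα hdio hoh c
  have hRr : (2 : ℝ) ≤ R := by exact_mod_cast hR
  have hlR : 0 < Real.log R := Real.log_pos (by linarith)
  refine ⟨q / (4 * Real.log R), by positivity, ?_⟩
  refine Pool.Agent.V1193.FM.ae_exp' (Q := fun b => ∀ᶠ X : ℕ in atTop,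
      q / (4 * Real.log R) * Real.log X ≤ ((NP c α b ∩ Set.Icc 1 X).ncard : ℝ)) ?_
  refine ae_shift fun u T => ?_
  obtain ⟨j1, hj1⟩ := hset u T
  have hdev := Pool.Agent.V60.LD.dev_ae (b := 2) (u := u) (s := 0) (by norm_num) (q := q) (R := 1)
    (ε := q / 2) one_pos (by positivity) (fun j => R ^ (j + j1))
    (fun i j hij => Nat.pow_le_pow_right (by omega) (by omega)) (Nat.zero_le _)
    (fun j a => Zb c (Real.log α) T (D * R ^ (j + j1)) (R ^ (j + j1 + 1)) a)
    (fun _ _ => Zb_nonneg _ _ _ _ _ _) (fun _ _ => Zb_le _ _ _ _ _ _)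
    (fun j a' h1 h2 => by
      have h3 := hj1 (j + j1) (by omega) a' (by simpa using h1) (by simpa using h2)
      rw [show j + 1 + j1 = j + j1 + 1 by ring]
      push_cast
      exact h3)
  filter_upwards [hdev] with t ht h1 h2
  have h3 := ht (by simpa using h1) (by simpa using h2)
  have ht0 : 0 ≤ t := le_trans (Nat.cast_nonneg u) h1
  obtain ⟨J0, hJ0⟩ := eventually_atTop.1 h3
  -- the scale of `X`
  have t1 : Tendsto (fun X : ℕ => Real.log (X : ℝ)) atTop atTop :=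
    Real.tendsto_log_atTop.comp tendsto_natCast_atTop_atTop
  filter_upwards [t1.eventually_ge_atTop (2 * (Real.log D + (j1 + 1) * Real.log R)),
    t1.eventually_ge_atTop (Real.log D + (j1 + 1 + J0) * Real.log R), eventually_ge_atTop D,
    eventually_ge_atTop 1] with X x1 x2 x3 x4
  have hXD : X / D ≠ 0 := (Nat.div_pos x3 (by omega)).ne'
  set k := Nat.log R (X / D) with hk
  have k1 : R ^ k ≤ X / D := Nat.pow_log_le_self R hXD
  have k2 : X / D < R ^ (k + 1) := Nat.lt_pow_succ_log_self (by omega) _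
  have k3 : X < D * R ^ (k + 1) := by
    have := Nat.lt_mul_div_succ X (show 0 < D by omega)
    calc X < D * (X / D + 1) := this
      _ ≤ D * R ^ (k + 1) := Nat.mul_le_mul_left _ k2
  have k4 : Real.log X ≤ Real.log D + (k + 1) * Real.log R := by
    have hX0 : (0 : ℝ) < X := by exact_mod_cast x4
    have hD0 : (0 : ℝ) < D := by exact_mod_cast hD
    have h5 : (X : ℝ) ≤ D * (R : ℝ) ^ (k + 1) := by exact_mod_cast k3.le
    calc Real.log X ≤ Real.log (D * (R : ℝ) ^ (k + 1)) := Real.log_le_log hX0 h5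
      _ = _ := by
        rw [Real.log_mul hD0.ne' (by positivity), Real.log_pow]
        push_cast
        ring
  have k5 : (j1 : ℝ) + J0 ≤ k := by
    by_contra hcon
    push Not at hcon
    have : ((k : ℝ) + 1) * Real.log R < (j1 + 1 + J0) * Real.log R :=
      mul_lt_mul_of_pos_right (by linarith) hlR
    linarith
  have k6 : j1 + J0 ≤ k := by exact_mod_cast k5
  clear_value k
  obtain ⟨J, rfl⟩ : ∃ J, k = J + j1 := ⟨k - j1, by omega⟩
  have h6 := hJ0 J (by omega)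
  have h7 := count hα0 (c := c) (T := T) (D := D) (R := R) (j1 := j1) hD hR ht0 J
  have h8 : ((NP c α (Real.exp (t - T)) ∩ Set.Ico 1 (D * R ^ (J + j1))).ncard : ℝ) ≤
      ((NP c α (Real.exp (t - T)) ∩ Set.Icc 1 X).ncard : ℝ) := by
    have hle : D * R ^ (J + j1) ≤ X := by
      exact (Nat.mul_le_mul_left _ k1).trans (Nat.mul_div_le _ _)
    have : (NP c α (Real.exp (t - T)) ∩ Set.Ico 1 (D * R ^ (J + j1))).ncard ≤
        (NP c α (Real.exp (t - T)) ∩ Set.Icc 1 X).ncard := by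
      refine Set.ncard_le_ncard ?_ ((Set.finite_Icc _ _).subset Set.inter_subset_right)
      rintro m ⟨m1, m2, m3⟩
      exact ⟨m1, m2, by omega⟩
    exact_mod_cast this
  have h9 : Real.log X ≤ 2 * (J * Real.log R) := by
    push_cast at k4
    linarith
  have h10 : q / (4 * Real.log R) * Real.log X ≤ (q - q / 2) * J := by
    calc q / (4 * Real.log R) * Real.log X ≤ q / (4 * Real.log R) * (2 * (J * Real.log R)) :=
          mul_le_mul_of_nonneg_left h9 (by positivity)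
      _ = _ := by field_simp; norm_num
  refine h10.trans (h6.le.trans (le_trans (le_of_eq ?_) (h7.trans h8)))
  refine Finset.sum_congr rfl fun j _ => ?_
  rw [show j + 1 + j1 = j + j1 + 1 by ring]
  push_cast
  rfl

end Pool.Agent.V1193.PE
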